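import Mathlib

/-!
# Tate classes on powers of an abelian variety with complex multiplication

`G` is the Galois group of a CM field `E` which is abelian over `ℚ` (written additively), `ι ∈ G` is
complex conjugation; the embeddings of `E` in an algebraic closure are identified with `G`. The
cohomology algebra of an abelian variety is the exterior algebra of its `H¹`.
-/

set_option autoImplicit false

namespace Pool.Agent.Lib.MP_938ce2_ag_h85

section

variable {R M : Type} [CommRing R] [AddCommGroup M] [Module R M]

/-- `x` belongs to the `k`-th exterior power of the module `M`. -/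
def HasDegree (k : ℕ) (x : ExteriorAlgebra R M) : Prop := x ∈ ⋀[R]^k M

/-- The endomorphism of the exterior algebra of `M` induced by the endomorphism `f` of `M` acts on
`x` by multiplication by the scalar `c`. -/
def ActsBy (f : M →ₗ[R] M) (c : R) (x : ExteriorAlgebra R M) : Prop :=
  ExteriorAlgebra.map f x = c • x

/-- `x` belongs to the subalgebra of the exterior algebra of `M` generated by the elements with the
property `P`. -/
def GeneratedBy (P : ExteriorAlgebra R M → Prop) (x : ExteriorAlgebra R M) : Prop :=
  x ∈ Algebra.adjoin R {y | P y}

end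

section

variable (F : Type) [Field F] (G : Type) (n : ℕ)

/-- `H¹(Aⁿ)` with coefficients in `F`: it has one coordinate for each factor of `Aⁿ` and each
embedding of `E`. -/
def H1 : Type := Fin n × G → F

instance : AddCommGroup (H1 F G n) := (Pi.addCommGroup : AddCommGroup (Fin n × G → F))

instance : Module F (H1 F G n) := (Pi.Function.module _ F F : Module F (Fin n × G → F))

/-- The cohomology algebra of `Aⁿ`, the exterior algebra of `H¹(Aⁿ)`. -/
abbrev Coh : Type := ExteriorAlgebra F (H1 F G n)

end

variable (F : Type) [Field F] {G : Type}

/-- The element `b` of `(E ⊗ F)^×`, given by its values `b σ`, `σ ∈ G`, acts on `H¹(Aⁿ)`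
diagonally. -/
def actH1 (n : ℕ) (b : G → Fˣ) : H1 F G n →ₗ[F] H1 F G n where
  toFun v p := b p.2 * v p
  map_add' v w := funext fun p => mul_add (b p.2 : F) (v p) (w p)
  map_smul' c v := funext fun p => mul_left_comm (b p.2 : F) c (v p)

variable [AddCommGroup G]

/-- `Φ` is a CM type: it contains exactly one embedding of each pair `{σ, σ + ι}` of complex
conjugate embeddings. -/
def IsCMType (ι : G) (Φ : Finset G) : Prop := ∀ σ : G, σ ∈ Φ ↔ σ + ι ∉ Φ

/-- The reflex norm of the CM type `Φ`: the value at the embedding `σ` of the reflex norm of the
element `a` of the torus `(E ⊗ F)^×`, given by its values `a τ`, `τ ∈ G`. -/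
def reflexNorm (Φ : Finset G) (a : G → Fˣ) (σ : G) : Fˣ := ∏ φ ∈ Φ, a (σ - φ)

variable [Fintype G]

/-- The norm of the element `a` of the torus `(E ⊗ F)^×`. -/
def torusNorm (a : G → Fˣ) : Fˣ := ∏ τ, a τ

/-- A Tate class of codimension `j` on `Aⁿ`, where `A` has complex multiplication by `E` with CM
type `Φ`: a class of degree `2j` on which the image of the reflex norm acts by the `j`-th power of the
norm. -/
def IsTate (Φ : Finset G) (n j : ℕ) (x : Coh F G n) : Prop :=
  HasDegree (2 * j) x ∧
  ∀ a : G → Fˣ, ActsBy (actH1 F n (reflexNorm F Φ a)) ((torusNorm F a : F) ^ j) x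

open Classical in
/-- The product of the values of `b` at the embeddings in the coset `c + H`. -/
noncomputable def cosetNorm (H : AddSubgroup G) (c : G) (b : G → Fˣ) : Fˣ :=
  ∏ σ ∈ Finset.univ.filter (fun σ => σ - c ∈ H), b σ

/-- A class of Weil type: `E^×` acts on it through the norm to an imaginary quadratic subfield (the
fixed field of a subgroup `H` of index two not containing complex conjugation), followed by one of
the two embeddings of this subfield. -/
def IsWeil (ι : G) (n : ℕ) (x : Coh F G n) : Prop :=
  ∃ H : AddSubgroup G, H.index = 2 ∧ ι ∉ H ∧ ∃ c : G, ∀ b : G → Fˣ,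
    ActsBy (actH1 F n b) (cosetNorm F H c b : F) x

/-- On every power of `A` the Tate classes are generated by those of codimension one. -/
def DivisorGenerated (Φ : Finset G) : Prop :=
  ∀ (F : Type) [Field F] [CharZero F] (n j : ℕ) (x : Coh F G n),
    IsTate F Φ n j x → GeneratedBy (fun y => IsTate F Φ n 1 y) x

/-- On every power of `A` the Tate classes are generated by those of codimension one and by the Tate
classes of Weil type. -/
def WeilGenerated (ι : G) (Φ : Finset G) : Prop :=
  ∀ (F : Type) [Field F] [CharZero F] (n j : ℕ) (x : Coh F G n),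
    IsTate F Φ n j x →
      GeneratedBy (fun y => IsTate F Φ n 1 y ∨ ((∃ i, IsTate F Φ n i y) ∧ IsWeil F ι n y)) x

omit [Fintype G]

/-- The subgroups of index two not containing `ι`; by Galois theory they correspond to the imaginary
quadratic subfields of `E`. -/
def quadSub (ι : G) : Set (AddSubgroup G) := {H | H.index = 2 ∧ ι ∉ H}

/-- The subgroups of index four or six, with cyclic quotient, not containing `ι`; by Galois theory
they correspond to the cyclic CM subfields of `E` of degree four or six. -/
def cycSub (ι : G) : Set (AddSubgroup G) :=
  {H | (H.index = 4 ∨ H.index = 6) ∧ IsAddCyclic (G ⧸ H) ∧ ι ∉ H}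

end Pool.Agent.Lib.MP_938ce2_ag_h85
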