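import Mathlib

/-!
Functions on a finite abelian group which are annihilated by a finite set of translations.
-/

set_option autoImplicit false
set_option linter.unusedSectionVars false

namespace Pool.Agent.Lib.MP_938ce2_ag_h85

section

variable {G : Type} [AddCommGroup G] [Fintype G] {ι : G} {Φ : Finset G}

/-- Fourier inversion -/
lemma fourier_inv (h : G → ℂ) (τ : G) :
    ∑ χ : AddChar G ℂ, χ (-τ) * ∑ σ, χ σ * h σ = Fintype.card G * h τ := by
  classical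
  simp only [Finset.mul_sum]
  rw [Finset.sum_comm]
  have h1 : ∀ σ : G, ∑ χ : AddChar G ℂ, χ (-τ) * (χ σ * h σ)
      = (if σ - τ = 0 then (Fintype.card G : ℂ) else 0) * h σ := by
    intro σ
    rw [← AddChar.sum_apply_eq_ite (σ - τ), Finset.sum_mul]
    refine Finset.sum_congr rfl fun χ _ => ?_
    rw [← mul_assoc, ← AddChar.map_add_eq_mul]
    congr 2
    abel
  rw [Finset.sum_congr rfl fun σ _ => h1 σ, Finset.sum_eq_single τ]
  · simp
  · intro σ _ hσ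
    rw [if_neg (sub_ne_zero.mpr hσ), zero_mul]
  · intro h; exact absurd (Finset.mem_univ _) h

/-- the transform of a convolution -/
lemma fourier_conv (h : G → ℂ) (Φ : Finset G) (χ : AddChar G ℂ) :
    ∑ τ, χ τ * ∑ φ ∈ Φ, h (τ + φ) = (∑ φ ∈ Φ, χ (-φ)) * ∑ σ, χ σ * h σ := by
  simp only [Finset.mul_sum, Finset.sum_mul]
  rw [Finset.sum_comm]
  conv_rhs => rw [Finset.sum_comm]
  refine Finset.sum_congr rfl fun φ _ => ?_
  refine Fintype.sum_equiv (Equiv.addRight φ) _ _ fun τ => ?_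
  simp only [Equiv.coe_addRight]
  rw [← mul_assoc, ← AddChar.map_add_eq_mul]
  congr 2
  abel

lemma fourier_even {h : G → ℂ} (hodd : ∀ σ, h (σ + ι) = - h σ) {χ : AddChar G ℂ} (hχ : χ ι = 1) :
    ∑ σ, χ σ * h σ = 0 := by
  have h1 : ∑ σ, χ σ * h σ = - ∑ σ, χ σ * h σ := by
    conv_lhs => rw [← Equiv.sum_comp (Equiv.addRight ι)]
    simp only [Equiv.coe_addRight]
    rw [← Finset.sum_neg_distrib]
    refine Finset.sum_congr rfl fun σ _ => ?_
    rw [hodd, AddChar.map_add_eq_mul, hχ]; ring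
  have h2 : (2 : ℂ) * ∑ σ, χ σ * h σ = 0 := by linear_combination h1
  simpa using h2

lemma char_iota (hι2 : ι + ι = 0) (χ : AddChar G ℂ) : χ ι = 1 ∨ χ ι = -1 := by
  have h : χ ι * χ ι = 1 := by rw [← AddChar.map_add_eq_mul, hι2, AddChar.map_zero_eq_one]
  exact mul_self_eq_one_iff.mp h

lemma char_neg_ne_zero_iff (χ : AddChar G ℂ) (Φ : Finset G) :
    (∑ φ ∈ Φ, χ (-φ) = 0) ↔ ∑ φ ∈ Φ, χ φ = 0 := by
  have h : ∑ φ ∈ Φ, χ (-φ) = (starRingEnd ℂ) (∑ φ ∈ Φ, χ φ) := by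
    rw [map_sum]
    exact Finset.sum_congr rfl fun φ _ => AddChar.map_neg_eq_conj χ φ
  rw [h, map_eq_zero]

/-- the transform of an odd function annihilated by `Φ` is supported on the odd characters at which
the transform of `Φ` vanishes -/
lemma fourier_supp (hι2 : ι + ι = 0) {h : G → ℂ} (hodd : ∀ σ, h (σ + ι) = - h σ)
    (hann : ∀ τ, ∑ φ ∈ Φ, h (τ + φ) = 0) {χ : AddChar G ℂ} (hne : ∑ σ, χ σ * h σ ≠ 0) :
    χ ι = -1 ∧ ∑ φ ∈ Φ, χ φ = 0 := by
  refine ⟨?_, ?_⟩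
  · rcases char_iota hι2 χ with h1 | h1
    · exact absurd (fourier_even hodd h1) hne
    · exact h1
  · have h1 := fourier_conv h Φ χ
    simp only [hann, mul_zero, Finset.sum_const_zero] at h1
    rcases mul_eq_zero.mp h1.symm with h2 | h2
    · exact (char_neg_ne_zero_iff χ Φ).mp h2
    · exact absurd h2 hne

theorem eq_zero_of_annihilated (hι2 : ι + ι = 0) {h : G → ℂ} (hodd : ∀ σ, h (σ + ι) = - h σ)
    (hann : ∀ τ, ∑ φ ∈ Φ, h (τ + φ) = 0)
    (hΦ : ∀ χ : AddChar G ℂ, χ ι = -1 → ∑ φ ∈ Φ, χ φ ≠ 0) (τ : G) : h τ = 0 := by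
  have h1 := fourier_inv h τ
  rw [Finset.sum_eq_zero] at h1
  · have h2 : (Fintype.card G : ℂ) ≠ 0 := by
      have : Fintype.card G ≠ 0 := Fintype.card_ne_zero
      exact_mod_cast this
    rcases mul_eq_zero.mp h1.symm with h3 | h3
    · exact absurd h3 h2
    · exact h3
  · intro χ _
    by_contra h3
    have h4 : ∑ σ, χ σ * h σ ≠ 0 := fun h => h3 (by rw [h, mul_zero])
    have h5 := fourier_supp hι2 hodd hann h4
    exact hΦ χ h5.1 h5.2

theorem eq_char_of_annihilated (hι2 : ι + ι = 0) {h : G → ℂ} (hodd : ∀ σ, h (σ + ι) = - h σ)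
    (hann : ∀ τ, ∑ φ ∈ Φ, h (τ + φ) = 0) {χ0 : AddChar G ℂ} (hχ0 : ∀ σ, χ0 σ = 1 ∨ χ0 σ = -1)
    (hΦ : ∀ χ : AddChar G ℂ, χ ι = -1 → χ ≠ χ0 → ∑ φ ∈ Φ, χ φ ≠ 0) (τ : G) : h τ = h 0 * χ0 τ := by
  have key : ∀ τ, Fintype.card G * h τ = χ0 (-τ) * ∑ σ, χ0 σ * h σ := by
    intro τ
    rw [← fourier_inv h τ, Finset.sum_eq_single χ0]
    · intro χ _ hχ
      by_contra h3
      have h4 : ∑ σ, χ σ * h σ ≠ 0 := fun h => h3 (by rw [h, mul_zero])
      have h5 := fourier_supp hι2 hodd hann h4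
      exact hΦ χ h5.1 hχ h5.2
    · intro h; exact absurd (Finset.mem_univ _) h
  have h2 : (Fintype.card G : ℂ) ≠ 0 := by
    have : Fintype.card G ≠ 0 := Fintype.card_ne_zero
    exact_mod_cast this
  have h3 : χ0 (-τ) = χ0 τ := by
    have : χ0 (-τ) * χ0 τ = 1 := by
      rw [← AddChar.map_add_eq_mul, neg_add_cancel, AddChar.map_zero_eq_one]
    rcases hχ0 τ with h4 | h4
    · rw [h4, mul_one] at this; rw [this, h4]
    · rw [h4] at this; rw [h4]; linear_combination -this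
  have h5 := key τ
  have h6 := key 0
  rw [neg_zero, AddChar.map_zero_eq_one, one_mul] at h6
  rw [h3, ← h6] at h5
  apply mul_left_cancel₀ h2
  rw [h5]; ring

end

end Pool.Agent.Lib.MP_938ce2_ag_h85
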