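import Mathlib

/-!
Weights of a diagonal torus on the exterior algebra of `I → F`.
-/

set_option autoImplicit false

namespace Pool.Agent.Lib.MP_938ce2_ag_h85

open Module Set Set.powersetCard

section

variable (F : Type) [Field F] {I : Type}

/-- the diagonal endomorphism of `I → F` -/
noncomputable def diagMap (d : I → F) : (I → F) →ₗ[F] (I → F) :=
  LinearMap.pi fun i => d i • LinearMap.proj i

@[simp] lemma diagMap_apply (d : I → F) (v : I → F) (i : I) : diagMap F d v i = d i * v i := rfl

variable [LinearOrder I] [Fintype I]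

/-- the monomial basis of the exterior algebra -/
noncomputable def mB : Basis (Finset I) F (ExteriorAlgebra F (I → F)) :=
  (Pi.basisFun F I).ExteriorAlgebra

lemma diagMap_basis (d : I → F) (i : I) :
    diagMap F d (Pi.basisFun F I i) = d i • Pi.basisFun F I i := by
  ext j
  simp only [diagMap_apply, Pi.basisFun_apply, Pi.smul_apply, smul_eq_mul]
  by_cases h : j = i
  · subst h; rfl
  · simp [h]

lemma mB_card {n : ℕ} (s : Finset I) (hs : s.card = n) :
    mB F s = ExteriorAlgebra.ιMulti F n ((Pi.basisFun F I) ∘ s.orderEmbOfFin hs) := by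
  subst hs
  rw [mB, ExteriorAlgebra.basis_apply_ofCard _ rfl]
  rfl

lemma map_diag_mB (d : I → F) (s : Finset I) :
    ExteriorAlgebra.map (diagMap F d) (mB F s) = (∏ i ∈ s, d i) • mB F s := by
  rw [mB_card F s rfl, ExteriorAlgebra.map_apply_ιMulti]
  have e : (diagMap F d) ∘ ((Pi.basisFun F I) ∘ s.orderEmbOfFin rfl)
      = fun k => d (s.orderEmbOfFin rfl k) • ((Pi.basisFun F I) ∘ s.orderEmbOfFin rfl) k := by
    funext k
    simp only [Function.comp_apply]
    exact diagMap_basis F d _
  rw [e]
  have h := (ExteriorAlgebra.ιMulti F s.card (M := I → F)).toMultilinearMap.map_smul_univ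
    (fun k => d (s.orderEmbOfFin rfl k)) ((Pi.basisFun F I) ∘ s.orderEmbOfFin rfl)
  refine h.trans ?_
  congr 1
  conv_rhs => rw [← Finset.map_orderEmbOfFin_univ s rfl, Finset.prod_map]
  rfl

lemma repr_map_diag (d : I → F) (x : ExteriorAlgebra F (I → F)) (s : Finset I) :
    (mB F).repr (ExteriorAlgebra.map (diagMap F d) x) s = (∏ i ∈ s, d i) * (mB F).repr x s := by
  have h : ((mB F).coord s) ∘ₗ (ExteriorAlgebra.map (diagMap F d)).toLinearMap
      = (∏ i ∈ s, d i) • (mB F).coord s := by
    refine (mB F).ext fun t => ?_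
    simp only [LinearMap.comp_apply, AlgHom.toLinearMap_apply, LinearMap.smul_apply, map_diag_mB,
      map_smul, Basis.coord_apply, Basis.repr_self, smul_eq_mul]
    by_cases hst : s = t
    · subst hst; rfl
    · rw [Finsupp.single_eq_of_ne hst, mul_zero, mul_zero]
  exact LinearMap.congr_fun h x

/-- products of monomials -/
lemma mB_mul_of_disjoint {s t : Finset I} (h : Disjoint s t) :
    ∃ c : F, c ≠ 0 ∧ mB F s * mB F t = c • mB F (s ∪ t) := by
  classical
  have h1 := ExteriorAlgebra.basis_mul_of_disjoint (Pi.basisFun F I)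
    (ofCard (s := s) rfl) (ofCard (s := t) rfl) (by exact h)
  have h2 : (Set.powersetCard.disjUnion (s := ofCard (s := s) rfl) (t := ofCard (s := t) rfl) h).val
      = s ∪ t := by
    simp [Set.powersetCard.disjUnion]
  rw [h2] at h1
  rcases Int.units_eq_one_or (permOfDisjoint (s := ofCard (s := s) rfl)
    (t := ofCard (s := t) rfl) h).sign with h3 | h3
  · refine ⟨1, one_ne_zero, ?_⟩
    rw [h3, one_smul] at h1
    rw [one_smul]
    exact h1
  · refine ⟨-1, neg_ne_zero.mpr one_ne_zero, ?_⟩
    rw [h3] at h1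
    rw [neg_smul, one_smul]
    simpa [mB] using h1

lemma mB_mul_of_not_disjoint {s t : Finset I} (h : ¬ Disjoint s t) : mB F s * mB F t = 0 :=
  ExteriorAlgebra.basis_mul_of_not_disjoint (Pi.basisFun F I)
    (ofCard (s := s) rfl) (ofCard (s := t) rfl) h

lemma mB_mem (s : Finset I) : mB F s ∈ ⋀[F]^s.card (I → F) := by
  rw [mB_card F s rfl]
  exact ExteriorAlgebra.ιMulti_range F s.card ⟨_, rfl⟩

end

end Pool.Agent.Lib.MP_938ce2_ag_h85
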