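import Mathlib
import Pool.Agent.Lib.MP_938ce2_ag_h85.Ext
import Pool.Agent.Lib.MP_938ce2_ag_h85.Defs

/-!
Monomial Tate classes.
-/

set_option autoImplicit false
set_option linter.unusedSectionVars false

namespace Pool.Agent.Lib.MP_938ce2_ag_h85

open Module

section

variable {G : Type} [AddCommGroup G] [Fintype G] [DecidableEq G]
variable (F : Type) [Field F] {I : Type} [LinearOrder I] [Fintype I] (π : I → G)

/-- Tate classes, general index set -/
def TateW (Φ : Finset G) (j : ℕ) (x : ExteriorAlgebra F (I → F)) : Prop :=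
  x ∈ ⋀[F]^(2 * j) (I → F) ∧ ∀ a : G → Fˣ,
    ExteriorAlgebra.map (diagMap F fun p => (reflexNorm F Φ a (π p) : F)) x
      = (torusNorm F a : F) ^ j • x

lemma coe_torusNorm (a : G → Fˣ) : (torusNorm F a : F) = ∏ τ, (a τ : F) := Units.coe_prod _ _

lemma coe_reflexNorm (Φ : Finset G) (a : G → Fˣ) (σ : G) :
    (reflexNorm F Φ a σ : F) = ∏ φ ∈ Φ, (a (σ - φ) : F) := Units.coe_prod _ _

/-- classes of `E`-weight `T` -/
def WeightW (T : Finset G) (x : ExteriorAlgebra F (I → F)) : Prop :=
  ∀ b : G → Fˣ, ExteriorAlgebra.map (diagMap F fun p => (b (π p) : F)) x = (∏ σ ∈ T, (b σ : F)) • x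

variable {F} {π}

/-- multiplicities of a monomial -/
def mult (π : I → G) (s : Finset I) (σ : G) : ℕ := (s.filter fun p => π p = σ).card

lemma sum_mult (s : Finset I) (T : Finset G) :
    ∑ σ ∈ T, mult π s σ = (s.filter fun p => π p ∈ T).card := by
  unfold mult
  rw [← Finset.card_biUnion]
  · congr 1
    ext p
    simp only [Finset.mem_biUnion, Finset.mem_filter]
    constructor
    · rintro ⟨σ, h1, h2, h3⟩
      exact ⟨h2, h3 ▸ h1⟩
    · rintro ⟨h1, h2⟩
      exact ⟨π p, h2, h1, rfl⟩
  · intro x _ y _ hxy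
    rw [Function.onFun, Finset.disjoint_left]
    intro p hp hq
    rw [Finset.mem_filter] at hp hq
    exact hxy (hp.2.symm.trans hq.2)

/-- product of the reflex norm over a monomial -/
lemma prod_reflexNorm (Φ : Finset G) (a : G → Fˣ) (s : Finset I) :
    ∏ p ∈ s, (reflexNorm F Φ a (π p) : F) = ∏ τ, (a τ : F) ^ (∑ φ ∈ Φ, mult π s (τ + φ)) := by
  rw [Finset.prod_congr rfl fun p _ => coe_reflexNorm F Φ a (π p)]
  rw [Finset.prod_comm]
  have h1 : ∀ φ ∈ Φ, ∏ p ∈ s, (a (π p - φ) : F) = ∏ τ, (a τ : F) ^ mult π s (τ + φ) := by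
    intro φ _
    rw [← Finset.prod_fiberwise s (fun p => π p - φ)]
    refine Finset.prod_congr rfl fun τ _ => ?_
    rw [Finset.prod_congr rfl (g := fun _ => (a τ : F)), Finset.prod_const]
    · congr 1
      unfold mult
      congr 1
      ext p
      simp only [Finset.mem_filter, sub_eq_iff_eq_add]
    · intro p hp
      rw [(Finset.mem_filter.mp hp).2]
  rw [Finset.prod_congr rfl h1, Finset.prod_comm]
  exact Finset.prod_congr rfl fun τ _ => Finset.prod_pow_eq_pow_sum _ _ _

/-- weights occurring in a Tate class -/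
lemma TateW.coord [CharZero F] {Φ : Finset G} {j : ℕ} {x : ExteriorAlgebra F (I → F)}
    (hx : TateW F π Φ j x) {s : Finset I} (hs : (mB F).repr x s ≠ 0) (τ : G) :
    ∑ φ ∈ Φ, mult π s (τ + φ) = j := by
  have h2 : (2 : F) ≠ 0 := two_ne_zero
  set a : G → Fˣ := fun σ => if σ = τ then Units.mk0 2 h2 else 1 with ha
  have h := congrArg (fun y => (mB F).repr y s) (hx.2 a)
  simp only [repr_map_diag, map_smul, Finsupp.smul_apply, smul_eq_mul] at h
  have h3 := mul_right_cancel₀ hs h
  rw [prod_reflexNorm, coe_torusNorm] at h3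
  have e1 : ∀ f : G → ℕ, ∏ σ, (a σ : F) ^ f σ = 2 ^ f τ := by
    intro f
    rw [Finset.prod_eq_single τ]
    · simp [ha]
    · intro σ _ hσ
      simp [ha, hσ]
    · intro h; exact absurd (Finset.mem_univ _) h
  have e2 : ∏ σ, (a σ : F) = 2 := by
    have := e1 fun _ => 1
    simpa using this
  rw [e1, e2] at h3
  have h4 : (2 : ℕ) ^ (∑ φ ∈ Φ, mult π s (τ + φ)) = 2 ^ j := by exact_mod_cast h3
  exact Nat.pow_right_injective le_rfl h4

/-- a criterion for a monomial to be a Tate class -/
lemma tateW_mB {Φ : Finset G} {j : ℕ} {s : Finset I} (hc : s.card = 2 * j)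
    (h : ∀ τ, ∑ φ ∈ Φ, mult π s (τ + φ) = j) : TateW F π Φ j (mB F s) := by
  refine ⟨?_, fun a => ?_⟩
  · rw [← hc]; exact mB_mem F s
  · rw [map_diag_mB, prod_reflexNorm, coe_torusNorm]
    congr 1
    rw [Finset.prod_congr rfl fun τ _ => by rw [h τ], Finset.prod_pow]

lemma sum_type {ι : G} {Φ : Finset G} (hΦ : IsCMType ι Φ) {M : Type} [AddCommMonoid M] (f : G → M) :
    ∑ σ ∈ Φ, f σ + ∑ σ ∈ Φ, f (σ + ι) = ∑ σ, f σ := by
  have h1 : ∑ σ ∈ Φ, f (σ + ι) = ∑ σ ∈ Finset.univ.filter (fun σ => σ ∉ Φ), f σ := by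
    refine Finset.sum_nbij' (fun σ => σ + ι) (fun σ => σ - ι) ?_ ?_ ?_ ?_ ?_
    · intro σ hσ
      rw [Finset.mem_filter]
      exact ⟨Finset.mem_univ _, (hΦ σ).mp hσ⟩
    · intro σ hσ
      rw [Finset.mem_filter] at hσ
      rw [hΦ, sub_add_cancel]
      exact hσ.2
    · intro σ _; simp
    · intro σ _; simp
    · intro σ _; rfl
  rw [h1]
  have := Finset.sum_filter_add_sum_filter_not Finset.univ (fun σ => σ ∈ Φ) f
  rw [← this]
  congr 1
  simp

lemma IsCMType.shift {ι : G} {Φ : Finset G} (hΦ : IsCMType ι Φ) (τ : G) :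
    IsCMType ι (Φ.image fun φ => τ + φ) := by
  intro σ
  simp only [Finset.mem_image]
  constructor
  · rintro ⟨φ, h1, rfl⟩ ⟨ψ, h2, h3⟩
    have : ψ = φ + ι := by
      have : τ + ψ = τ + (φ + ι) := by rw [h3]; abel
      exact add_left_cancel this
    rw [this] at h2
    exact (hΦ φ).mp h1 h2
  · intro h
    refine ⟨σ - τ, ?_, by abel⟩
    rw [hΦ]
    intro h2
    exact h ⟨_, h2, by abel⟩

variable {ι : G} {Φ : Finset G}

/-- the pair class is a Tate class of codimension one -/
lemma tateW_pair (hι : ι ≠ 0) (hι2 : ι + ι = 0) (hΦ : IsCMType ι Φ) {p q : I} (hpq : π q = π p + ι) :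
    TateW F π Φ 1 (mB F {p, q}) := by
  have hne : p ≠ q := by
    rintro rfl
    exact hι (by simpa using hpq.symm)
  refine tateW_mB (by rw [Finset.card_pair hne]) fun τ => ?_
  have h1 : ∀ σ, mult π {p, q} σ = (if π p = σ then 1 else 0) + (if π p + ι = σ then 1 else 0) := by
    intro σ
    unfold mult
    rw [Finset.filter_insert, Finset.filter_singleton, hpq]
    split_ifs with a b b
    · exact absurd (a.trans b.symm) (by simpa using hι)
    · simp
    · simp
    · simp
  simp only [h1, Finset.sum_add_distrib]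
  have h2 := sum_type hΦ (fun σ => if π p = τ + σ then 1 else 0)
  have h3 : ∑ φ ∈ Φ, (if π p + ι = τ + φ then 1 else 0) = ∑ φ ∈ Φ, (if π p = τ + (φ + ι) then 1 else 0) := by
    refine Finset.sum_congr rfl fun φ _ => ?_
    congr 1
    rw [eq_iff_iff]
    constructor
    · intro h
      calc π p = (π p + ι) + ι := by rw [add_assoc, hι2, add_zero]
        _ = _ := by rw [h]; abel
    · intro h
      calc π p + ι = (τ + (φ + ι)) + ι := by rw [← h]
        _ = τ + φ + (ι + ι) := by abel
        _ = _ := by rw [hι2, add_zero]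
  rw [h3]
  refine h2.trans ?_
  rw [Finset.sum_eq_single (π p - τ)]
  · simp
  · intro b _ hb
    rw [if_neg]
    intro h
    apply hb
    rw [h]; abel
  · intro h; exact absurd (Finset.mem_univ _) h

lemma mult_disjUnion {s t : Finset I} (h : Disjoint s t) (σ : G) :
    mult π (s ∪ t) σ = mult π s σ + mult π t σ := by
  unfold mult
  rw [Finset.filter_union, Finset.card_union_of_disjoint]
  exact Finset.disjoint_filter_filter h

/-- symmetric monomials are generated in codimension one -/
theorem mem_adjoin_of_symm (hι : ι ≠ 0) (hι2 : ι + ι = 0) (hΦ : IsCMType ι Φ) (k : ℕ) :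
    ∀ s : Finset I, s.card = k → (∀ σ, mult π s σ = mult π s (σ + ι)) →
      mB F s ∈ Algebra.adjoin F {y | TateW F π Φ 1 y} := by
  induction k using Nat.strong_induction_on with
  | _ k ih =>
    intro s hs hf
    rcases s.eq_empty_or_nonempty with rfl | ⟨p, hp⟩
    · have : mB F (∅ : Finset I) = 1 := by
        rw [mB_card F ∅ rfl]
        exact ExteriorAlgebra.ιMulti_zero_apply _
      rw [this]
      exact one_mem _
    · have h1 : 0 < mult π s (π p) := Finset.card_pos.mpr ⟨p, Finset.mem_filter.mpr ⟨hp, rfl⟩⟩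
      rw [hf] at h1
      obtain ⟨q, hq⟩ := Finset.card_pos.mp h1
      rw [Finset.mem_filter] at hq
      have hne : p ≠ q := by
        rintro rfl
        exact hι (by simpa using hq.2.symm)
      have hsub : ({p, q} : Finset I) ⊆ s := by
        intro x hx
        rw [Finset.mem_insert, Finset.mem_singleton] at hx
        rcases hx with rfl | rfl
        · exact hp
        · exact hq.1
      have hd : Disjoint ({p, q} : Finset I) (s \ {p, q}) := Finset.disjoint_sdiff
      have hu : ({p, q} : Finset I) ∪ (s \ {p, q}) = s := Finset.union_sdiff_of_subset hsub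
      obtain ⟨c, hc, hmul⟩ := mB_mul_of_disjoint F hd
      rw [hu] at hmul
      have hcard : (s \ {p, q}).card < k := by
        rw [Finset.card_sdiff_of_subset hsub, Finset.card_pair hne, hs]
        have := Finset.card_le_card hsub
        rw [Finset.card_pair hne, hs] at this
        omega
      have hpair : ∀ σ, mult π {p, q} σ = mult π {p, q} (σ + ι) := by
        intro σ
        have h2 : ∀ σ, mult π {p, q} σ = (if π p = σ then 1 else 0) + (if π p + ι = σ then 1 else 0) := by
          intro σ
          unfold mult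
          rw [Finset.filter_insert, Finset.filter_singleton, hq.2]
          split_ifs with a b b
          · exact absurd (a.trans b.symm) (by simpa using hι)
          · simp
          · simp
          · simp
        rw [h2, h2, add_comm]
        congr 1
        · congr 1
          rw [eq_iff_iff]
          constructor
          · intro h
            calc π p = (π p + ι) + ι := by rw [add_assoc, hι2, add_zero]
              _ = _ := by rw [h]
          · intro h
            rw [h, add_assoc, hι2, add_zero]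
        · congr 1
          rw [eq_iff_iff, add_left_inj]
      have hrec := ih _ hcard (s \ {p, q}) rfl fun σ => by
        have h3 := mult_disjUnion (π := π) hd σ
        have h4 := mult_disjUnion (π := π) hd (σ + ι)
        rw [hu] at h3 h4
        have h5 := hf σ
        have h6 := hpair σ
        omega
      have h7 : mB F s = c⁻¹ • (mB F {p, q} * mB F (s \ {p, q})) := by
        rw [hmul, smul_smul, inv_mul_cancel₀ hc, one_smul]
      have h8 : mB F {p, q} ∈ Algebra.adjoin F {y | TateW F π Φ 1 y} :=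
        Algebra.subset_adjoin (Set.mem_ofPred.mpr (tateW_pair hι hι2 hΦ hq.2))
      rw [h7]
      exact Subalgebra.smul_mem _ (mul_mem h8 hrec) _

end

end Pool.Agent.Lib.MP_938ce2_ag_h85
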