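import Mathlib
import Pool.Agent.Lib.MP_938ce2_ag_h85.TateMon

/-!
Monomial Tate classes generated by divisor classes and classes of Weil type.
-/

set_option autoImplicit false
set_option linter.unusedSectionVars false

namespace Pool.Agent.Lib.MP_938ce2_ag_h85

open Module

section

variable {G : Type} [AddCommGroup G] [Fintype G] [DecidableEq G]
variable {F : Type} [Field F] {I : Type} [LinearOrder I] [Fintype I] {π : I → G}
variable {ι : G} {Φ : Finset G}

/-- monomials whose asymmetry is a multiple of a CM type `T` are generated by the classes of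
codimension one and the classes of weight `T` -/
theorem mem_adjoin_of_type (hι : ι ≠ 0) (hι2 : ι + ι = 0) (hΦ : IsCMType ι Φ) {T : Finset G}
    (hT : IsCMType ι T) (W : ExteriorAlgebra F (I → F) → Prop)
    (hW : ∀ t : Finset I, (∀ σ, mult π t σ = if σ ∈ T then 1 else 0) → W (mB F t)) (c : ℕ) :
    ∀ s : Finset I, (∀ σ ∈ T, mult π s σ = mult π s (σ + ι) + c) →
      mB F s ∈ Algebra.adjoin F {y | TateW F π Φ 1 y ∨ W y} := by
  classical
  induction c with
  | zero =>
    intro s hs
    have h1 : ∀ σ, mult π s σ = mult π s (σ + ι) := by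
      intro σ
      by_cases h : σ ∈ T
      · exact hs σ h
      · have h2 : σ + ι ∈ T := by
          by_contra h3
          exact h ((hT σ).mpr h3)
        have h4 := hs _ h2
        rw [add_assoc, hι2, add_zero, add_zero] at h4
        exact h4.symm
    exact Algebra.adjoin_mono (fun y hy => Or.inl hy) (mem_adjoin_of_symm hι hι2 hΦ _ s rfl h1)
  | succ c ih =>
    intro s hs
    have h1 : ∀ σ ∈ T, ∃ p ∈ s, π p = σ := by
      intro σ hσ
      have h2 : 0 < mult π s σ := by rw [hs σ hσ]; omega
      obtain ⟨p, hp⟩ := Finset.card_pos.mp h2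
      exact ⟨p, (Finset.mem_filter.mp hp).1, (Finset.mem_filter.mp hp).2⟩
    have : Nonempty I := by
      by_cases h : (0 : G) ∈ T
      · obtain ⟨p, _⟩ := h1 _ h
        exact ⟨p⟩
      · have h2 : (0 : G) + ι ∈ T := by
          by_contra h3
          exact h ((hT 0).mpr h3)
        obtain ⟨p, _⟩ := h1 _ h2
        exact ⟨p⟩
    choose! f hf1 hf2 using h1
    set t := T.image f with ht
    have hts : t ⊆ s := by
      intro p hp
      obtain ⟨σ, h3, rfl⟩ := Finset.mem_image.mp hp
      exact hf1 σ h3
    have hmt : ∀ σ, mult π t σ = if σ ∈ T then 1 else 0 := by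
      intro σ
      unfold mult
      split_ifs with h
      · rw [Finset.card_eq_one]
        refine ⟨f σ, ?_⟩
        ext p
        rw [Finset.mem_filter, Finset.mem_singleton, ht, Finset.mem_image]
        constructor
        · rintro ⟨⟨τ, h3, rfl⟩, h4⟩
          rw [hf2 τ h3] at h4
          rw [h4]
        · rintro rfl
          exact ⟨⟨σ, h, rfl⟩, hf2 σ h⟩
      · rw [Finset.card_eq_zero, Finset.filter_eq_empty_iff]
        intro p hp h4
        obtain ⟨τ, h3, rfl⟩ := Finset.mem_image.mp hp
        rw [hf2 τ h3] at h4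
        exact h (h4 ▸ h3)
    have hd : Disjoint t (s \ t) := Finset.disjoint_sdiff
    have hu : t ∪ (s \ t) = s := Finset.union_sdiff_of_subset hts
    obtain ⟨c', hc, hmul⟩ := mB_mul_of_disjoint F hd
    rw [hu] at hmul
    have hrec := ih (s \ t) fun σ hσ => by
      have h3 := mult_disjUnion (π := π) hd σ
      have h4 := mult_disjUnion (π := π) hd (σ + ι)
      rw [hu] at h3 h4
      have h5 := hs σ hσ
      have h6 := hmt σ
      have h7 := hmt (σ + ι)
      rw [if_pos hσ] at h6
      rw [if_neg ((hT σ).mp hσ)] at h7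
      omega
    have h7 : mB F s = c'⁻¹ • (mB F t * mB F (s \ t)) := by
      rw [hmul, smul_smul, inv_mul_cancel₀ hc, one_smul]
    have h8 : mB F t ∈ Algebra.adjoin F {y | TateW F π Φ 1 y ∨ W y} :=
      Algebra.subset_adjoin (Set.mem_ofPred.mpr (Or.inr (hW t hmt)))
    rw [h7]
    exact Subalgebra.smul_mem _ (mul_mem h8 hrec) _

/-- every element of the exterior algebra is in the adjoin if its monomials are -/
lemma mem_adjoin_of_coord {S : Set (ExteriorAlgebra F (I → F))} {x : ExteriorAlgebra F (I → F)}
    (h : ∀ s : Finset I, (mB F).repr x s ≠ 0 → mB F s ∈ Algebra.adjoin F S) :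
    x ∈ Algebra.adjoin F S := by
  rw [← (mB F).linearCombination_repr x, Finsupp.linearCombination_apply]
  refine sum_mem fun s hs => ?_
  exact Subalgebra.smul_mem _ (h s (Finsupp.mem_support_iff.mp hs)) _

/-- the weight of a monomial -/
lemma map_weight (b : G → Fˣ) (s : Finset I) :
    ExteriorAlgebra.map (diagMap F fun p => (b (π p) : F)) (mB F s)
      = (∏ σ, (b σ : F) ^ mult π s σ) • mB F s := by
  rw [map_diag_mB]
  congr 1
  rw [← Finset.prod_fiberwise s π]
  refine Finset.prod_congr rfl fun σ _ => ?_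
  rw [Finset.prod_congr rfl (g := fun _ => (b σ : F)), Finset.prod_const]
  · rfl
  · intro p hp
    rw [(Finset.mem_filter.mp hp).2]

lemma weight_of_mult {T : Finset G} {t : Finset I} (h : ∀ σ, mult π t σ = if σ ∈ T then 1 else 0) :
    WeightW F (π := π) T (mB F t) := by
  intro b
  rw [map_weight]
  congr 1
  rw [← Finset.prod_filter_mul_prod_filter_not Finset.univ (fun σ => σ ∈ T)]
  rw [Finset.prod_congr rfl (g := fun σ => (b σ : F)), Finset.prod_eq_one (s := Finset.univ.filter
    fun σ => σ ∉ T)]
  · rw [mul_one]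
    congr 1
    ext σ; simp
  · intro σ hσ
    rw [h σ, if_neg (Finset.mem_filter.mp hσ).2, pow_zero]
  · intro σ hσ
    rw [h σ, if_pos (Finset.mem_filter.mp hσ).2, pow_one]

end

end Pool.Agent.Lib.MP_938ce2_ag_h85
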