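import Mathlib
import Pool.Agent.Lib.MP_938ce2_ag_h85.TateWeil
import Pool.Agent.Lib.MP_938ce2_ag_h85.Fourier

/-!
Criteria for generation of the Tate classes, in terms of the character sums of the CM type.
-/

set_option autoImplicit false
set_option linter.unusedSectionVars false

namespace Pool.Agent.Lib.MP_938ce2_ag_h85

open Module

section

variable {G : Type} [AddCommGroup G] [Fintype G] [DecidableEq G] {ι : G} {Φ : Finset G}
variable {F : Type} [Field F] {I : Type} [LinearOrder I] [Fintype I] {π : I → G}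

/-- the asymmetry of a monomial -/
def asym (π : I → G) (ι : G) (s : Finset I) (σ : G) : ℂ := (mult π s σ : ℂ) - mult π s (σ + ι)

lemma asym_odd (hι2 : ι + ι = 0) (s : Finset I) (σ : G) :
    asym π ι s (σ + ι) = - asym π ι s σ := by
  unfold asym
  rw [add_assoc, hι2, add_zero]; ring

lemma asym_ann [CharZero F] {j : ℕ} {x : ExteriorAlgebra F (I → F)}
    (hx : TateW F π Φ j x) {s : Finset I} (hs : (mB F).repr x s ≠ 0) (τ : G) :
    ∑ φ ∈ Φ, asym π ι s (τ + φ) = 0 := by
  unfold asym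
  rw [Finset.sum_sub_distrib]
  have h1 := hx.coord hs τ
  have h2 := hx.coord hs (τ + ι)
  have h3 : ∑ φ ∈ Φ, (mult π s (τ + φ) : ℂ) = j := by exact_mod_cast h1
  have h4 : ∑ φ ∈ Φ, (mult π s (τ + φ + ι) : ℂ) = j := by
    have : ∑ φ ∈ Φ, mult π s (τ + φ + ι) = j := by
      rw [← h2]
      exact Finset.sum_congr rfl fun φ _ => by congr 1; abel
    exact_mod_cast this
  rw [h3, h4, sub_self]

theorem adjoin_one_of_nonvanishing [CharZero F] (hι : ι ≠ 0) (hι2 : ι + ι = 0)
    (hΦ : IsCMType ι Φ) (hgood : ∀ χ : AddChar G ℂ, χ ι = -1 → ∑ φ ∈ Φ, χ φ ≠ 0)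
    {j : ℕ} {x : ExteriorAlgebra F (I → F)} (hx : TateW F π Φ j x) :
    x ∈ Algebra.adjoin F {y | TateW F π Φ 1 y} := by
  refine mem_adjoin_of_coord fun s hs => ?_
  refine mem_adjoin_of_symm hι hι2 hΦ _ s rfl fun σ => ?_
  have h1 := eq_zero_of_annihilated hι2 (asym_odd hι2 s) (asym_ann hx hs) hgood σ
  unfold asym at h1
  have h2 : (mult π s σ : ℂ) = mult π s (σ + ι) := by linear_combination h1
  exact_mod_cast h2

theorem adjoin_weil_of_nonvanishing [CharZero F] (hι : ι ≠ 0) (hι2 : ι + ι = 0)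
    (hΦ : IsCMType ι Φ) {χ0 : AddChar G ℂ} (hχ1 : χ0 ι = -1) (hχ0 : ∀ σ, χ0 σ = 1 ∨ χ0 σ = -1)
    (hgood : ∀ χ : AddChar G ℂ, χ ι = -1 → χ ≠ χ0 → ∑ φ ∈ Φ, χ φ ≠ 0)
    (W : ExteriorAlgebra F (I → F) → Prop)
    (hW : ∑ φ ∈ Φ, χ0 φ = 0 → ∀ T : Finset G, (T = Finset.univ.filter (fun σ => χ0 σ = 1) ∨
      T = Finset.univ.filter (fun σ => χ0 σ = -1)) → ∀ t : Finset I,
      (∀ σ, mult π t σ = if σ ∈ T then 1 else 0) → W (mB F t))
    {j : ℕ} {x : ExteriorAlgebra F (I → F)} (hx : TateW F π Φ j x) :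
    x ∈ Algebra.adjoin F {y | TateW F π Φ 1 y ∨ W y} := by
  classical
  refine mem_adjoin_of_coord fun s hs => ?_
  have hann := asym_ann (ι := ι) hx hs
  have h1 := eq_char_of_annihilated hι2 (asym_odd hι2 s) hann hχ0 hgood
  have hshift : ∀ σ, χ0 (σ + ι) = - χ0 σ := by
    intro σ
    rw [AddChar.map_add_eq_mul, hχ1]; ring
  by_cases h0 : asym π ι s 0 = 0
  · refine Algebra.adjoin_mono (fun y hy => Or.inl hy)
      (mem_adjoin_of_symm hι hι2 hΦ _ s rfl fun σ => ?_)
    have h2 := h1 σ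
    rw [h0, zero_mul] at h2
    unfold asym at h2
    have h3 : (mult π s σ : ℂ) = mult π s (σ + ι) := by linear_combination h2
    exact_mod_cast h3
  · have hz : ∑ φ ∈ Φ, χ0 φ = 0 := by
      have h2 := hann 0
      rw [Finset.sum_congr rfl fun φ _ => h1 (0 + φ), ← Finset.mul_sum] at h2
      rcases mul_eq_zero.mp h2 with h3 | h3
      · exact absurd h3 h0
      · simpa using h3
    have key : ∀ (e : ℂ) (c : ℕ), (e = 1 ∨ e = -1) → asym π ι s 0 = e * c →
        mB F s ∈ Algebra.adjoin F {y | TateW F π Φ 1 y ∨ W y} := by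
      intro e c he hc
      have hTcm : IsCMType ι (Finset.univ.filter (fun σ => χ0 σ = e)) := by
        intro σ
        rw [Finset.mem_filter, Finset.mem_filter, hshift]
        rcases hχ0 σ with h2 | h2 <;> rcases he with h3 | h3 <;> rw [h2, h3] <;> norm_num
      refine mem_adjoin_of_type hι hι2 hΦ hTcm W (hW hz _ ?_) c s fun σ hσ => ?_
      · rcases he with rfl | rfl
        · exact Or.inl rfl
        · exact Or.inr rfl
      · rw [Finset.mem_filter] at hσ
        have h2 := h1 σ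
        rw [hc, hσ.2] at h2
        have he2 : e * e = 1 := by rcases he with rfl | rfl <;> norm_num
        unfold asym at h2
        have h3 : (mult π s σ : ℂ) = mult π s (σ + ι) + c := by linear_combination h2 + c * he2
        exact_mod_cast h3
    have h2 : ∃ m : ℤ, asym π ι s 0 = m := ⟨(mult π s 0 : ℤ) - mult π s (0 + ι), by
      unfold asym; push_cast; rfl⟩
    obtain ⟨m, hm⟩ := h2
    rcases le_total 0 m with h3 | h3
    · refine key 1 m.toNat (Or.inl rfl) ?_
      have h4 : ((m.toNat : ℤ) : ℂ) = (m : ℂ) := by rw [Int.toNat_of_nonneg h3]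
      rw [hm, ← h4]
      push_cast
      ring
    · refine key (-1) (-m).toNat (Or.inr rfl) ?_
      have h4 : (((-m).toNat : ℤ) : ℂ) = ((-m : ℤ) : ℂ) := by rw [Int.toNat_of_nonneg (by omega)]
      push_cast at h4
      rw [hm, h4]
      ring

end

section

variable {G : Type} [AddCommGroup G] [Fintype G] {ι : G} {Φ : Finset G}

/-- nonvanishing of the odd character sums implies that the Tate classes are generated by divisors -/
theorem divisorGenerated_of_nonvanishing (hι : ι ≠ 0) (hι2 : ι + ι = 0) (hΦ : IsCMType ι Φ)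
    (hgood : ∀ χ : AddChar G ℂ, χ ι = -1 → ∑ φ ∈ Φ, χ φ ≠ 0) : DivisorGenerated Φ := by
  classical
  intro F _ _ n j x hx
  let _ : LinearOrder (Fin n × G) :=
    LinearOrder.lift' (Fintype.equivFin (Fin n × G)) (Equiv.injective _)
  exact adjoin_one_of_nonvanishing (F := F) (π := (Prod.snd : Fin n × G → G)) hι hι2 hΦ hgood hx

/-- the kernel of a character -/
def kerChar (χ : AddChar G ℂ) : AddSubgroup G where
  carrier := {σ | χ σ = 1}
  zero_mem' := AddChar.map_zero_eq_one χ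
  add_mem' := by
    intro a b ha hb
    simp only [Set.mem_ofPred_eq] at *
    rw [AddChar.map_add_eq_mul, ha, hb, one_mul]
  neg_mem' := by
    intro a ha
    simp only [Set.mem_ofPred_eq] at *
    rw [AddChar.map_neg_eq_inv, ha, inv_one]

lemma mem_kerChar {χ : AddChar G ℂ} {σ : G} : σ ∈ kerChar χ ↔ χ σ = 1 := Iff.rfl

lemma kerChar_index {χ0 : AddChar G ℂ} (hχ1 : χ0 ι = -1) (hχ0 : ∀ σ, χ0 σ = 1 ∨ χ0 σ = -1) :
    (kerChar χ0).index = 2 := by
  rw [AddSubgroup.index_eq_two_iff]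
  refine ⟨ι, fun b => ?_⟩
  rw [mem_kerChar, mem_kerChar, AddChar.map_add_eq_mul, hχ1]
  rcases hχ0 b with h | h <;> rw [h] <;> norm_num

/-- balancedness: if the character sum vanishes, then every translate of a level set of `χ0` meets
`Φ` in half of its elements -/
lemma half_of_vanishing [DecidableEq G] {χ0 : AddChar G ℂ} (hχ0 : ∀ σ, χ0 σ = 1 ∨ χ0 σ = -1)
    (hz : ∑ φ ∈ Φ, χ0 φ = 0) {T : Finset G} {e : ℂ} (he : e = 1 ∨ e = -1)
    (hT : T = Finset.univ.filter (fun σ => χ0 σ = e)) (τ : G) :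
    2 * ∑ φ ∈ Φ, (if τ + φ ∈ T then 1 else 0) = Φ.card := by
  classical
  have h1 : ∀ σ, (if σ ∈ T then (1 : ℂ) else 0) = (1 + e * χ0 σ) / 2 := by
    intro σ
    rw [hT]
    simp only [Finset.mem_filter, Finset.mem_univ, true_and]
    rcases hχ0 σ with h | h <;> rcases he with h' | h' <;> rw [h, h'] <;> norm_num
  have h2 : (2 : ℂ) * ∑ φ ∈ Φ, (if τ + φ ∈ T then (1 : ℂ) else 0) = Φ.card := by
    rw [Finset.sum_congr rfl fun φ _ => h1 (τ + φ), ← Finset.sum_div, Finset.sum_add_distrib]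
    have h3 : ∑ φ ∈ Φ, e * χ0 (τ + φ) = 0 := by
      rw [← Finset.mul_sum, Finset.sum_congr rfl fun φ _ => AddChar.map_add_eq_mul χ0 τ φ,
        ← Finset.mul_sum, hz, mul_zero, mul_zero]
    rw [h3]
    simp
    ring
  exact_mod_cast h2

lemma card_type (hΦ : IsCMType ι Φ) : 2 * Φ.card = Fintype.card G := by
  classical
  have h := sum_type hΦ (fun _ => (1 : ℕ))
  simp at h
  rw [two_mul]
  simpa using h

/-- nonvanishing of all but one of the odd character sums, the exceptional character being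
quadratic -/
theorem weilGenerated_of_nonvanishing (hι : ι ≠ 0) (hι2 : ι + ι = 0) (hΦ : IsCMType ι Φ)
    {χ0 : AddChar G ℂ} (hχ1 : χ0 ι = -1) (hχ0 : ∀ σ, χ0 σ = 1 ∨ χ0 σ = -1)
    (hgood : ∀ χ : AddChar G ℂ, χ ι = -1 → χ ≠ χ0 → ∑ φ ∈ Φ, χ φ ≠ 0) : WeilGenerated ι Φ := by
  classical
  intro F _ _ n j x hx
  let _ : LinearOrder (Fin n × G) :=
    LinearOrder.lift' (Fintype.equivFin (Fin n × G)) (Equiv.injective _)
  refine adjoin_weil_of_nonvanishing (F := F) (π := (Prod.snd : Fin n × G → G)) hι hι2 hΦ hχ1 hχ0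
    hgood (fun y => (∃ i, IsTate F Φ n i y) ∧ IsWeil F ι n y) ?_ hx
  intro hz T hT t ht
  have hT' : ∃ e : ℂ, (e = 1 ∨ e = -1) ∧ T = Finset.univ.filter (fun σ => χ0 σ = e) := by
    rcases hT with h | h
    · exact ⟨1, Or.inl rfl, h⟩
    · exact ⟨-1, Or.inr rfl, h⟩
  obtain ⟨e, he, hTe⟩ := hT'
  have hTcm : IsCMType ι T := by
    intro σ
    rw [hTe, Finset.mem_filter, Finset.mem_filter, AddChar.map_add_eq_mul, hχ1]
    rcases hχ0 σ with h2 | h2 <;> rcases he with h3 | h3 <;> rw [h2, h3] <;> norm_num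
  have hhalf := half_of_vanishing hχ0 hz he hTe
  have hcT := card_type hTcm
  have hcΦ := card_type hΦ
  have hct : t.card = T.card := by
    have h1 := sum_mult (π := (Prod.snd : Fin n × G → G)) t Finset.univ
    simp only [Finset.mem_univ, Finset.filter_true] at h1
    rw [← h1, Finset.sum_congr rfl fun σ _ => ht σ]
    simp
  refine ⟨⟨∑ φ ∈ Φ, (if (0 : G) + φ ∈ T then 1 else 0), ?_⟩, ?_⟩
  · have h0 := hhalf 0
    refine tateW_mB (F := F) (π := (Prod.snd : Fin n × G → G)) (by omega) fun τ => ?_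
    rw [Finset.sum_congr rfl fun φ _ => ht (τ + φ)]
    have h1 := hhalf τ
    omega
  · refine ⟨kerChar χ0, kerChar_index hχ1 hχ0, ?_, if e = 1 then 0 else ι, ?_⟩
    · rw [mem_kerChar, hχ1]; norm_num
    · intro b
      have h1 := weight_of_mult (F := F) (π := (Prod.snd : Fin n × G → G)) ht b
      have h2 : ((cosetNorm F (kerChar χ0) (if e = 1 then 0 else ι) b : Fˣ) : F)
          = ∏ σ ∈ T, (b σ : F) := by
        unfold cosetNorm
        rw [Units.coe_prod]
        refine Finset.prod_congr ?_ fun _ _ => rfl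
        rw [hTe]
        ext σ
        simp only [Finset.mem_filter, Finset.mem_univ, true_and, mem_kerChar]
        rcases he with rfl | rfl
        · rw [if_pos rfl, sub_zero]
        · rw [if_neg (by norm_num), AddChar.map_sub_eq_div, hχ1]
          rcases hχ0 σ with h2 | h2 <;> rw [h2] <;> norm_num
      change _ = ((cosetNorm F (kerChar χ0) (if e = 1 then 0 else ι) b : Fˣ) : F) • _
      rw [h2]
      exact h1

end

end Pool.Agent.Lib.MP_938ce2_ag_h85
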