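import Mathlib

/-!
Lower bounds for Euler's function.
-/

set_option autoImplicit false

namespace Pool.Agent.Lib.MP_938ce2_ag_h85

lemma totient_sq_aux (n : ℕ) : (n % 2 = 1 → n ≤ (Nat.totient n) ^ 2) ∧ n ≤ 2 * (Nat.totient n) ^ 2 := by
  induction n using Nat.recOnPosPrimePosCoprime with
  | zero => simp
  | one => simp
  | prime_pow p n hp hn =>
    obtain ⟨e, rfl⟩ : ∃ e, n = e + 1 := ⟨n - 1, by omega⟩
    rw [Nat.totient_prime_pow_succ hp]
    have hp1 : 1 ≤ p ^ e := Nat.one_le_pow _ _ hp.pos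
    have hsq : (p ^ e * (p - 1)) ^ 2 = p ^ e * (p ^ e * (p - 1) ^ 2) := by ring
    rw [hsq]
    constructor
    · intro hodd
      have hp3 : 3 ≤ p := by
        rcases hp.eq_two_or_odd with h | h
        · exfalso
          rw [h] at hodd
          rw [pow_succ] at hodd
          omega
        · have := hp.two_le
          omega
      rw [pow_succ]
      refine Nat.mul_le_mul_left _ ?_
      obtain ⟨c, rfl⟩ : ∃ c, p = c + 3 := ⟨p - 3, by omega⟩
      have : c + 3 - 1 = c + 2 := by omega
      rw [this]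
      nlinarith
    · have h2 := hp.two_le
      obtain ⟨c, rfl⟩ : ∃ c, p = c + 2 := ⟨p - 2, by omega⟩
      have : c + 2 - 1 = c + 1 := by omega
      rw [this]
      calc (c + 2) ^ (e + 1) = (c + 2) ^ e * (c + 2) := pow_succ _ _
        _ ≤ (c + 2) ^ e * (2 * ((c + 2) ^ e * (c + 1) ^ 2)) := by
          refine Nat.mul_le_mul_left _ ?_
          have : (c + 1) ^ 2 ≤ (c + 2) ^ e * (c + 1) ^ 2 := Nat.le_mul_of_pos_left _ hp1
          nlinarith
        _ = _ := by ring
  | coprime a b ha hb hab iha ihb =>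
    rw [Nat.totient_mul hab]
    constructor
    · intro hodd
      have h1 : a % 2 = 1 ∧ b % 2 = 1 := by
        rcases Nat.mod_two_eq_zero_or_one a with h | h <;>
          rcases Nat.mod_two_eq_zero_or_one b with h' | h' <;>
          simp [Nat.mul_mod, h, h'] at hodd ⊢
      rw [mul_pow]
      exact Nat.mul_le_mul (iha.1 h1.1) (ihb.1 h1.2)
    · rw [mul_pow]
      have h1 : a % 2 = 1 ∨ b % 2 = 1 := by
        by_contra hcon
        push Not at hcon
        have h2 : 2 ∣ a := Nat.dvd_of_mod_eq_zero (by omega)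
        have h3 : 2 ∣ b := Nat.dvd_of_mod_eq_zero (by omega)
        have := Nat.dvd_gcd h2 h3
        rw [hab] at this
        omega
      rcases h1 with h | h
      · calc a * b ≤ (Nat.totient a) ^ 2 * (2 * (Nat.totient b) ^ 2) :=
            Nat.mul_le_mul (iha.1 h) ihb.2
          _ = _ := by ring
      · calc a * b ≤ (2 * (Nat.totient a) ^ 2) * (Nat.totient b) ^ 2 :=
            Nat.mul_le_mul iha.2 (ihb.1 h)
          _ = _ := by ring

lemma le_two_mul_totient_sq (n : ℕ) : n ≤ 2 * (Nat.totient n) ^ 2 := (totient_sq_aux n).2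

/-- exponentials of Euler's function dominate powers -/
lemma exists_pow_le_totient (s : ℕ) : ∃ C : ℝ, 0 < C ∧ ∀ k : ℕ, (k : ℝ) ^ s ≤ C * 2 ^ (Nat.totient k) := by
  have h := tendsto_pow_const_div_const_pow_of_one_lt (2 * s) (r := (2 : ℝ)) (by norm_num)
  obtain ⟨B, hB⟩ := h.bddAbove_range
  refine ⟨2 ^ s * max B 1, by positivity, fun k => ?_⟩
  have h1 : ((Nat.totient k : ℕ) : ℝ) ^ (2 * s) ≤ max B 1 * 2 ^ (Nat.totient k) := by
    have h2 := hB ⟨Nat.totient k, rfl⟩
    simp only at h2
    rw [div_le_iff₀ (by positivity)] at h2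
    exact h2.trans (mul_le_mul_of_nonneg_right (le_max_left _ _) (by positivity))
  have h3 : (k : ℝ) ≤ 2 * (Nat.totient k : ℝ) ^ 2 := by exact_mod_cast le_two_mul_totient_sq k
  calc (k : ℝ) ^ s ≤ (2 * (Nat.totient k : ℝ) ^ 2) ^ s := pow_le_pow_left₀ (by positivity) h3 s
    _ = 2 ^ s * (Nat.totient k : ℝ) ^ (2 * s) := by rw [mul_pow, pow_mul]
    _ ≤ 2 ^ s * (max B 1 * 2 ^ (Nat.totient k)) := mul_le_mul_of_nonneg_left h1 (by positivity)
    _ = _ := by ring

/-- Euler's function at even arguments -/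
lemma totient_two_mul_le (j : ℕ) : Nat.totient (2 * j) ≤ j := by
  induction j using Nat.strong_induction_on with
  | _ j ih =>
    rcases Nat.mod_two_eq_zero_or_one j with h | h
    · rcases Nat.eq_zero_or_pos j with rfl | hj
      · simp
      · obtain ⟨i, rfl⟩ : ∃ i, j = 2 * i := ⟨j / 2, by omega⟩
        have h1 := ih i (by omega)
        rw [Nat.totient_mul_of_prime_of_dvd Nat.prime_two (Dvd.intro i rfl)]
        omega
    · have h1 : ¬ 2 ∣ j := by omega
      rw [Nat.totient_mul_of_prime_of_not_dvd Nat.prime_two h1]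
      simpa using Nat.totient_le j

end Pool.Agent.Lib.MP_938ce2_ag_h85
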