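import Mathlib

/-!
A counting lemma for families of sets.
-/

set_option autoImplicit false
set_option linter.unusedSectionVars false

namespace Pool.Agent.Lib.MP_938ce2_ag_h85

/-- middle binomial coefficient -/
def mid (m : ℕ) : ℕ := m.choose (m / 2)

lemma mid_even (n : ℕ) : mid (2 * n) = Nat.centralBinom n := by
  unfold mid Nat.centralBinom
  rw [Nat.mul_div_cancel_left n (by norm_num)]

lemma central_upper (n : ℕ) : (Nat.centralBinom n) ^ 2 * (2 * n + 1) ≤ 4 ^ (2 * n) := by
  induction n with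
  | zero => simp
  | succ n ih =>
    have h := Nat.succ_mul_centralBinom_succ n
    have h1 : (n + 1) ^ 2 * (Nat.centralBinom (n + 1)) ^ 2 = 4 * (2 * n + 1) ^ 2 * (Nat.centralBinom n) ^ 2 := by
      rw [← mul_pow, h]; ring
    have h2 : (n + 1) ^ 2 * ((Nat.centralBinom (n + 1)) ^ 2 * (2 * (n + 1) + 1))
        ≤ (n + 1) ^ 2 * 4 ^ (2 * (n + 1)) := by
      calc (n + 1) ^ 2 * ((Nat.centralBinom (n + 1)) ^ 2 * (2 * (n + 1) + 1))
          = ((n + 1) ^ 2 * (Nat.centralBinom (n + 1)) ^ 2) * (2 * n + 3) := by ring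
        _ = 4 * ((2 * n + 1) * (2 * n + 3)) * ((Nat.centralBinom n) ^ 2 * (2 * n + 1)) := by
          rw [h1]; ring
        _ ≤ 4 * (4 * (n + 1) ^ 2) * 4 ^ (2 * n) := by
          refine Nat.mul_le_mul (Nat.mul_le_mul_left _ ?_) ih
          nlinarith
        _ = (n + 1) ^ 2 * 4 ^ (2 * (n + 1)) := by ring
    exact Nat.le_of_mul_le_mul_left h2 (by positivity)

lemma central_lower {n : ℕ} (hn : 1 ≤ n) : 4 ^ (2 * n) ≤ (Nat.centralBinom n) ^ 2 * (4 * n) := by
  induction n, hn using Nat.le_induction with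
  | base => decide
  | succ n hn ih =>
    have h := Nat.succ_mul_centralBinom_succ n
    have h1 : (n + 1) ^ 2 * (Nat.centralBinom (n + 1)) ^ 2 = 4 * (2 * n + 1) ^ 2 * (Nat.centralBinom n) ^ 2 := by
      rw [← mul_pow, h]; ring
    have h2 : (n * (n + 1)) * 4 ^ (2 * (n + 1)) ≤
        (n * (n + 1)) * ((Nat.centralBinom (n + 1)) ^ 2 * (4 * (n + 1))) := by
      calc (n * (n + 1)) * 4 ^ (2 * (n + 1)) = 16 * (n * (n + 1)) * 4 ^ (2 * n) := by ring
        _ ≤ 16 * (n * (n + 1)) * ((Nat.centralBinom n) ^ 2 * (4 * n)) := Nat.mul_le_mul_left _ ih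
        _ = (4 * (n * (n + 1))) * (16 * n * (Nat.centralBinom n) ^ 2) := by ring
        _ ≤ ((2 * n + 1) ^ 2) * (16 * n * (Nat.centralBinom n) ^ 2) := by
          refine Nat.mul_le_mul_right _ ?_
          nlinarith
        _ = 4 * n * (4 * (2 * n + 1) ^ 2 * (Nat.centralBinom n) ^ 2) := by ring
        _ = _ := by rw [← h1]; ring
    exact Nat.le_of_mul_le_mul_left h2 (by positivity)

lemma mid_odd (n : ℕ) : 2 * mid (2 * n + 1) = Nat.centralBinom (n + 1) := by
  unfold mid Nat.centralBinom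
  have h1 : (2 * n + 1) / 2 = n := by omega
  rw [h1]
  have h2 : 2 * (n + 1) = (2 * n + 1) + 1 := by ring
  rw [h2, Nat.choose_succ_succ, two_mul]
  congr 1
  exact (Nat.choose_symm_half n).symm

lemma mid_upper (m : ℕ) : (mid m) ^ 2 * (m + 1) ≤ 4 ^ m := by
  obtain ⟨n, rfl | rfl⟩ := Nat.even_or_odd' m
  · rw [mid_even]; exact central_upper n
  · have h := mid_odd n
    have h1 := central_upper (n + 1)
    rw [← h] at h1
    have h2 : 4 * ((mid (2 * n + 1)) ^ 2 * (2 * n + 1 + 1)) ≤ 4 * 4 ^ (2 * n + 1) := by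
      calc 4 * ((mid (2 * n + 1)) ^ 2 * (2 * n + 1 + 1))
          ≤ (2 * mid (2 * n + 1)) ^ 2 * (2 * (n + 1) + 1) := by
            rw [mul_pow]
            nlinarith [Nat.zero_le ((mid (2 * n + 1)) ^ 2)]
        _ ≤ 4 ^ (2 * (n + 1)) := h1
        _ = _ := by ring
    omega

lemma mid_half {m : ℕ} (hm : 1 ≤ m) : 2 * mid m ≤ 2 ^ m := by
  have h := mid_upper m
  rcases Nat.lt_or_ge m 3 with h3 | h3
  · interval_cases m <;> decide
  · have h1 : (2 * mid m) ^ 2 ≤ (2 ^ m) ^ 2 := by
      calc (2 * mid m) ^ 2 = (mid m) ^ 2 * 4 := by ring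
        _ ≤ (mid m) ^ 2 * (m + 1) := Nat.mul_le_mul_left _ (by omega)
        _ ≤ 4 ^ m := h
        _ = (2 ^ m) ^ 2 := by rw [← pow_mul, mul_comm m 2, pow_mul]; norm_num
    exact (Nat.pow_le_pow_iff_left two_ne_zero).mp h1

section

variable {X J : Type} [DecidableEq X] [Fintype J]

/-- families of sets with prescribed intersection cardinalities -/
lemma card_family_le {Z : Finset (Finset X)} (B : Finset X) (A : J → Finset X) (m : ℕ)
    (hA : ∀ i, (A i).card = m)
    (hdet : ∀ S ∈ Z, ∀ S' ∈ Z, S ∩ B = S' ∩ B → (∀ i, S ∩ A i = S' ∩ A i) → S = S')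
    (hcard : ∀ S ∈ Z, ∀ S' ∈ Z, S ∩ B = S' ∩ B → ∀ i, (S ∩ A i).card = (S' ∩ A i).card) :
    Z.card ≤ (mid m) ^ Fintype.card J * 2 ^ B.card := by
  classical
  have h1 : Z.card ≤ (mid m) ^ Fintype.card J * (Z.image fun S => S ∩ B).card := by
    refine Finset.card_le_mul_card_image Z _ fun T hT => ?_
    obtain ⟨S0, hS0, rfl⟩ := Finset.mem_image.mp hT
    calc (Z.filter fun S => S ∩ B = S0 ∩ B).card
        ≤ (Fintype.piFinset fun i => (A i).powersetCard (S0 ∩ A i).card).card := by
          refine Finset.card_le_card_of_injOn (fun S i => S ∩ A i) ?_ ?_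
          · intro S hS
            rw [Finset.mem_coe, Finset.mem_filter] at hS
            rw [Finset.mem_coe, Fintype.mem_piFinset]
            intro i
            rw [Finset.mem_powersetCard]
            exact ⟨Finset.inter_subset_right, hcard S hS.1 S0 hS0 hS.2 i⟩
          · intro S hS S' hS' h
            rw [Finset.mem_coe, Finset.mem_filter] at hS hS'
            exact hdet S hS.1 S' hS'.1 (hS.2.trans hS'.2.symm) fun i => congrFun h i
      _ ≤ (mid m) ^ Fintype.card J := by
          rw [Fintype.card_piFinset, ← Finset.card_univ, ← Finset.prod_const]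
          refine Finset.prod_le_prod' fun i _ => ?_
          rw [Finset.card_powersetCard, hA]
          exact Nat.choose_le_middle _ _
  refine h1.trans (Nat.mul_le_mul_left _ ?_)
  rw [← Finset.card_powerset]
  refine Finset.card_le_card fun T hT => ?_
  obtain ⟨S0, hS0, rfl⟩ := Finset.mem_image.mp hT
  exact Finset.mem_powerset.mpr Finset.inter_subset_right

end

end Pool.Agent.Lib.MP_938ce2_ag_h85
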