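import Mathlib
import Pool.Agent.Lib.MP_938ce2_ag_h85.Count
import Pool.Agent.Lib.MP_938ce2_ag_h85.Totient
import Pool.Agent.Lib.MP_938ce2_ag_h85.Crit

/-!
Counting CM types with a vanishing character sum.
-/

set_option autoImplicit false
set_option linter.unusedSectionVars false

namespace Pool.Agent.Lib.MP_938ce2_ag_h85

section

variable {G : Type} [AddCommGroup G] [Fintype G]

/-- order and generator of the image of a character -/
lemma char_data (χ : AddChar G ℂ) :
    ∃ k : ℕ, 0 < k ∧ (∃ x0, IsPrimitiveRoot (χ x0) k) ∧ ∀ x, χ x ^ k = 1 := by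
  classical
  let f : Multiplicative G →* ℂˣ := χ.toMonoidHom.toHomUnits
  have hf : ∀ x : Multiplicative G, ((f x : ℂˣ) : ℂ) = χ (Multiplicative.toAdd x) := fun x => rfl
  have hfin : Finite (f.range) := by
    have : Finite (Set.range f) := Set.finite_range f
    exact this
  obtain ⟨⟨u, x0, rfl⟩, hu⟩ := IsCyclic.exists_generator (α := f.range)
  refine ⟨orderOf (f x0), ?_, ⟨Multiplicative.toAdd x0, ?_⟩, fun x => ?_⟩
  · have h1 : IsOfFinOrder (⟨f x0, ⟨x0, rfl⟩⟩ : f.range) := isOfFinOrder_of_finite _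
    have h2 := h1.orderOf_pos
    rwa [← Subgroup.orderOf_coe] at h2
  · rw [← hf]
    exact (IsPrimitiveRoot.orderOf (f x0)).map_of_injective (f := Units.coeHom ℂ) Units.val_injective
  · have h1 := hu ⟨f (Multiplicative.ofAdd x), ⟨_, rfl⟩⟩
    obtain ⟨n, hn⟩ := Subgroup.mem_zpowers_iff.mp h1
    have h2 : (f x0) ^ n = f (Multiplicative.ofAdd x) := by
      have := congrArg Subtype.val hn
      simpa using this
    have h3 : f (Multiplicative.ofAdd x) ^ orderOf (f x0) = 1 := by
      rw [← h2, ← zpow_natCast, ← zpow_mul, mul_comm, zpow_mul, zpow_natCast, pow_orderOf_eq_one, one_zpow]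
    have h4 := congrArg (Units.val) h3
    rw [Units.val_pow_eq_pow_val, hf] at h4
    simpa using h4

/-- the order of the image of a character -/
noncomputable def cord (χ : AddChar G ℂ) : ℕ := (char_data χ).choose

lemma cord_pos (χ : AddChar G ℂ) : 0 < cord χ := (char_data χ).choose_spec.1
lemma cord_gen (χ : AddChar G ℂ) : ∃ x0, IsPrimitiveRoot (χ x0) (cord χ) :=
  (char_data χ).choose_spec.2.1
lemma cord_pow (χ : AddChar G ℂ) (x : G) : χ x ^ cord χ = 1 := (char_data χ).choose_spec.2.2 x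

variable [DecidableEq G]

open Classical in
/-- the fibres of a character -/
noncomputable def fib (χ : AddChar G ℂ) (z : ℂ) : Finset G := Finset.univ.filter fun x => χ x = z

lemma mem_fib {χ : AddChar G ℂ} {z : ℂ} {x : G} : x ∈ fib χ z ↔ χ x = z := by
  simp [fib]

lemma char_ne_zero (χ : AddChar G ℂ) (x : G) : χ x ≠ 0 := by
  intro h
  have h1 : χ x * χ (-x) = 1 := by
    rw [← AddChar.map_add_eq_mul, add_neg_cancel, AddChar.map_zero_eq_one]
  rw [h, zero_mul] at h1
  exact zero_ne_one h1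

lemma fib_card (χ : AddChar G ℂ) (x0 : G) : (fib χ (χ x0)).card = (fib χ 1).card := by
  refine Finset.card_bij (fun x _ => x - x0) ?_ ?_ ?_
  · intro x hx
    rw [mem_fib] at *
    rw [AddChar.map_sub_eq_div, hx, div_self]
    exact char_ne_zero χ x0
  · intro x _ y _ h
    exact sub_left_injective h
  · intro y hy
    refine ⟨y + x0, ?_, by simp⟩
    rw [mem_fib] at *
    rw [AddChar.map_add_eq_mul, hy, one_mul]

lemma fib_pow_card {χ : AddChar G ℂ} {x0 : G} (i : ℕ) :
    (fib χ (χ x0 ^ i)).card = (fib χ 1).card := by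
  have : χ x0 ^ i = χ (i • x0) := (AddChar.map_nsmul_eq_pow χ i x0).symm
  rw [this]
  exact fib_card χ _

lemma fib_total {χ : AddChar G ℂ} {x0 : G} {k : ℕ} (hk : 0 < k) (hx0 : IsPrimitiveRoot (χ x0) k)
    (hpow : ∀ x, χ x ^ k = 1) : k * (fib χ 1).card = Fintype.card G := by
  have : NeZero k := ⟨hk.ne'⟩
  have h1 : Fintype.card G = ∑ i ∈ Finset.range k, (fib χ (χ x0 ^ i)).card := by
    rw [← Finset.card_univ, ← Finset.card_biUnion]
    · congr 1
      ext x
      simp only [Finset.mem_univ, Finset.mem_biUnion, Finset.mem_range, true_iff]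
      obtain ⟨i, hi, h⟩ := hx0.eq_pow_of_pow_eq_one (hpow x)
      exact ⟨i, hi, mem_fib.mpr h.symm⟩
    · intro i hi j hj hij
      rw [Function.onFun, Finset.disjoint_left]
      intro x hx hy
      rw [mem_fib] at hx hy
      exact hij (hx0.pow_inj (Finset.mem_range.mp hi) (Finset.mem_range.mp hj) (hx.symm.trans hy))
  rw [h1, Finset.sum_congr rfl fun i _ => fib_pow_card i]
  simp

/-- linear independence of small powers of a primitive root -/
lemma pow_indep {ζ : ℂ} {k : ℕ} (hk : 0 < k) (hζ : IsPrimitiveRoot ζ k) (c : ℕ → ℤ)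
    (h : ∑ i ∈ Finset.range (Nat.totient k), (c i : ℂ) * ζ ^ i = 0) :
    ∀ i < Nat.totient k, c i = 0 := by
  set p : Polynomial ℚ := ∑ i ∈ Finset.range (Nat.totient k), Polynomial.monomial i (c i : ℚ) with hp
  have h1 : Polynomial.aeval ζ p = 0 := by
    rw [hp, map_sum]
    rw [← h]
    refine Finset.sum_congr rfl fun i _ => ?_
    rw [Polynomial.aeval_monomial]
    simp
  have h2 : p = 0 := by
    by_contra hne
    have h3 : Polynomial.cyclotomic k ℚ ∣ p := by
      rw [Polynomial.cyclotomic_eq_minpoly_rat hζ hk]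
      exact minpoly.dvd ℚ ζ h1
    have h4 := Polynomial.degree_le_of_dvd h3 hne
    rw [Polynomial.degree_cyclotomic] at h4
    have h5 : p.degree < (Nat.totient k : ℕ) := by
      rw [hp]
      refine (Polynomial.degree_sum_le _ _).trans_lt ?_
      rw [Finset.sup_lt_iff]
      · intro i hi
        refine (Polynomial.degree_monomial_le _ _).trans_lt ?_
        exact_mod_cast Finset.mem_range.mp hi
      · exact WithBot.bot_lt_coe _
    exact absurd h4 (not_le.mpr h5)
  intro i hi
  have h6 := congrArg (fun q => Polynomial.coeff q i) h2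
  simp only [hp, Polynomial.finsetSum_coeff, Polynomial.coeff_monomial, Polynomial.coeff_zero] at h6
  rw [Finset.sum_ite_eq' (Finset.range (Nat.totient k)) i (fun j => (c j : ℚ)),
    if_pos (Finset.mem_range.mpr hi)] at h6
  exact_mod_cast h6

/-- difference of the indicator functions of two sets -/
def dif (S S' : Finset G) (x : G) : ℤ := (if x ∈ S then 1 else 0) - (if x ∈ S' then 1 else 0)

lemma dif_shift {ι : G} {S S' : Finset G} (hS : IsCMType ι S) (hS' : IsCMType ι S') (x : G) :
    dif S S' (x + ι) = - dif S S' x := by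
  unfold dif
  have h1 := hS x
  have h2 := hS' x
  by_cases a : x ∈ S <;> by_cases b : x ∈ S' <;> by_cases c : x + ι ∈ S <;>
    by_cases d : x + ι ∈ S' <;> simp_all

lemma sum_dif {S S' : Finset G} (A : Finset G) :
    ∑ x ∈ A, dif S S' x = ((S ∩ A).card : ℤ) - (S' ∩ A).card := by
  unfold dif
  rw [Finset.sum_sub_distrib]
  congr 1 <;>
  · rw [Finset.sum_ite_mem, Finset.inter_comm]
    simp

lemma sum_dif_char {ι : G} {S S' R : Finset G} (hS : IsCMType ι S) (hS' : IsCMType ι S')
    (hR : IsCMType ι R) {χ : AddChar G ℂ} (hχ : χ ι = -1) (h : ∑ φ ∈ S, χ φ = 0)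
    (h' : ∑ φ ∈ S', χ φ = 0) : ∑ x ∈ R, (dif S S' x : ℂ) * χ x = 0 := by
  have h1 : ∑ x, (dif S S' x : ℂ) * χ x = 0 := by
    have h2 : ∀ x, (dif S S' x : ℂ) * χ x = (if x ∈ S then χ x else 0) - (if x ∈ S' then χ x else 0) := by
      intro x
      unfold dif
      push_cast
      rw [sub_mul, ite_mul, ite_mul, one_mul, zero_mul]
    rw [Finset.sum_congr rfl fun x _ => h2 x, Finset.sum_sub_distrib, Finset.sum_ite_mem,
      Finset.sum_ite_mem, Finset.univ_inter, Finset.univ_inter, h, h', sub_zero]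
  have h2 := sum_type hR (fun x => (dif S S' x : ℂ) * χ x)
  rw [h1] at h2
  have h3 : ∑ σ ∈ R, (dif S S' (σ + ι) : ℂ) * χ (σ + ι) = ∑ σ ∈ R, (dif S S' σ : ℂ) * χ σ := by
    refine Finset.sum_congr rfl fun x _ => ?_
    rw [dif_shift hS hS', AddChar.map_add_eq_mul, hχ]
    push_cast
    ring
  rw [h3] at h2
  have h4 : (2 : ℂ) * ∑ σ ∈ R, (dif S S' σ : ℂ) * χ σ = 0 := by linear_combination h2
  simpa using h4

end

section

variable {G : Type} [AddCommGroup G] [Fintype G]

open Classical in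
/-- the set of CM types -/
noncomputable def cmTypes (ι : G) : Finset (Finset G) := Finset.univ.filter fun Φ => IsCMType ι Φ

lemma mem_cmTypes {ι : G} {Φ : Finset G} : Φ ∈ cmTypes ι ↔ IsCMType ι Φ := by simp [cmTypes]

open Classical in
/-- the set of CM types at which a character sum vanishes -/
noncomputable def van (ι : G) (χ : AddChar G ℂ) : Finset (Finset G) :=
  (cmTypes ι).filter fun Φ => ∑ φ ∈ Φ, χ φ = 0

lemma mem_van {ι : G} {χ : AddChar G ℂ} {Φ : Finset G} :
    Φ ∈ van ι χ ↔ IsCMType ι Φ ∧ ∑ φ ∈ Φ, χ φ = 0 := by simp [van, mem_cmTypes]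

/-- the order of an odd character is even -/
lemma odd_char_even {ι : G} {χ : AddChar G ℂ} (hχ : χ ι = -1) {k : ℕ} (hk : 0 < k)
    (hpow : ∀ x, χ x ^ k = 1) {x0 : G} (hx0 : IsPrimitiveRoot (χ x0) k) :
    ∃ q, k = 2 * q ∧ 0 < q ∧ χ x0 ^ q = -1 := by
  have h1 := hpow ι
  rw [hχ] at h1
  rcases Nat.even_or_odd k with he | ho
  · obtain ⟨q, hq⟩ := he
    refine ⟨q, by omega, by omega, ?_⟩
    have h2 : (χ x0 ^ q) * (χ x0 ^ q) = 1 := by
      rw [← pow_add, ← hq]; exact hx0.pow_eq_one
    rcases mul_self_eq_one_iff.mp h2 with h3 | h3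
    · exfalso
      have := hx0.dvd_of_pow_eq_one q h3
      have := Nat.le_of_dvd (by omega) this
      omega
    · exact h3
  · rw [Odd.neg_one_pow ho] at h1
    norm_num at h1

theorem card_van_le (ι : G) {χ : AddChar G ℂ} (hχ : χ ι = -1) {k q m : ℕ} (hkq : k = 2 * q)
    (hk : 0 < k) {x0 : G} (hx0 : IsPrimitiveRoot (χ x0) k) (hpow : ∀ x, χ x ^ k = 1)
    (hm : k * m = Fintype.card G) :
    (van ι χ).card ≤ mid m ^ (Nat.totient k) * 2 ^ ((q - Nat.totient k) * m) := by
  classical
  have hne : NeZero k := ⟨hk.ne'⟩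
  have hfm : (fib χ 1).card = m := by
    have := fib_total hk hx0 hpow
    rw [← hm] at this
    exact Nat.eq_of_mul_eq_mul_left hk this
  obtain ⟨q', hq', hq0, hζq⟩ := odd_char_even hχ hk hpow hx0
  have hqq : q' = q := by omega
  rw [hqq] at hq0 hζq
  set ζ := χ x0 with hζ
  have htq : Nat.totient k ≤ q := by rw [hkq]; exact totient_two_mul_le q
  set t := Nat.totient k with ht
  set A : Fin t → Finset G := fun i => fib χ (ζ ^ (i : ℕ)) with hA
  set B : Finset G := (Finset.Ico t q).biUnion fun i => fib χ (ζ ^ i) with hB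
  have hBcard : B.card ≤ (q - t) * m := by
    refine Finset.card_biUnion_le.trans ?_
    rw [Finset.sum_congr rfl fun i _ => (fib_pow_card (χ := χ) (x0 := x0) i).trans hfm]
    simp
  -- the half system
  set R : Finset G := (Finset.range q).biUnion fun i => fib χ (ζ ^ i) with hR
  have hRcm : IsCMType ι R := by
    intro x
    obtain ⟨i, hi, h⟩ := hx0.eq_pow_of_pow_eq_one (hpow x)
    have hmem : ∀ y j, j < k → χ y = ζ ^ j → (y ∈ R ↔ j < q) := by
      intro y j hj hy
      rw [hR, Finset.mem_biUnion]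
      constructor
      · rintro ⟨l, hl, hy'⟩
        rw [mem_fib, hy] at hy'
        rw [Finset.mem_range] at hl
        have := hx0.pow_inj hj (by omega) hy'
        omega
      · intro hj'
        exact ⟨j, Finset.mem_range.mpr hj', mem_fib.mpr hy⟩
    rw [hmem x i hi h.symm]
    by_cases hiq : i < q
    · have h1 : χ (x + ι) = ζ ^ (i + q) := by
        rw [AddChar.map_add_eq_mul, hχ, pow_add, hζq, ← h]
      rw [hmem (x + ι) (i + q) (by omega) h1]
      omega
    · have h1 : χ (x + ι) = ζ ^ (i - q) := by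
        have h2 : ζ ^ i = ζ ^ (i - q) * ζ ^ q := by rw [← pow_add]; congr 1; omega
        rw [AddChar.map_add_eq_mul, hχ, ← h, h2, hζq]; ring
      rw [hmem (x + ι) (i - q) (by omega) h1]
      omega
  have hdetR : ∀ S ∈ van ι χ, ∀ S' ∈ van ι χ, (∀ x ∈ R, (x ∈ S ↔ x ∈ S')) → S = S' := by
    intro S hS S' hS' h
    rw [mem_van] at hS hS'
    ext x
    by_cases hx : x ∈ R
    · exact h x hx
    · have h1 : x + ι ∈ R := by
        by_contra h2
        exact hx ((hRcm x).mpr h2)
      rw [hS.1 x, hS'.1 x, h _ h1]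
  have hmain := card_family_le (Z := van ι χ) B A m (fun i => (fib_pow_card (x0 := x0) _).trans hfm)
    ?_ ?_
  · refine hmain.trans ?_
    rw [Fintype.card_fin]
    exact Nat.mul_le_mul_left _ (Nat.pow_le_pow_right (by norm_num) hBcard)
  · intro S hS S' hS' hBB hAA
    refine hdetR S hS S' hS' fun x hx => ?_
    rw [hR, Finset.mem_biUnion] at hx
    obtain ⟨i, hi, hxi⟩ := hx
    rw [Finset.mem_range] at hi
    by_cases hit : i < t
    · have h1 := hAA ⟨i, hit⟩
      have h2 : x ∈ A ⟨i, hit⟩ := hxi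
      constructor
      · intro h3
        exact (Finset.mem_inter.mp (h1 ▸ Finset.mem_inter.mpr ⟨h3, h2⟩)).1
      · intro h3
        exact (Finset.mem_inter.mp (h1.symm ▸ Finset.mem_inter.mpr ⟨h3, h2⟩)).1
    · have h2 : x ∈ B := by
        rw [hB, Finset.mem_biUnion]
        exact ⟨i, Finset.mem_Ico.mpr ⟨by omega, hi⟩, hxi⟩
      constructor
      · intro h3
        exact (Finset.mem_inter.mp (hBB ▸ Finset.mem_inter.mpr ⟨h3, h2⟩)).1
      · intro h3
        exact (Finset.mem_inter.mp (hBB.symm ▸ Finset.mem_inter.mpr ⟨h3, h2⟩)).1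
  · intro S hS S' hS' hBB
    rw [mem_van] at hS hS'
    have h1 := sum_dif_char hS.1 hS'.1 hRcm hχ hS.2 hS'.2
    have h2 : ∑ x ∈ R, (dif S S' x : ℂ) * χ x
        = ∑ i ∈ Finset.range q, ((∑ x ∈ fib χ (ζ ^ i), dif S S' x : ℤ) : ℂ) * ζ ^ i := by
      rw [hR, Finset.sum_biUnion]
      · refine Finset.sum_congr rfl fun i _ => ?_
        push_cast
        rw [Finset.sum_mul]
        refine Finset.sum_congr rfl fun x hx => ?_
        rw [mem_fib.mp hx]
      · intro i hi j hj hij
        rw [Function.onFun, Finset.disjoint_left]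
        intro x hx hy
        rw [mem_fib] at hx hy
        rw [Finset.mem_coe, Finset.mem_range] at hi hj
        exact hij (hx0.pow_inj (by omega) (by omega) (hx.symm.trans hy))
    rw [h2, ← Finset.sum_range_add_sum_Ico _ htq] at h1
    have h3 : ∑ i ∈ Finset.Ico t q, ((∑ x ∈ fib χ (ζ ^ i), dif S S' x : ℤ) : ℂ) * ζ ^ i = 0 := by
      refine Finset.sum_eq_zero fun i hi => ?_
      have h4 : ∑ x ∈ fib χ (ζ ^ i), dif S S' x = 0 := by
        refine Finset.sum_eq_zero fun x hx => ?_
        have h5 : x ∈ B := by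
          rw [hB, Finset.mem_biUnion]
          exact ⟨i, hi, hx⟩
        unfold dif
        have h6 : x ∈ S ↔ x ∈ S' := by
          constructor
          · intro h3
            exact (Finset.mem_inter.mp (hBB ▸ Finset.mem_inter.mpr ⟨h3, h5⟩)).1
          · intro h3
            exact (Finset.mem_inter.mp (hBB.symm ▸ Finset.mem_inter.mpr ⟨h3, h5⟩)).1
        simp [h6]
      rw [h4]; simp
    rw [h3, add_zero] at h1
    have h4 := pow_indep hk hx0 (fun i => ∑ x ∈ fib χ (ζ ^ i), dif S S' x) h1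
    intro i
    have h5 := h4 i i.2
    rw [sum_dif] at h5
    have h6 : ((S ∩ A i).card : ℤ) = (S' ∩ A i).card := by
      simp only [hA]
      linarith
    exact_mod_cast h6

end

end Pool.Agent.Lib.MP_938ce2_ag_h85
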