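import Mathlib
import Pool.Agent.Lib.MP_938ce2_ag_h85.CharCount

/-!
Bounds for the number of CM types with vanishing character sums.
-/

set_option autoImplicit false
set_option linter.unusedSectionVars false

namespace Pool.Agent.Lib.MP_938ce2_ag_h85

section

variable {G : Type} [AddCommGroup G] [Fintype G]

lemma cord_eq_two_iff {ι : G} {χ : AddChar G ℂ} (hχ : χ ι = -1) :
    cord χ = 2 ↔ ∀ σ, χ σ = 1 ∨ χ σ = -1 := by
  constructor
  · intro h σ
    have h1 := cord_pow χ σ
    rw [h, sq] at h1
    exact mul_self_eq_one_iff.mp h1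
  · intro h
    obtain ⟨x0, hx0⟩ := cord_gen χ
    obtain ⟨q, hq, hq0, hx⟩ := odd_char_even hχ (cord_pos χ) (cord_pow χ) hx0
    have h2 : χ x0 ^ 2 = 1 := by
      rcases h x0 with h | h <;> rw [h] <;> norm_num
    have h3 := hx0.dvd_of_pow_eq_one 2 h2
    have h4 := Nat.le_of_dvd (by norm_num) h3
    omega

theorem card_van_quad {ι : G} {χ : AddChar G ℂ} (hχ : χ ι = -1) (h2 : cord χ = 2) {g : ℕ}
    (hg : Fintype.card G = 2 * g) : (van ι χ).card ≤ mid g := by
  obtain ⟨x0, hx0⟩ := cord_gen χ
  have h := card_van_le ι hχ (k := cord χ) (q := 1) (m := g) (by omega) (cord_pos χ) hx0 (cord_pow χ)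
    (by rw [h2, hg])
  rw [h2] at h
  simpa using h

theorem card_van_nonquad {ι : G} {χ : AddChar G ℂ} (hχ : χ ι = -1) (h2 : cord χ ≠ 2) {g : ℕ}
    (hg : Fintype.card G = 2 * g) :
    (van ι χ).card * g * 2 ^ (Nat.totient (cord χ)) ≤ 2 ^ g * (2 * cord χ) := by
  obtain ⟨x0, hx0⟩ := cord_gen χ
  obtain ⟨q, hq, hq0, hx⟩ := odd_char_even hχ (cord_pos χ) (cord_pow χ) hx0
  classical
  have htot := fib_total (cord_pos χ) hx0 (cord_pow χ)
  set m := (fib χ 1).card with hm
  have h := card_van_le ι hχ hq (cord_pos χ) hx0 (cord_pow χ) htot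
  set k := cord χ with hk
  have hqm : q * m = g := by
    have : 2 * (q * m) = 2 * g := by rw [← hg, ← htot, hq]; ring
    omega
  have hGpos : 0 < Fintype.card G := Fintype.card_pos
  have hgpos : 0 < g := by omega
  have hmpos : 1 ≤ m := by
    rcases Nat.eq_zero_or_pos m with h0 | h0
    · rw [h0, mul_zero] at hqm; omega
    · exact h0
  have hk4 : 2 < k := by
    rcases Nat.lt_or_ge 2 k with h0 | h0
    · exact h0
    · exfalso; apply h2; omega
  have ht2 : 2 ≤ Nat.totient k := by
    have h3 := Nat.totient_even hk4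
    have h4 := Nat.totient_pos.mpr (by omega : 0 < k)
    obtain ⟨c, hc⟩ := h3
    omega
  have htq : Nat.totient k ≤ q := by rw [hq]; exact totient_two_mul_le q
  obtain ⟨t, ht⟩ : ∃ t, Nat.totient k = t + 2 := ⟨Nat.totient k - 2, by omega⟩
  rw [ht] at h htq ⊢
  have hup := mid_upper m
  have hhalf := mid_half hmpos
  have h5 : (van ι χ).card * (m + 1) * 2 ^ t ≤ 2 ^ g := by
    calc (van ι χ).card * (m + 1) * 2 ^ t
        ≤ (mid m ^ (t + 2) * 2 ^ ((q - (t + 2)) * m)) * (m + 1) * 2 ^ t :=
          Nat.mul_le_mul_right _ (Nat.mul_le_mul_right _ h)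
      _ = (mid m ^ 2 * (m + 1)) * (2 * mid m) ^ t * 2 ^ ((q - (t + 2)) * m) := by
          rw [mul_pow]; ring
      _ ≤ 4 ^ m * (2 ^ m) ^ t * 2 ^ ((q - (t + 2)) * m) :=
          Nat.mul_le_mul_right _ (Nat.mul_le_mul hup (Nat.pow_le_pow_left hhalf t))
      _ = 2 ^ (2 * m + m * t + (q - (t + 2)) * m) := by
          have h4 : (4 : ℕ) ^ m = 2 ^ (2 * m) := by rw [pow_mul]; norm_num
          rw [h4, ← pow_mul, ← pow_add, ← pow_add]
      _ = 2 ^ g := by
          congr 1
          rw [← hqm]
          obtain ⟨d, hd⟩ : ∃ d, q = t + 2 + d := ⟨q - (t + 2), by omega⟩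
          rw [hd]
          have : t + 2 + d - (t + 2) = d := by omega
          rw [this]; ring
  calc (van ι χ).card * g * 2 ^ (t + 2)
      = (van ι χ).card * m * 2 ^ t * (4 * q) := by rw [← hqm]; ring
    _ ≤ (van ι χ).card * (m + 1) * 2 ^ t * (4 * q) := by
        refine Nat.mul_le_mul_right _ (Nat.mul_le_mul_right _ (Nat.mul_le_mul_left _ (by omega)))
    _ ≤ 2 ^ g * (4 * q) := Nat.mul_le_mul_right _ h5
    _ = 2 ^ g * (2 * k) := by rw [hq]; ring

theorem card_van_pair {ι : G} {χ₁ χ₂ : AddChar G ℂ} (h1 : χ₁ ι = -1)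
    (h2 : χ₂ ι = -1) (hq1 : ∀ σ, χ₁ σ = 1 ∨ χ₁ σ = -1) (hq2 : ∀ σ, χ₂ σ = 1 ∨ χ₂ σ = -1)
    (hne : χ₁ ≠ χ₂) {g : ℕ} (hg : Fintype.card G = 2 * g) [DecidableEq (Finset G)] :
    ((van ι χ₁) ∩ (van ι χ₂)).card * g ≤ 2 * 2 ^ g := by
  classical
  -- an element separating the two characters in the kernel of the first
  obtain ⟨y, hy1, hy2⟩ : ∃ y, χ₁ y = 1 ∧ χ₂ y = -1 := by
    by_contra hcon
    push Not at hcon
    apply hne
    ext x
    rcases hq1 x with h | h
    · rcases hq2 x with h' | h'
      · rw [h, h']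
      · exact absurd h' (hcon x h)
    · have h3 : χ₁ (x + ι) = 1 := by rw [AddChar.map_add_eq_mul, h, h1]; norm_num
      have h4 : χ₂ (x + ι) = 1 := by
        rcases hq2 (x + ι) with h' | h'
        · exact h'
        · exact absurd h' (hcon _ h3)
      rw [AddChar.map_add_eq_mul, h2] at h4
      rw [h]
      linear_combination h4
  set A : Bool → Finset G := fun b => (fib χ₁ 1) ∩ fib χ₂ (if b then 1 else -1) with hA
  set m := (A true).card with hm
  have hA1 : (A false).card = m := by
    rw [hm]
    refine Finset.card_bij (fun x _ => x + y) ?_ ?_ ?_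
    · intro x hx
      simp only [hA, Finset.mem_inter, mem_fib, if_true, Bool.false_eq_true, if_false] at hx ⊢
      rw [AddChar.map_add_eq_mul, AddChar.map_add_eq_mul, hx.1, hx.2, hy1, hy2]
      norm_num
    · intro x _ x' _ h
      exact add_left_injective y h
    · intro x hx
      refine ⟨x - y, ?_, by simp⟩
      simp only [hA, Finset.mem_inter, mem_fib, if_true, Bool.false_eq_true, if_false] at hx ⊢
      rw [AddChar.map_sub_eq_div, AddChar.map_sub_eq_div, hx.1, hx.2, hy1, hy2]
      norm_num
  have hRcm : IsCMType ι (fib χ₁ 1) := by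
    intro x
    rw [mem_fib, mem_fib, AddChar.map_add_eq_mul, h1]
    rcases hq1 x with h | h <;> rw [h] <;> norm_num
  have hRcard := card_type hRcm
  have hsplit : (fib χ₁ 1).card = (A true).card + (A false).card := by
    rw [← Finset.card_union_of_disjoint]
    · congr 1
      ext x
      simp only [hA, Finset.mem_union, Finset.mem_inter, mem_fib, if_true, Bool.false_eq_true, if_false]
      rcases hq2 x with h | h <;> rw [h] <;> norm_num
    · rw [Finset.disjoint_left]
      intro x hx hx'
      simp only [hA, Finset.mem_inter, mem_fib, if_true, Bool.false_eq_true, if_false] at hx hx'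
      rw [hx.2] at hx'
      norm_num at hx'
  have hmg : 2 * m = g := by omega
  have hmain := card_family_le (Z := (van ι χ₁) ∩ (van ι χ₂)) ∅ A m
    (fun b => by cases b; exact hA1; exact hm.symm) ?_ ?_
  · have hup := mid_upper m
    rw [Fintype.card_bool] at hmain
    simp only [Finset.card_empty, pow_zero, mul_one] at hmain
    calc ((van ι χ₁) ∩ (van ι χ₂)).card * g ≤ (mid m ^ 2) * (2 * (m + 1)) :=
          Nat.mul_le_mul hmain (by omega)
      _ = 2 * (mid m ^ 2 * (m + 1)) := by ring
      _ ≤ 2 * 4 ^ m := Nat.mul_le_mul_left _ hup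
      _ = 2 * 2 ^ g := by rw [← hmg, pow_mul]; norm_num
  · intro S hS S' hS' _ hAA
    rw [Finset.mem_inter, mem_van, mem_van] at hS hS'
    have hR : ∀ x ∈ fib χ₁ 1, (x ∈ S ↔ x ∈ S') := by
      intro x hx
      have hx2 : ∃ b, x ∈ A b := by
        rcases hq2 x with h | h
        · exact ⟨true, by simp only [hA, Finset.mem_inter, mem_fib, if_true]; exact ⟨mem_fib.mp hx, h⟩⟩
        · exact ⟨false, by
            simp only [hA, Finset.mem_inter, mem_fib, Bool.false_eq_true, if_false]
            exact ⟨mem_fib.mp hx, h⟩⟩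
      obtain ⟨b, hb⟩ := hx2
      have h3 := hAA b
      constructor
      · intro h4
        exact (Finset.mem_inter.mp (h3 ▸ Finset.mem_inter.mpr ⟨h4, hb⟩)).1
      · intro h4
        exact (Finset.mem_inter.mp (h3.symm ▸ Finset.mem_inter.mpr ⟨h4, hb⟩)).1
    ext x
    by_cases hx : x ∈ fib χ₁ 1
    · exact hR x hx
    · have h3 : x + ι ∈ fib χ₁ 1 := by
        by_contra h4
        exact hx ((hRcm x).mpr h4)
      rw [hS.1.1 x, hS'.1.1 x, hR _ h3]
  · intro S hS S' hS' _
    rw [Finset.mem_inter, mem_van, mem_van] at hS hS'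
    have e1 := sum_dif_char hS.1.1 hS'.1.1 hRcm h1 hS.1.2 hS'.1.2
    have e2 := sum_dif_char hS.1.1 hS'.1.1 hRcm h2 hS.2.2 hS'.2.2
    have hsum : ∀ f : G → ℂ, ∑ x ∈ fib χ₁ 1, f x = ∑ x ∈ A true, f x + ∑ x ∈ A false, f x := by
      intro f
      rw [← Finset.sum_union]
      · congr 1
        ext x
        simp only [hA, Finset.mem_union, Finset.mem_inter, mem_fib, if_true, Bool.false_eq_true, if_false]
        rcases hq2 x with h | h <;> rw [h] <;> norm_num
      · rw [Finset.disjoint_left]
        intro x hx hx'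
        simp only [hA, Finset.mem_inter, mem_fib, if_true, Bool.false_eq_true, if_false] at hx hx'
        rw [hx.2] at hx'
        norm_num at hx'
    rw [hsum] at e1 e2
    have f1 : ∀ b, ∑ x ∈ A b, (dif S S' x : ℂ) * χ₁ x = ((∑ x ∈ A b, dif S S' x : ℤ) : ℂ) := by
      intro b
      push_cast
      refine Finset.sum_congr rfl fun x hx => ?_
      have : χ₁ x = 1 := by
        simp only [hA, Finset.mem_inter, mem_fib] at hx
        exact hx.1
      rw [this, mul_one]
    have f2 : ∀ b, ∑ x ∈ A b, (dif S S' x : ℂ) * χ₂ x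
        = (if b then 1 else -1) * ((∑ x ∈ A b, dif S S' x : ℤ) : ℂ) := by
      intro b
      push_cast
      rw [Finset.mul_sum]
      refine Finset.sum_congr rfl fun x hx => ?_
      have : χ₂ x = if b then 1 else -1 := by
        simp only [hA, Finset.mem_inter, mem_fib] at hx
        exact hx.2
      rw [this, mul_comm]
    rw [f1, f1] at e1
    rw [f2, f2] at e2
    simp only [if_true, Bool.false_eq_true, if_false, one_mul] at e2
    have g1 : ((∑ x ∈ A true, dif S S' x : ℤ) : ℂ) = 0 := by linear_combination (e1 + e2) / 2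
    have g2 : ((∑ x ∈ A false, dif S S' x : ℤ) : ℂ) = 0 := by linear_combination (e1 - e2) / 2
    have g3 : ∀ b, ∑ x ∈ A b, dif S S' x = 0 := by
      intro b
      cases b
      · exact_mod_cast g2
      · exact_mod_cast g1
    intro b
    have g4 := g3 b
    rw [sum_dif] at g4
    have : ((S ∩ A b).card : ℤ) = (S' ∩ A b).card := by linarith
    exact_mod_cast this

/-- the number of characters of a given order -/
theorem card_cord_le {S : Finset G} {r : ℕ} (hS : S.card ≤ r)
    (hgen : AddSubgroup.closure (S : Set G) = ⊤) (k : ℕ) :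
    (Finset.univ.filter fun χ : AddChar G ℂ => cord χ = k).card ≤ k ^ r := by
  classical
  rcases Nat.eq_zero_or_pos k with rfl | hk
  · rw [Finset.card_eq_zero.mpr]
    · exact Nat.zero_le _
    · rw [Finset.filter_eq_empty_iff]
      intro χ _ h
      exact (cord_pos χ).ne' h
  calc (Finset.univ.filter fun χ : AddChar G ℂ => cord χ = k).card
      ≤ (Fintype.piFinset fun _ : S => Polynomial.nthRootsFinset k (1 : ℂ)).card := by
        refine Finset.card_le_card_of_injOn (fun χ s => χ s) ?_ ?_
        · intro χ hχ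
          rw [Finset.mem_coe, Finset.mem_filter] at hχ
          rw [Finset.mem_coe, Fintype.mem_piFinset]
          intro s
          rw [Polynomial.mem_nthRootsFinset hk]
          rw [← hχ.2]
          exact cord_pow χ s
        · intro χ _ χ' _ h
          have h1 : ∀ x ∈ S, χ x = χ' x := fun x hx => congrFun h ⟨x, hx⟩
          let K : AddSubgroup G :=
            { carrier := {x | χ x = χ' x}
              zero_mem' := by
                change χ 0 = χ' 0
                rw [AddChar.map_zero_eq_one, AddChar.map_zero_eq_one]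
              add_mem' := by
                intro a b ha hb
                change χ (a + b) = χ' (a + b)
                rw [AddChar.map_add_eq_mul, AddChar.map_add_eq_mul]
                change χ a = χ' a at ha
                change χ b = χ' b at hb
                rw [ha, hb]
              neg_mem' := by
                intro a ha
                change χ (-a) = χ' (-a)
                change χ a = χ' a at ha
                rw [AddChar.map_neg_eq_inv, AddChar.map_neg_eq_inv, ha] }
          have h2 : AddSubgroup.closure (S : Set G) ≤ K := by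
            rw [AddSubgroup.closure_le]
            intro x hx
            exact h1 x hx
          rw [hgen] at h2
          ext x
          exact h2 (AddSubgroup.mem_top x)
    _ ≤ k ^ r := by
        rw [Fintype.card_piFinset, Finset.prod_const, Finset.card_univ, Fintype.card_coe]
        have h1 : (Polynomial.nthRootsFinset k (1 : ℂ)).card ≤ k := by
          have : NeZero k := ⟨hk.ne'⟩
          rw [(Complex.isPrimitiveRoot_exp k hk.ne').card_nthRootsFinset]
        exact (Nat.pow_le_pow_left h1 _).trans (Nat.pow_le_pow_right hk hS)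

end

end Pool.Agent.Lib.MP_938ce2_ag_h85
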