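import Mathlib
import Pool.Agent.Lib.MP_938ce2_ag_h85.Bounds

/-!
Upper bounds for the number of CM types whose Tate classes are not generated by divisor classes.
-/

set_option autoImplicit false
set_option linter.unusedSectionVars false

namespace Pool.Agent.Lib.MP_938ce2_ag_h85

/-- the sum over all characters of a weight of the order -/
lemma sum_weight (r : ℕ) : ∃ D : ℝ, 0 < D ∧ ∀ (G : Type) [AddCommGroup G] [Fintype G] (S : Finset G),
    S.card ≤ r → AddSubgroup.closure (S : Set G) = ⊤ →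
    ∑ χ : AddChar G ℂ, (2 * (cord χ : ℝ)) / 2 ^ (Nat.totient (cord χ)) ≤ D := by
  classical
  obtain ⟨C, hC, h⟩ := exists_pow_le_totient (r + 3)
  have hsum : Summable fun k : ℕ => 1 / (k : ℝ) ^ 2 := Real.summable_one_div_nat_pow.mpr (by norm_num)
  refine ⟨2 * C * (∑' k : ℕ, 1 / (k : ℝ) ^ 2) + 1, ?_, ?_⟩
  · have : 0 ≤ ∑' k : ℕ, 1 / (k : ℝ) ^ 2 := tsum_nonneg fun k => by positivity
    positivity
  · intro G _ _ S hS hgen
    rw [Finset.sum_comp (fun k : ℕ => (2 * (k : ℝ)) / 2 ^ (Nat.totient k)) cord]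
    have h1 : ∀ k ∈ Finset.univ.image (cord : AddChar G ℂ → ℕ),
        (Finset.univ.filter fun χ : AddChar G ℂ => cord χ = k).card • ((2 * (k : ℝ)) / 2 ^ (Nat.totient k))
          ≤ 2 * C * (1 / (k : ℝ) ^ 2) := by
      intro k hk
      obtain ⟨χ, _, rfl⟩ := Finset.mem_image.mp hk
      have hk0 := cord_pos χ
      set k := cord χ with hkdef
      have hk1 : (0 : ℝ) < k := by exact_mod_cast hk0
      have h2 := card_cord_le hS hgen k
      have h3 : ((Finset.univ.filter fun χ : AddChar G ℂ => cord χ = k).card : ℝ) ≤ (k : ℝ) ^ r := by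
        exact_mod_cast h2
      rw [nsmul_eq_mul]
      calc ((Finset.univ.filter fun χ : AddChar G ℂ => cord χ = k).card : ℝ)
            * ((2 * (k : ℝ)) / 2 ^ (Nat.totient k))
          ≤ (k : ℝ) ^ r * ((2 * (k : ℝ)) / 2 ^ (Nat.totient k)) :=
            mul_le_mul_of_nonneg_right h3 (by positivity)
        _ = 2 * (k : ℝ) ^ (r + 3) / (2 ^ (Nat.totient k) * (k : ℝ) ^ 2) := by
            field_simp
            ring
        _ ≤ 2 * (C * 2 ^ (Nat.totient k)) / (2 ^ (Nat.totient k) * (k : ℝ) ^ 2) := by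
            apply div_le_div_of_nonneg_right _ (by positivity)
            linarith [h k]
        _ = 2 * C * (1 / (k : ℝ) ^ 2) := by
            field_simp
    calc _ ≤ ∑ k ∈ Finset.univ.image (cord : AddChar G ℂ → ℕ), 2 * C * (1 / (k : ℝ) ^ 2) :=
          Finset.sum_le_sum h1
      _ = 2 * C * ∑ k ∈ Finset.univ.image (cord : AddChar G ℂ → ℕ), (1 / (k : ℝ) ^ 2) := by
          rw [Finset.mul_sum]
      _ ≤ 2 * C * (∑' k : ℕ, 1 / (k : ℝ) ^ 2) := by
          refine mul_le_mul_of_nonneg_left ?_ (by positivity)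
          exact hsum.sum_le_tsum _ fun k _ => by positivity
      _ ≤ _ := by linarith

section

variable {G : Type} [AddCommGroup G] [Fintype G]

open Classical in
/-- odd characters of order different from two -/
noncomputable def oddNon (ι : G) : Finset (AddChar G ℂ) :=
  Finset.univ.filter fun χ => χ ι = -1 ∧ cord χ ≠ 2

open Classical in
/-- odd quadratic characters -/
noncomputable def oddQuad (ι : G) : Finset (AddChar G ℂ) :=
  Finset.univ.filter fun χ => χ ι = -1 ∧ cord χ = 2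

lemma sum_oddNon {ι : G} {g : ℕ} (hg : Fintype.card G = 2 * g) :
    ∑ χ ∈ oddNon ι, ((van ι χ).card : ℝ)
      ≤ 2 ^ g / g * ∑ χ : AddChar G ℂ, (2 * (cord χ : ℝ)) / 2 ^ (Nat.totient (cord χ)) := by
  classical
  have hGpos : 0 < Fintype.card G := Fintype.card_pos
  have hgpos : (0 : ℝ) < g := by
    have : 0 < g := by omega
    exact_mod_cast this
  rw [Finset.mul_sum]
  calc ∑ χ ∈ oddNon ι, ((van ι χ).card : ℝ)
      ≤ ∑ χ ∈ oddNon ι, 2 ^ g / g * ((2 * (cord χ : ℝ)) / 2 ^ (Nat.totient (cord χ))) := by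
        refine Finset.sum_le_sum fun χ hχ => ?_
        rw [oddNon, Finset.mem_filter] at hχ
        have h := card_van_nonquad hχ.2.1 hχ.2.2 hg
        have h' : ((van ι χ).card : ℝ) * g * 2 ^ (Nat.totient (cord χ)) ≤ 2 ^ g * (2 * cord χ) := by
          exact_mod_cast h
        rw [div_mul_div_comm, le_div_iff₀ (by positivity)]
        linarith
    _ ≤ _ := Finset.sum_le_sum_of_subset_of_nonneg (Finset.subset_univ _) fun χ _ _ => by positivity

lemma mid_le_real (g : ℕ) (hg : 0 < g) : (mid g : ℝ) ≤ 2 ^ g / Real.sqrt g := by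
  have hgpos : (0 : ℝ) < g := by exact_mod_cast hg
  rw [le_div_iff₀ (Real.sqrt_pos.mpr hgpos)]
  have h := mid_upper g
  have h' : (mid g : ℝ) ^ 2 * (g + 1) ≤ 4 ^ g := by exact_mod_cast h
  refine le_of_sq_le_sq ?_ (by positivity)
  rw [mul_pow, Real.sq_sqrt hgpos.le]
  have h4 : ((2 : ℝ) ^ g) ^ 2 = 4 ^ g := by rw [← pow_mul, mul_comm g 2, pow_mul]; norm_num
  rw [h4]
  nlinarith [sq_nonneg (mid g : ℝ)]

lemma card_oddQuad {ι : G} {S : Finset G} {r : ℕ} (hS : S.card ≤ r)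
    (hgen : AddSubgroup.closure (S : Set G) = ⊤) : (oddQuad ι).card ≤ 2 ^ r := by
  classical
  refine le_trans (Finset.card_le_card ?_) (card_cord_le hS hgen 2)
  intro χ hχ
  rw [oddQuad, Finset.mem_filter] at hχ
  rw [Finset.mem_filter]
  exact ⟨Finset.mem_univ _, hχ.2.2⟩

lemma sum_oddQuad {ι : G} {g : ℕ} (hg : Fintype.card G = 2 * g) {S : Finset G} {r : ℕ}
    (hS : S.card ≤ r) (hgen : AddSubgroup.closure (S : Set G) = ⊤) :
    ∑ χ ∈ oddQuad ι, ((van ι χ).card : ℝ) ≤ 2 ^ r * (2 ^ g / Real.sqrt g) := by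
  classical
  have hGpos : 0 < Fintype.card G := Fintype.card_pos
  calc ∑ χ ∈ oddQuad ι, ((van ι χ).card : ℝ) ≤ ∑ χ ∈ oddQuad ι, (2 ^ g / Real.sqrt g) := by
        refine Finset.sum_le_sum fun χ hχ => ?_
        rw [oddQuad, Finset.mem_filter] at hχ
        have h := card_van_quad hχ.2.1 hχ.2.2 hg
        exact (by exact_mod_cast h : ((van ι χ).card : ℝ) ≤ mid g).trans (mid_le_real g (by omega))
    _ = (oddQuad ι).card * (2 ^ g / Real.sqrt g) := by rw [Finset.sum_const, nsmul_eq_mul]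
    _ ≤ 2 ^ r * (2 ^ g / Real.sqrt g) := by
        refine mul_le_mul_of_nonneg_right ?_ (by positivity)
        exact_mod_cast card_oddQuad hS hgen

lemma sum_pairs {ι : G} {g : ℕ} (hg : Fintype.card G = 2 * g) {S : Finset G} {r : ℕ}
    (hS : S.card ≤ r) (hgen : AddSubgroup.closure (S : Set G) = ⊤) [DecidableEq (Finset G)] :
    ∑ p ∈ (oddQuad ι).offDiag, (((van ι p.1) ∩ (van ι p.2)).card : ℝ)
      ≤ 4 ^ r * (2 * (2 ^ g / (g : ℝ))) := by
  classical
  have hGpos : 0 < Fintype.card G := Fintype.card_pos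
  have hgpos : (0 : ℝ) < g := by
    have : 0 < g := by omega
    exact_mod_cast this
  calc ∑ p ∈ (oddQuad ι).offDiag, (((van ι p.1) ∩ (van ι p.2)).card : ℝ)
      ≤ ∑ p ∈ (oddQuad ι).offDiag, (2 * (2 ^ g / (g : ℝ)) : ℝ) := by
        refine Finset.sum_le_sum fun p hp => ?_
        rw [Finset.mem_offDiag, oddQuad, Finset.mem_filter, Finset.mem_filter] at hp
        have h := card_van_pair hp.1.2.1 hp.2.1.2.1 ((cord_eq_two_iff hp.1.2.1).mp hp.1.2.2)
          ((cord_eq_two_iff hp.2.1.2.1).mp hp.2.1.2.2) hp.2.2 hg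
        have h' : (((van ι p.1) ∩ (van ι p.2)).card : ℝ) * g ≤ 2 * 2 ^ g := by exact_mod_cast h
        rw [← mul_div_assoc, le_div_iff₀ hgpos]
        exact h'
    _ = ((oddQuad ι).offDiag.card : ℝ) * (2 * (2 ^ g / (g : ℝ))) := by rw [Finset.sum_const, nsmul_eq_mul]
    _ ≤ 4 ^ r * (2 * (2 ^ g / (g : ℝ))) := by
        refine mul_le_mul_of_nonneg_right ?_ (by positivity)
        have h1 : (oddQuad ι).offDiag.card ≤ 4 ^ r := by
          rw [Finset.offDiag_card]
          have h2 := card_oddQuad (ι := ι) hS hgen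
          calc (oddQuad ι).card * (oddQuad ι).card - (oddQuad ι).card
              ≤ (oddQuad ι).card * (oddQuad ι).card := Nat.sub_le _ _
            _ ≤ 2 ^ r * 2 ^ r := Nat.mul_le_mul h2 h2
            _ = 4 ^ r := by rw [← mul_pow]; norm_num
        exact_mod_cast h1

lemma DivisorGenerated.weil {ι : G} {Φ : Finset G} (h : DivisorGenerated Φ) : WeilGenerated ι Φ := by
  intro F _ _ n j x hx
  exact Algebra.adjoin_mono (fun y hy => Or.inl hy) (h F n j x hx)

/-- the set of CM types for which the Tate classes are not generated by divisor classes -/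
lemma bad_divisor {ι : G} (hι : ι ≠ 0) (hι2 : ι + ι = 0) :
    ({Φ : Finset G | IsCMType ι Φ ∧ ¬ DivisorGenerated Φ}.ncard : ℝ)
      ≤ ∑ χ ∈ oddQuad ι, ((van ι χ).card : ℝ) + ∑ χ ∈ oddNon ι, ((van ι χ).card : ℝ) := by
  classical
  have h1 : {Φ : Finset G | IsCMType ι Φ ∧ ¬ DivisorGenerated Φ} ⊆
      (((oddQuad ι).biUnion (van ι) ∪ (oddNon ι).biUnion (van ι) : Finset (Finset G)) : Set (Finset G)) := by
    rintro Φ ⟨h2, h3⟩
    have h4 : ∃ χ : AddChar G ℂ, χ ι = -1 ∧ ∑ φ ∈ Φ, χ φ = 0 := by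
      by_contra hcon
      push Not at hcon
      exact h3 (divisorGenerated_of_nonvanishing hι hι2 h2 hcon)
    obtain ⟨χ, h5, h6⟩ := h4
    rw [Finset.mem_coe, Finset.mem_union, Finset.mem_biUnion, Finset.mem_biUnion]
    by_cases h7 : cord χ = 2
    · exact Or.inl ⟨χ, by rw [oddQuad, Finset.mem_filter]; exact ⟨Finset.mem_univ _, h5, h7⟩,
        mem_van.mpr ⟨h2, h6⟩⟩
    · exact Or.inr ⟨χ, by rw [oddNon, Finset.mem_filter]; exact ⟨Finset.mem_univ _, h5, h7⟩,
        mem_van.mpr ⟨h2, h6⟩⟩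
  have h2 := Set.ncard_le_ncard h1 (Finset.finite_toSet _)
  rw [Set.ncard_coe_finset] at h2
  have h3 := h2.trans ((Finset.card_union_le _ _).trans
    (Nat.add_le_add Finset.card_biUnion_le Finset.card_biUnion_le))
  exact_mod_cast h3

lemma bad_divisor' {ι : G} (hι : ι ≠ 0) (hι2 : ι + ι = 0)
    (hq : ∀ χ ∈ oddQuad ι, van ι χ = ∅) :
    ({Φ : Finset G | IsCMType ι Φ ∧ ¬ DivisorGenerated Φ}.ncard : ℝ)
      ≤ ∑ χ ∈ oddNon ι, ((van ι χ).card : ℝ) := by
  have h := bad_divisor hι hι2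
  rw [Finset.sum_eq_zero fun χ hχ => by rw [hq χ hχ]; simp, zero_add] at h
  exact h

lemma bad_weil {ι : G} (hι : ι ≠ 0) (hι2 : ι + ι = 0) [DecidableEq (Finset G)] :
    ({Φ : Finset G | IsCMType ι Φ ∧ ¬ WeilGenerated ι Φ}.ncard : ℝ)
      ≤ ∑ p ∈ (oddQuad ι).offDiag, (((van ι p.1) ∩ (van ι p.2)).card : ℝ)
        + ∑ χ ∈ oddNon ι, ((van ι χ).card : ℝ) := by
  classical
  have h1 : {Φ : Finset G | IsCMType ι Φ ∧ ¬ WeilGenerated ι Φ} ⊆
      (((oddQuad ι).offDiag.biUnion (fun p => (van ι p.1) ∩ (van ι p.2)) ∪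
        (oddNon ι).biUnion (van ι) : Finset (Finset G)) : Set (Finset G)) := by
    rintro Φ ⟨h2, h3⟩
    rw [Finset.mem_coe, Finset.mem_union, Finset.mem_biUnion, Finset.mem_biUnion]
    by_contra hcon
    rw [not_or] at hcon
    obtain ⟨h4, h5⟩ := hcon
    -- no odd character of order different from two
    have h6 : ∀ χ : AddChar G ℂ, χ ι = -1 → cord χ ≠ 2 → ∑ φ ∈ Φ, χ φ ≠ 0 := by
      intro χ h7 h8 h9
      exact h5 ⟨χ, by rw [oddNon, Finset.mem_filter]; exact ⟨Finset.mem_univ _, h7, h8⟩,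
        mem_van.mpr ⟨h2, h9⟩⟩
    by_cases h7 : ∃ χ0 : AddChar G ℂ, χ0 ι = -1 ∧ ∑ φ ∈ Φ, χ0 φ = 0
    · obtain ⟨χ0, h8, h9⟩ := h7
      have h10 : cord χ0 = 2 := by
        by_contra h11
        exact h6 χ0 h8 h11 h9
      apply h3
      refine weilGenerated_of_nonvanishing hι hι2 h2 h8 ((cord_eq_two_iff h8).mp h10) ?_
      intro χ h11 h12 h13
      by_cases h14 : cord χ = 2
      · refine h4 ⟨(χ, χ0), ?_, ?_⟩
        · rw [Finset.mem_offDiag, oddQuad, Finset.mem_filter, Finset.mem_filter]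
          exact ⟨⟨Finset.mem_univ _, h11, h14⟩, ⟨Finset.mem_univ _, h8, h10⟩, h12⟩
        · rw [Finset.mem_inter]
          exact ⟨mem_van.mpr ⟨h2, h13⟩, mem_van.mpr ⟨h2, h9⟩⟩
      · exact h6 χ h11 h14 h13
    · push Not at h7
      exact h3 (divisorGenerated_of_nonvanishing hι hι2 h2 h7).weil
  have h2 := Set.ncard_le_ncard h1 (Finset.finite_toSet _)
  rw [Set.ncard_coe_finset] at h2
  have h3 := h2.trans ((Finset.card_union_le _ _).trans
    (Nat.add_le_add Finset.card_biUnion_le Finset.card_biUnion_le))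
  exact_mod_cast h3

/-- for odd `g` the quadratic character sums do not vanish -/
lemma van_empty_of_odd {ι : G} {g : ℕ} (hg : Fintype.card G = 2 * g) (hodd : Odd g)
    {χ : AddChar G ℂ} (hχ : χ ∈ oddQuad ι) : van ι χ = ∅ := by
  classical
  rw [oddQuad, Finset.mem_filter] at hχ
  have hq := (cord_eq_two_iff hχ.2.1).mp hχ.2.2
  rw [Finset.eq_empty_iff_forall_notMem]
  intro Φ hΦ
  rw [mem_van] at hΦ
  have hc := card_type hΦ.1
  have h := half_of_vanishing hq hΦ.2 (T := Finset.univ.filter fun σ => χ σ = 1) (Or.inl rfl) rfl 0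
  obtain ⟨c, hc'⟩ := hodd
  omega

/-- without subgroups of index two avoiding complex conjugation there are no odd quadratic
characters -/
lemma oddQuad_empty {ι : G} (h : ¬ ∃ H : AddSubgroup G, H.index = 2 ∧ ι ∉ H) : oddQuad ι = ∅ := by
  rw [Finset.eq_empty_iff_forall_notMem]
  intro χ hχ
  rw [oddQuad, Finset.mem_filter] at hχ
  have hq := (cord_eq_two_iff hχ.2.1).mp hχ.2.2
  apply h
  refine ⟨kerChar χ, kerChar_index hχ.2.1 hq, ?_⟩
  rw [mem_kerChar, hχ.2.1]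
  norm_num

end

/-- the three upper bounds -/
theorem upper_bounds (r : ℕ) : ∃ C : ℝ, 0 < C ∧ ∀ (G : Type) [AddCommGroup G] [Fintype G]
    (S : Finset G) (ι : G) (g : ℕ), S.card ≤ r → AddSubgroup.closure (S : Set G) = ⊤ →
    ι ≠ 0 → ι + ι = 0 → Fintype.card G = 2 * g →
    ({Φ : Finset G | IsCMType ι Φ ∧ ¬ DivisorGenerated Φ}.ncard : ℝ) ≤ C * (2 ^ g / Real.sqrt g) ∧
    ({Φ : Finset G | IsCMType ι Φ ∧ ¬ WeilGenerated ι Φ}.ncard : ℝ) ≤ C * (2 ^ g / g) ∧
    ((Odd g ∨ ¬ ∃ H : AddSubgroup G, H.index = 2 ∧ ι ∉ H) →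
      ({Φ : Finset G | IsCMType ι Φ ∧ ¬ DivisorGenerated Φ}.ncard : ℝ) ≤ C * (2 ^ g / g)) := by
  classical
  obtain ⟨D, hD, h⟩ := sum_weight r
  refine ⟨D + 2 ^ r + 4 ^ r * 2, by positivity, ?_⟩
  intro G _ _ S ι g hS hgen hι hι2 hg
  have hGpos : 0 < Fintype.card G := Fintype.card_pos
  have hg1 : 1 ≤ g := by omega
  have hgpos : (0 : ℝ) < g := by exact_mod_cast hg1
  have hw := h G S hS hgen
  have hnon : ∑ χ ∈ oddNon ι, ((van ι χ).card : ℝ) ≤ D * (2 ^ g / g) := by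
    refine (sum_oddNon hg).trans ?_
    rw [mul_comm]
    exact mul_le_mul_of_nonneg_right hw (by positivity)
  have hsq : (2 : ℝ) ^ g / g ≤ 2 ^ g / Real.sqrt g := by
    refine div_le_div_of_nonneg_left (by positivity) (Real.sqrt_pos.mpr hgpos) ?_
    rw [Real.sqrt_le_left hgpos.le]
    have : (1 : ℝ) ≤ g := by exact_mod_cast hg1
    nlinarith
  have hp1 : (0 : ℝ) ≤ 2 ^ g / g := by positivity
  have hp2 : (0 : ℝ) ≤ 2 ^ g / Real.sqrt g := by positivity
  refine ⟨?_, ?_, ?_⟩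
  · have h1 := bad_divisor hι hι2
    have h2 := sum_oddQuad (ι := ι) hg hS hgen
    have h3 : D * (2 ^ g / (g : ℝ)) ≤ D * (2 ^ g / Real.sqrt g) := mul_le_mul_of_nonneg_left hsq hD.le
    have h4 : (0 : ℝ) ≤ 4 ^ r * 2 * (2 ^ g / Real.sqrt g) := by positivity
    calc _ ≤ _ := h1
      _ ≤ 2 ^ r * (2 ^ g / Real.sqrt g) + D * (2 ^ g / (g : ℝ)) := add_le_add h2 hnon
      _ ≤ _ := by linarith
  · have h1 := bad_weil hι hι2
    have h2 := sum_pairs (ι := ι) hg hS hgen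
    have h4 : (0 : ℝ) ≤ 2 ^ r * (2 ^ g / (g : ℝ)) := by positivity
    calc _ ≤ _ := h1
      _ ≤ 4 ^ r * (2 * (2 ^ g / (g : ℝ))) + D * (2 ^ g / (g : ℝ)) := add_le_add h2 hnon
      _ ≤ _ := by linarith
  · intro hcase
    have h1 := bad_divisor' hι hι2 (by
      intro χ hχ
      rcases hcase with h2 | h2
      · exact van_empty_of_odd hg h2 hχ
      · rw [oddQuad_empty h2] at hχ
        exact absurd hχ (Finset.notMem_empty _))
    have h4 : (0 : ℝ) ≤ 2 ^ r * (2 ^ g / (g : ℝ)) := by positivity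
    have h5 : (0 : ℝ) ≤ 4 ^ r * 2 * (2 ^ g / (g : ℝ)) := by positivity
    calc _ ≤ _ := h1
      _ ≤ D * (2 ^ g / (g : ℝ)) := hnon
      _ ≤ _ := by linarith

end Pool.Agent.Lib.MP_938ce2_ag_h85
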