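import Mathlib
import Pool.Agent.Lib.MP_938ce2_ag_h85.Upper

/-!
A lower bound for the number of CM types whose Tate classes are not generated by divisor classes.
-/

set_option autoImplicit false
set_option linter.unusedSectionVars false

namespace Pool.Agent.Lib.MP_938ce2_ag_h85

open Module

section

variable {G : Type} [AddCommGroup G] [Fintype G] {ι : G} {Φ : Finset G}

/-- the product of `2^{±1}` over a monomial occurring in a Tate class of codimension one -/
lemma prod_eq_one_of_tate [DecidableEq G] {F : Type} [Field F] [CharZero F] {I : Type} [LinearOrder I]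
    [Fintype I] {π : I → G} (hΦ : IsCMType ι Φ) {χ0 : AddChar G ℂ} (hχ1 : χ0 ι = -1) (hχ0 : ∀ σ, χ0 σ = 1 ∨ χ0 σ = -1)
    (hstab : ∀ s, (∀ x, x ∈ Φ ↔ x + s ∈ Φ) → χ0 s = 1) (e : G → F)
    (he1 : ∀ σ, χ0 σ = 1 → e σ = 2) (he2 : ∀ σ, χ0 σ = -1 → e σ = 1 / 2)
    {x : ExteriorAlgebra F (I → F)} (hx : TateW F π Φ 1 x) {s : Finset I}
    (hs : (mB F).repr x s ≠ 0) : ∏ p ∈ s, e (π p) = 1 := by
  classical
  have hco := hx.coord hs
  -- `s` has two elements
  have hcΦ := card_type hΦ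
  have hGpos : 0 < Fintype.card G := Fintype.card_pos
  have hcard : s.card = 2 := by
    have h1 : ∑ τ : G, ∑ φ ∈ Φ, mult π s (τ + φ) = Fintype.card G := by
      rw [Finset.sum_congr rfl fun τ _ => hco τ]; simp
    rw [Finset.sum_comm] at h1
    have h2 : ∀ φ ∈ Φ, ∑ τ : G, mult π s (τ + φ) = s.card := by
      intro φ _
      have h3 := Equiv.sum_comp (Equiv.addRight φ) (fun τ => mult π s τ)
      simp only [Equiv.coe_addRight] at h3
      rw [h3, sum_mult]
      simp
    rw [Finset.sum_congr rfl h2, Finset.sum_const, smul_eq_mul, ← hcΦ, mul_comm 2] at h1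
    exact Nat.eq_of_mul_eq_mul_left (by omega) h1
  obtain ⟨p, q, hpq, rfl⟩ := Finset.card_eq_two.mp hcard
  have h1 : ∀ σ, mult π {p, q} σ = (if π p = σ then 1 else 0) + (if π q = σ then 1 else 0) := by
    intro σ
    unfold mult
    rw [Finset.filter_insert, Finset.filter_singleton]
    split_ifs with a b b
    · rw [Finset.card_pair hpq]
    · simp
    · simp
    · simp
  have h2 : ∀ (τ σ : G), ∑ φ ∈ Φ, (if σ = τ + φ then 1 else 0) = if σ - τ ∈ Φ then 1 else 0 := by
    intro τ σ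
    have : ∀ φ, (σ = τ + φ) ↔ (φ = σ - τ) := by
      intro φ
      constructor
      · rintro rfl; abel
      · rintro rfl; abel
    simp only [this]
    rw [Finset.sum_ite_eq']
  have h3 : ∀ τ, (if π p - τ ∈ Φ then 1 else 0) + (if π q - τ ∈ Φ then 1 else 0) = 1 := by
    intro τ
    have h4 := hco τ
    simp only [h1, Finset.sum_add_distrib] at h4
    rw [h2, h2] at h4
    exact h4
  have h5 : χ0 (π q - π p + ι) = 1 := by
    apply hstab
    intro x
    have h6 := h3 (π p - x)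
    have h7 : π p - (π p - x) = x := by abel
    have h8 : π q - (π p - x) = x + (π q - π p) := by abel
    rw [h7, h8] at h6
    have h9 := hΦ (x + (π q - π p))
    have h10 : x + (π q - π p + ι) = x + (π q - π p) + ι := by abel
    rw [h10]
    by_cases a : x ∈ Φ <;> by_cases b : x + (π q - π p) ∈ Φ <;> simp_all
  rw [AddChar.map_add_eq_mul, AddChar.map_sub_eq_div, hχ1] at h5
  rw [Finset.prod_pair hpq]
  rcases hχ0 (π p) with h | h <;> rcases hχ0 (π q) with h' | h'
  · rw [h, h'] at h5; norm_num at h5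
  · rw [he1 _ h, he2 _ h']; norm_num
  · rw [he2 _ h, he1 _ h']; norm_num
  · rw [h, h'] at h5; norm_num at h5

theorem not_divisorGenerated (hΦ : IsCMType ι Φ) {χ0 : AddChar G ℂ}
    (hχ1 : χ0 ι = -1) (hχ0 : ∀ σ, χ0 σ = 1 ∨ χ0 σ = -1) (hz : ∑ φ ∈ Φ, χ0 φ = 0)
    (hstab : ∀ s, (∀ x, x ∈ Φ ↔ x + s ∈ Φ) → χ0 s = 1) : ¬ DivisorGenerated Φ := by
  classical
  intro hdg
  let _ : LinearOrder (Fin 1 × G) :=
    LinearOrder.lift' (Fintype.equivFin (Fin 1 × G)) (Equiv.injective _)
  set π : Fin 1 × G → G := Prod.snd with hπ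
  set T : Finset G := Finset.univ.filter (fun σ => χ0 σ = 1) with hT
  set t : Finset (Fin 1 × G) := T.image (fun σ => ((0 : Fin 1), σ)) with ht
  have hmult : ∀ σ, mult π t σ = if σ ∈ T then 1 else 0 := by
    intro σ
    unfold mult
    split_ifs with h
    · rw [Finset.card_eq_one]
      refine ⟨(0, σ), ?_⟩
      ext ⟨a, b⟩
      rw [Finset.mem_filter, Finset.mem_singleton, ht, Finset.mem_image]
      constructor
      · rintro ⟨⟨τ, h3, h4⟩, h5⟩
        rw [← h4] at h5 ⊢
        simp only [hπ] at h5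
        rw [h5]
      · intro h1
        rw [h1]
        exact ⟨⟨σ, h, rfl⟩, rfl⟩
    · rw [Finset.card_eq_zero, Finset.filter_eq_empty_iff]
      intro p hp h4
      rw [ht, Finset.mem_image] at hp
      obtain ⟨τ, h3, rfl⟩ := hp
      exact h (h4 ▸ h3)
  have hTcm : IsCMType ι T := by
    intro σ
    rw [hT, Finset.mem_filter, Finset.mem_filter, AddChar.map_add_eq_mul, hχ1]
    rcases hχ0 σ with h2 | h2 <;> rw [h2] <;> norm_num
  have hhalf := half_of_vanishing hχ0 hz (Or.inl rfl) hT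
  have hcT := card_type hTcm
  have hcΦ := card_type hΦ
  have hGpos : 0 < Fintype.card G := Fintype.card_pos
  have hct : t.card = T.card := by
    rw [ht, Finset.card_image_of_injective]
    intro a b h
    exact (Prod.mk.inj h).2
  have htate : IsTate ℚ Φ 1 (∑ φ ∈ Φ, (if (0 : G) + φ ∈ T then 1 else 0)) (mB ℚ t) := by
    have h0 := hhalf 0
    refine tateW_mB (F := ℚ) (π := π) (by omega) fun τ => ?_
    rw [Finset.sum_congr rfl fun φ _ => hmult (τ + φ)]
    have h1 := hhalf τ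
    omega
  have hmem : mB ℚ t ∈ Algebra.adjoin ℚ {y | TateW ℚ π Φ 1 y} := hdg ℚ 1 _ _ htate
  set e : G → ℚ := fun σ => if χ0 σ = 1 then 2 else 1 / 2 with he
  have he1 : ∀ σ, χ0 σ = 1 → e σ = 2 := fun σ h => if_pos h
  have he2 : ∀ σ, χ0 σ = -1 → e σ = 1 / 2 := fun σ h => if_neg (by rw [h]; norm_num)
  set θ := ExteriorAlgebra.map (diagMap ℚ fun p : Fin 1 × G => e (π p)) with hθ
  have hle : Algebra.adjoin ℚ {y | TateW ℚ π Φ 1 y} ≤ AlgHom.equalizer θ (AlgHom.id ℚ _) := by
    rw [Algebra.adjoin_le_iff]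
    intro y hy
    have hy' : TateW ℚ π Φ 1 y := hy
    change θ y = y
    apply (mB ℚ).ext_elem
    intro s
    rw [hθ, repr_map_diag]
    by_cases h : (mB ℚ).repr y s = 0
    · rw [h, mul_zero]
    · rw [prod_eq_one_of_tate hΦ hχ1 hχ0 hstab e he1 he2 hy' h, one_mul]
  have hfix : θ (mB ℚ t) = mB ℚ t := hle hmem
  rw [hθ, map_diag_mB] at hfix
  have hprod : ∏ p ∈ t, e (π p) = 2 ^ T.card := by
    rw [ht, Finset.prod_image]
    · rw [Finset.prod_congr rfl (g := fun _ => (2 : ℚ)), Finset.prod_const]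
      intro σ hσ
      exact he1 σ (Finset.mem_filter.mp hσ).2
    · intro a _ b _ h
      exact (Prod.mk.inj h).2
  rw [hprod] at hfix
  have h1 := congrArg (fun y => (mB ℚ).repr y t) hfix
  simp only [map_smul, Finsupp.smul_apply, Basis.repr_self, Finsupp.single_eq_same, smul_eq_mul,
    mul_one] at h1
  have h2 : (1 : ℚ) < 2 ^ T.card := one_lt_pow₀ (by norm_num) (by omega)
  rw [h1] at h2
  exact lt_irrefl _ h2

/-- the quadratic character with given kernel -/
lemma exists_quad {H : AddSubgroup G} (hH : H.index = 2) (hι : ι ∉ H) :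
    ∃ χ0 : AddChar G ℂ, χ0 ι = -1 ∧ ∀ σ, χ0 σ = 1 ∨ χ0 σ = -1 := by
  classical
  refine ⟨⟨fun σ => if σ ∈ H then 1 else -1, by simp, ?_⟩, ?_, ?_⟩
  · intro a b
    simp only [AddSubgroup.add_mem_iff_of_index_two hH]
    by_cases ha : a ∈ H <;> by_cases hb : b ∈ H <;> simp [ha, hb]
  · exact if_neg hι
  · intro σ
    by_cases h : σ ∈ H
    · exact Or.inl (if_pos h)
    · exact Or.inr (if_neg h)

/-- CM types with vanishing quadratic character sum -/
lemma mid_le_card_van (hι2 : ι + ι = 0) {χ0 : AddChar G ℂ} (hχ1 : χ0 ι = -1)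
    (hχ0 : ∀ σ, χ0 σ = 1 ∨ χ0 σ = -1) {n : ℕ} (hg : Fintype.card G = 2 * (2 * n)) :
    mid (2 * n) ≤ (van ι χ0).card := by
  classical
  set K := fib χ0 1 with hK
  have hKcm : IsCMType ι K := by
    intro σ
    rw [hK, mem_fib, mem_fib, AddChar.map_add_eq_mul, hχ1]
    rcases hχ0 σ with h2 | h2 <;> rw [h2] <;> norm_num
  have hKc := card_type hKcm
  have hKcard : K.card = 2 * n := by omega
  have h1 : mid (2 * n) = (K.powersetCard n).card := by
    rw [Finset.card_powersetCard, hKcard, mid, Nat.mul_div_cancel_left n (by norm_num)]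
  rw [h1]
  set f : Finset G → Finset G := fun S => Finset.univ.filter fun x => if x ∈ K then x ∈ S else x + ι ∉ S
    with hf
  have hfK : ∀ S ⊆ K, f S ∩ K = S := by
    intro S hS
    ext x
    simp only [hf, Finset.mem_inter, Finset.mem_filter, Finset.mem_univ, true_and]
    constructor
    · rintro ⟨h2, h3⟩
      rwa [if_pos h3] at h2
    · intro h2
      have h3 := hS h2
      rw [if_pos h3]
      exact ⟨h2, h3⟩
  refine Finset.card_le_card_of_injOn f ?_ ?_
  · intro S hS
    rw [Finset.mem_coe, Finset.mem_powersetCard] at hS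
    rw [Finset.mem_coe, mem_van]
    have hcm : IsCMType ι (f S) := by
      intro x
      simp only [hf, Finset.mem_filter, Finset.mem_univ, true_and]
      by_cases hx : x ∈ K
      · have h2 := (hKcm x).mp hx
        rw [if_pos hx, if_neg h2, add_assoc, hι2, add_zero, not_not]
      · have h2 : x + ι ∈ K := by
          by_contra h3
          exact hx ((hKcm x).mpr h3)
        rw [if_neg hx, if_pos h2]
    refine ⟨hcm, ?_⟩
    have hc := card_type hcm
    have h2 : ∑ φ ∈ f S, χ0 φ = ∑ φ ∈ f S, (2 * (if φ ∈ K then (1 : ℂ) else 0) - 1) := by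
      refine Finset.sum_congr rfl fun φ _ => ?_
      rw [hK]
      simp only [mem_fib]
      rcases hχ0 φ with h | h <;> rw [h] <;> norm_num
    rw [h2, Finset.sum_sub_distrib, ← Finset.mul_sum, Finset.sum_ite_mem, hfK S hS.1]
    simp only [Finset.sum_const, hS.2, nsmul_eq_mul, mul_one]
    have h3 : (f S).card = 2 * n := by omega
    rw [h3]; push_cast; ring
  · intro S hS S' hS' h
    rw [Finset.mem_coe, Finset.mem_powersetCard] at hS hS'
    rw [← hfK S hS.1, ← hfK S' hS'.1, h]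

open Classical in
/-- CM types stable under a translation -/
noncomputable def stab (ι s : G) : Finset (Finset G) :=
  (cmTypes ι).filter fun Φ => ∀ x, x ∈ Φ ↔ x + s ∈ Φ

lemma mem_stab {s : G} {Φ : Finset G} : Φ ∈ stab ι s ↔ IsCMType ι Φ ∧ ∀ x, x ∈ Φ ↔ x + s ∈ Φ := by
  simp [stab, mem_cmTypes]

lemma card_stab_le {χ0 : AddChar G ℂ} (hχ1 : χ0 ι = -1)
    (hχ0 : ∀ σ, χ0 σ = 1 ∨ χ0 σ = -1) {n : ℕ} (hg : Fintype.card G = 2 * (2 * n)) {s : G}
    (hs : χ0 s = -1) : (stab ι s).card ≤ 2 ^ n := by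
  classical
  rcases (stab ι s).eq_empty_or_nonempty with h0 | ⟨Φ0, h0⟩
  · rw [h0]; simp
  · rw [mem_stab] at h0
    set K := fib χ0 1 with hK
    have hKcm : IsCMType ι K := by
      intro σ
      rw [hK, mem_fib, mem_fib, AddChar.map_add_eq_mul, hχ1]
      rcases hχ0 σ with h2 | h2 <;> rw [h2] <;> norm_num
    have hz : ∑ φ ∈ Φ0, χ0 φ = 0 := by
      have h1 : ∑ φ ∈ Φ0, χ0 φ = - ∑ φ ∈ Φ0, χ0 φ := by
        rw [← Finset.sum_neg_distrib]
        refine Finset.sum_nbij' (fun x => x - s) (fun x => x + s) ?_ ?_ ?_ ?_ ?_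
        · intro x hx
          have := h0.2 (x - s)
          rw [sub_add_cancel] at this
          exact this.mpr hx
        · intro x hx
          exact (h0.2 x).mp hx
        · intro x _; simp
        · intro x _; simp
        · intro x _
          rw [AddChar.map_sub_eq_div, hs]; ring
      have h2 : (2 : ℂ) * ∑ φ ∈ Φ0, χ0 φ = 0 := by linear_combination h1
      simpa using h2
    have hcΦ := card_type h0.1
    have hhalf := half_of_vanishing hχ0 hz (T := Finset.univ.filter fun σ => χ0 σ = 1) (Or.inl rfl) rfl 0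
    have hKeq : (Finset.univ.filter fun σ => χ0 σ = 1) = K := by
      ext x; simp [hK, mem_fib]
    rw [hKeq] at hhalf
    have hcard : (Φ0 ∩ K).card = n := by
      simp only [zero_add, Finset.sum_ite_mem, Finset.sum_const, smul_eq_mul, mul_one] at hhalf
      omega
    calc (stab ι s).card ≤ ((Φ0 ∩ K).powerset).card := by
          refine Finset.card_le_card_of_injOn (fun Φ => Φ ∩ (Φ0 ∩ K)) ?_ ?_
          · intro Φ _
            rw [Finset.mem_coe, Finset.mem_powerset]
            exact Finset.inter_subset_right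
          · intro Φ hΦ Φ' hΦ' h
            rw [Finset.mem_coe, mem_stab] at hΦ hΦ'
            simp only at h
            have hin : ∀ x, x ∈ Φ0 → x ∈ K → (x ∈ Φ ↔ x ∈ Φ') := by
              intro x h1 h2
              have h3 : x ∈ Φ0 ∩ K := Finset.mem_inter.mpr ⟨h1, h2⟩
              constructor
              · intro h4
                exact (Finset.mem_inter.mp (h ▸ Finset.mem_inter.mpr ⟨h4, h3⟩)).1
              · intro h4
                exact (Finset.mem_inter.mp (h.symm ▸ Finset.mem_inter.mpr ⟨h4, h3⟩)).1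
            have hinK : ∀ x, x ∈ K → (x ∈ Φ ↔ x ∈ Φ') := by
              intro x h2
              by_cases h1 : x ∈ Φ0
              · exact hin x h1 h2
              · have h3 : x + ι ∈ Φ0 := by
                  by_contra h4
                  exact h1 ((h0.1 x).mpr h4)
                have h4 : x + ι + s ∈ Φ0 := (h0.2 _).mp h3
                have h5 : x + ι + s ∈ K := by
                  rw [hK, mem_fib] at h2 ⊢
                  rw [AddChar.map_add_eq_mul, AddChar.map_add_eq_mul, h2, hχ1, hs]; norm_num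
                have h6 := hin _ h4 h5
                rw [hΦ.1 x, hΦ'.1 x, hΦ.2 (x + ι), hΦ'.2 (x + ι), h6]
            ext x
            by_cases h1 : x ∈ K
            · exact hinK x h1
            · have h3 : x + ι ∈ K := by
                by_contra h4
                exact h1 ((hKcm x).mpr h4)
              rw [hΦ.1 x, hΦ'.1 x, hinK _ h3]
      _ = 2 ^ n := by rw [Finset.card_powerset, hcard]

theorem card_bad_lower (hι2 : ι + ι = 0) {χ0 : AddChar G ℂ} (hχ1 : χ0 ι = -1)
    (hχ0 : ∀ σ, χ0 σ = 1 ∨ χ0 σ = -1) {n : ℕ} (hg : Fintype.card G = 2 * (2 * n)) :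
    mid (2 * n) ≤ {Φ : Finset G | IsCMType ι Φ ∧ ¬ DivisorGenerated Φ}.ncard + 2 * n * 2 ^ n := by
  classical
  have h1 : (van ι χ0 : Set (Finset G)) ⊆ {Φ : Finset G | IsCMType ι Φ ∧ ¬ DivisorGenerated Φ} ∪
      (((fib χ0 (-1)).biUnion (stab ι) : Finset (Finset G)) : Set (Finset G)) := by
    intro Φ hΦ
    rw [Finset.mem_coe, mem_van] at hΦ
    by_cases h : ∀ s, (∀ x, x ∈ Φ ↔ x + s ∈ Φ) → χ0 s = 1
    · exact Or.inl ⟨hΦ.1, not_divisorGenerated hΦ.1 hχ1 hχ0 hΦ.2 h⟩
    · push Not at h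
      obtain ⟨s, h2, h3⟩ := h
      right
      rw [Finset.mem_coe, Finset.mem_biUnion]
      refine ⟨s, ?_, mem_stab.mpr ⟨hΦ.1, h2⟩⟩
      rw [mem_fib]
      rcases hχ0 s with h4 | h4
      · exact absurd h4 h3
      · exact h4
  have h2 := Set.ncard_le_ncard h1 (Set.toFinite _)
  rw [Set.ncard_coe_finset] at h2
  have h3 := (mid_le_card_van hι2 hχ1 hχ0 hg).trans (h2.trans (Set.ncard_union_le _ _))
  refine h3.trans (Nat.add_le_add_left ?_ _)
  rw [Set.ncard_coe_finset]
  refine Finset.card_biUnion_le.trans ?_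
  have h4 : (fib χ0 (-1)).card = 2 * n := by
    have h5 : fib χ0 (-1) = fib χ0 (χ0 ι) := by rw [hχ1]
    rw [h5, fib_card]
    have hKcm : IsCMType ι (fib χ0 1) := by
      intro σ
      rw [mem_fib, mem_fib, AddChar.map_add_eq_mul, hχ1]
      rcases hχ0 σ with h2 | h2 <;> rw [h2] <;> norm_num
    have h6 := card_type hKcm
    omega
  calc ∑ s ∈ fib χ0 (-1), (stab ι s).card ≤ ∑ s ∈ fib χ0 (-1), 2 ^ n :=
        Finset.sum_le_sum fun s hs => card_stab_le hχ1 hχ0 hg (mem_fib.mp hs)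
    _ = 2 * n * 2 ^ n := by rw [Finset.sum_const, h4, smul_eq_mul]

lemma cube_le (n : ℕ) (hn : 9 ≤ n) : 25 * (2 * n) ^ 3 ≤ 4 ^ n := by
  induction n, hn using Nat.le_induction with
  | base => norm_num
  | succ n hn ih =>
    calc 25 * (2 * (n + 1)) ^ 3 ≤ 4 * (25 * (2 * n) ^ 3) := by
          have : (n + 1) ^ 3 ≤ 4 * n ^ 3 := by nlinarith [sq_nonneg (n : ℤ), Nat.pow_le_pow_left hn 2]
          calc 25 * (2 * (n + 1)) ^ 3 = 200 * (n + 1) ^ 3 := by ring
            _ ≤ 200 * (4 * n ^ 3) := Nat.mul_le_mul_left _ this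
            _ = _ := by ring
      _ ≤ 4 * 4 ^ n := Nat.mul_le_mul_left _ ih
      _ = 4 ^ (n + 1) := by ring

/-- the lower bound -/
theorem lower_bound (hι2 : ι + ι = 0) {g : ℕ} (hg : Fintype.card G = 2 * g) (heven : Even g)
    (h18 : 18 ≤ g) {H : AddSubgroup G} (hH : H.index = 2) (hι : ι ∉ H) :
    2 ^ g / Real.sqrt g / 2 ≤ ({Φ : Finset G | IsCMType ι Φ ∧ ¬ DivisorGenerated Φ}.ncard : ℝ) := by
  obtain ⟨χ0, hχ1, hχ0⟩ := exists_quad hH hι
  obtain ⟨n, hn⟩ := heven
  have hn2 : g = 2 * n := by omega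
  subst hn2
  have h := card_bad_lower hι2 hχ1 hχ0 hg
  have h' : (mid (2 * n) : ℝ) ≤ ({Φ : Finset G | IsCMType ι Φ ∧ ¬ DivisorGenerated Φ}.ncard : ℝ)
      + 2 * n * 2 ^ n := by exact_mod_cast h
  have hn9 : 9 ≤ n := by omega
  have hnpos : (0 : ℝ) < n := by
    have : 0 < n := by omega
    exact_mod_cast this
  set s := Real.sqrt ((2 * n : ℕ) : ℝ) with hs
  have hs2 : s ^ 2 = 2 * n := by
    rw [hs, Real.sq_sqrt (by positivity)]; push_cast; ring
  have hspos : 0 < s := Real.sqrt_pos.mpr (by push_cast; positivity)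
  -- lower bound for the middle binomial coefficient
  have h1 : (7 / 10 : ℝ) * 2 ^ (2 * n) / s ≤ mid (2 * n) := by
    rw [div_le_iff₀ hspos]
    have h2 := central_lower (n := n) (by omega)
    rw [mid_even]
    have h3 : (4 : ℝ) ^ (2 * n) ≤ (Nat.centralBinom n : ℝ) ^ 2 * (4 * n) := by exact_mod_cast h2
    refine le_of_sq_le_sq ?_ (by positivity)
    have h4 : ((7 / 10 : ℝ) * 2 ^ (2 * n)) ^ 2 = 49 / 100 * 4 ^ (2 * n) := by
      rw [mul_pow, ← pow_mul, mul_comm (2 * n) 2, pow_mul]; norm_num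
    have h5 : ((Nat.centralBinom n : ℝ) * s) ^ 2 = (Nat.centralBinom n : ℝ) ^ 2 * (2 * n) := by
      rw [mul_pow, hs2]
    rw [h4, h5]
    have h6 : (0 : ℝ) ≤ (Nat.centralBinom n : ℝ) ^ 2 * (4 * n) := by positivity
    linarith
  -- the subtracted term
  have h2 : (2 * n * 2 ^ n : ℝ) ≤ 1 / 5 * 2 ^ (2 * n) / s := by
    rw [le_div_iff₀ hspos]
    have h3 : (25 : ℝ) * (2 * n) ^ 3 ≤ 4 ^ n := by exact_mod_cast cube_le n hn9
    refine le_of_sq_le_sq ?_ (by positivity)
    have h4 : ((2 : ℝ) * n * 2 ^ n * s) ^ 2 = (2 * n) ^ 3 * 4 ^ n := by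
      rw [mul_pow, hs2, mul_pow, ← pow_mul, mul_comm n 2, pow_mul]; norm_num; ring
    have h5 : ((1 / 5 : ℝ) * 2 ^ (2 * n)) ^ 2 = 1 / 25 * (4 ^ n * 4 ^ n) := by
      have h6 : (2 : ℝ) ^ (2 * n) = 4 ^ n := by rw [pow_mul]; norm_num
      rw [h6]; ring
    rw [h4, h5]
    have h6 : (0 : ℝ) ≤ 4 ^ n := by positivity
    nlinarith
  have h3 : (7 / 10 : ℝ) * 2 ^ (2 * n) / s - 1 / 5 * 2 ^ (2 * n) / s = 2 ^ (2 * n) / s / 2 := by
    field_simp; ring
  linarith

end

end Pool.Agent.Lib.MP_938ce2_ag_h85
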