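import Mathlib
import Pool.Agent.Lib.MP_938ce2_ag_h85.Lower

/-!
The uniform asymptotic formula.
-/

set_option autoImplicit false
set_option linter.unusedSectionVars false

namespace Pool.Agent.Lib.MP_938ce2_ag_h85

section

variable {G : Type} [AddCommGroup G] [Fintype G]

/-- `Φ(k) ≥ 4` for even `k ≥ 8` -/
lemma four_le_totient {k : ℕ} (h8 : 8 ≤ k) : 4 ≤ Nat.totient k := by
  rcases Nat.lt_or_ge 8 k with h | h
  · have h1 := le_two_mul_totient_sq k
    have h2 := Nat.totient_even (by omega : 2 < k)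
    have h3 : 2 < Nat.totient k := by
      by_contra hcon
      push Not at hcon
      have : (Nat.totient k) ^ 2 ≤ 2 ^ 2 := Nat.pow_le_pow_left hcon 2
      omega
    obtain ⟨c, hc⟩ := h2
    omega
  · have : k = 8 := by omega
    subst this
    decide

theorem card_van_high {ι : G} {χ : AddChar G ℂ} (hχ : χ ι = -1) (h8 : 8 ≤ cord χ) {g : ℕ}
    (hg : Fintype.card G = 2 * g) :
    (van ι χ).card * g ^ 2 * 2 ^ (Nat.totient (cord χ)) ≤ 2 ^ g * (4 * cord χ ^ 2) := by
  obtain ⟨x0, hx0⟩ := cord_gen χ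
  obtain ⟨q, hq, hq0, hx⟩ := odd_char_even hχ (cord_pos χ) (cord_pow χ) hx0
  classical
  have htot := fib_total (cord_pos χ) hx0 (cord_pow χ)
  set m := (fib χ 1).card with hm
  have h := card_van_le ι hχ hq (cord_pos χ) hx0 (cord_pow χ) htot
  set k := cord χ with hk
  have hqm : q * m = g := by
    have : 2 * (q * m) = 2 * g := by rw [← hg, ← htot, hq]; ring
    omega
  have hGpos : 0 < Fintype.card G := Fintype.card_pos
  have hgpos : 0 < g := by omega
  have hmpos : 1 ≤ m := by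
    rcases Nat.eq_zero_or_pos m with h0 | h0
    · rw [h0, mul_zero] at hqm; omega
    · exact h0
  have ht4 : 4 ≤ Nat.totient k := four_le_totient h8
  have htq : Nat.totient k ≤ q := by rw [hq]; exact totient_two_mul_le q
  obtain ⟨t, ht⟩ : ∃ t, Nat.totient k = t + 4 := ⟨Nat.totient k - 4, by omega⟩
  rw [ht] at h htq ⊢
  have hup := mid_upper m
  have hhalf := mid_half hmpos
  have h5 : (van ι χ).card * (m + 1) ^ 2 * 2 ^ t ≤ 2 ^ g := by
    calc (van ι χ).card * (m + 1) ^ 2 * 2 ^ t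
        ≤ (mid m ^ (t + 4) * 2 ^ ((q - (t + 4)) * m)) * (m + 1) ^ 2 * 2 ^ t :=
          Nat.mul_le_mul_right _ (Nat.mul_le_mul_right _ h)
      _ = (mid m ^ 2 * (m + 1)) ^ 2 * (2 * mid m) ^ t * 2 ^ ((q - (t + 4)) * m) := by
          rw [mul_pow 2]; ring
      _ ≤ (4 ^ m) ^ 2 * (2 ^ m) ^ t * 2 ^ ((q - (t + 4)) * m) :=
          Nat.mul_le_mul_right _ (Nat.mul_le_mul (Nat.pow_le_pow_left hup 2)
            (Nat.pow_le_pow_left hhalf t))
      _ = 2 ^ (2 * m * 2 + m * t + (q - (t + 4)) * m) := by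
          have h4 : (4 : ℕ) ^ m = 2 ^ (2 * m) := by rw [pow_mul]; norm_num
          rw [h4, ← pow_mul, ← pow_mul, ← pow_add, ← pow_add]
      _ = 2 ^ g := by
          congr 1
          rw [← hqm]
          obtain ⟨d, hd⟩ : ∃ d, q = t + 4 + d := ⟨q - (t + 4), by omega⟩
          rw [hd]
          have : t + 4 + d - (t + 4) = d := by omega
          rw [this]; ring
  calc (van ι χ).card * g ^ 2 * 2 ^ (t + 4)
      = (van ι χ).card * m ^ 2 * 2 ^ t * (16 * q ^ 2) := by rw [← hqm]; ring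
    _ ≤ (van ι χ).card * (m + 1) ^ 2 * 2 ^ t * (16 * q ^ 2) := by
        refine Nat.mul_le_mul_right _ (Nat.mul_le_mul_right _ (Nat.mul_le_mul_left _ ?_))
        exact Nat.pow_le_pow_left (by omega) 2
    _ ≤ 2 ^ g * (16 * q ^ 2) := Nat.mul_le_mul_right _ h5
    _ = 2 ^ g * (4 * k ^ 2) := by rw [hq]; ring

end

/-- the sum over all characters, no restriction on the number of generators -/
lemma sum_weight_uniform : ∃ D : ℝ, 0 < D ∧ ∀ (G : Type) [AddCommGroup G] [Fintype G],
    ∑ χ : AddChar G ℂ, (4 * (cord χ : ℝ) ^ 2) / 2 ^ (Nat.totient (cord χ)) ≤ D * Fintype.card G := by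
  classical
  obtain ⟨C, hC, h⟩ := exists_pow_le_totient 4
  have hsum : Summable fun k : ℕ => 1 / (k : ℝ) ^ 2 := Real.summable_one_div_nat_pow.mpr (by norm_num)
  refine ⟨4 * C * (∑' k : ℕ, 1 / (k : ℝ) ^ 2) + 1, ?_, ?_⟩
  · have : 0 ≤ ∑' k : ℕ, 1 / (k : ℝ) ^ 2 := tsum_nonneg fun k => by positivity
    positivity
  · intro G _ _
    rw [Finset.sum_comp (fun k : ℕ => (4 * (k : ℝ) ^ 2) / 2 ^ (Nat.totient k)) cord]
    have h1 : ∀ k ∈ Finset.univ.image (cord : AddChar G ℂ → ℕ),
        (Finset.univ.filter fun χ : AddChar G ℂ => cord χ = k).card •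
          ((4 * (k : ℝ) ^ 2) / 2 ^ (Nat.totient k))
          ≤ Fintype.card G * (4 * C * (1 / (k : ℝ) ^ 2)) := by
      intro k hk
      obtain ⟨χ, _, rfl⟩ := Finset.mem_image.mp hk
      have hk0 := cord_pos χ
      set k := cord χ with hkdef
      have hk1 : (0 : ℝ) < k := by exact_mod_cast hk0
      have h2 : (Finset.univ.filter fun χ : AddChar G ℂ => cord χ = k).card ≤ Fintype.card G := by
        have h3 := Finset.card_filter_le (Finset.univ : Finset (AddChar G ℂ)) (fun χ => cord χ = k)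
        rw [Finset.card_univ, AddChar.card_eq] at h3
        exact h3
      have h3 : ((Finset.univ.filter fun χ : AddChar G ℂ => cord χ = k).card : ℝ)
          ≤ Fintype.card G := by exact_mod_cast h2
      rw [nsmul_eq_mul]
      refine mul_le_mul h3 ?_ (by positivity) (by positivity)
      rw [div_le_iff₀ (by positivity)]
      calc 4 * (k : ℝ) ^ 2 = 4 * (k : ℝ) ^ 4 / (k : ℝ) ^ 2 := by field_simp
        _ ≤ 4 * (C * 2 ^ (Nat.totient k)) / (k : ℝ) ^ 2 := by
            apply div_le_div_of_nonneg_right _ (by positivity)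
            linarith [h k]
        _ = 4 * C * (1 / (k : ℝ) ^ 2) * 2 ^ (Nat.totient k) := by
            field_simp
    calc _ ≤ ∑ k ∈ Finset.univ.image (cord : AddChar G ℂ → ℕ),
            Fintype.card G * (4 * C * (1 / (k : ℝ) ^ 2)) :=
          Finset.sum_le_sum h1
      _ = 4 * C * (∑ k ∈ Finset.univ.image (cord : AddChar G ℂ → ℕ), (1 / (k : ℝ) ^ 2))
            * Fintype.card G := by
          rw [← Finset.mul_sum, ← Finset.mul_sum]; ring
      _ ≤ 4 * C * (∑' k : ℕ, 1 / (k : ℝ) ^ 2) * Fintype.card G := by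
          refine mul_le_mul_of_nonneg_right ?_ (by positivity)
          refine mul_le_mul_of_nonneg_left ?_ (by positivity)
          exact hsum.sum_le_tsum _ fun k _ => by positivity
      _ ≤ _ := by
          refine mul_le_mul_of_nonneg_right ?_ (by positivity)
          linarith

/-- Bonferroni's inequality -/
lemma bonferroni {α β : Type} [DecidableEq α] [DecidableEq β] (Q : Finset α) (B : α → Finset β) :
    ∑ a ∈ Q, (B a).card ≤ (Q.biUnion B).card + ∑ p ∈ Q.offDiag, ((B p.1) ∩ (B p.2)).card := by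
  set U := Q.biUnion B with hU
  have h1 : ∀ a ∈ Q, (B a).card = ∑ x ∈ U, if x ∈ B a then 1 else 0 := by
    intro a ha
    rw [Finset.sum_ite_mem, Finset.sum_const, smul_eq_mul, mul_one]
    congr 1
    exact (Finset.inter_eq_right.mpr (Finset.subset_biUnion_of_mem B ha)).symm
  have h2 : ∀ p ∈ Q.offDiag, ((B p.1) ∩ (B p.2)).card
      = ∑ x ∈ U, if x ∈ B p.1 ∧ x ∈ B p.2 then 1 else 0 := by
    intro p hp
    rw [Finset.mem_offDiag] at hp
    rw [← Finset.sum_filter, Finset.sum_const, smul_eq_mul, mul_one]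
    congr 1
    ext x
    rw [Finset.mem_inter, Finset.mem_filter]
    constructor
    · intro h
      exact ⟨Finset.subset_biUnion_of_mem B hp.1 h.1, h⟩
    · exact fun h => h.2
  rw [Finset.sum_congr rfl h1, Finset.sum_congr rfl h2, Finset.sum_comm,
    Finset.sum_comm (s := Q.offDiag), Finset.card_eq_sum_ones, ← Finset.sum_add_distrib]
  refine Finset.sum_le_sum fun x _ => ?_
  have e1 : ∑ a ∈ Q, (if x ∈ B a then 1 else 0) = (Q.filter fun a => x ∈ B a).card := by
    rw [← Finset.sum_filter, Finset.sum_const, smul_eq_mul, mul_one]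
  have e2 : ∑ p ∈ Q.offDiag, (if x ∈ B p.1 ∧ x ∈ B p.2 then 1 else 0)
      = (Q.filter fun a => x ∈ B a).offDiag.card := by
    rw [← Finset.sum_filter, Finset.sum_const, smul_eq_mul, mul_one]
    congr 1
    ext p
    simp only [Finset.mem_filter, Finset.mem_offDiag]
    tauto
  rw [e1, e2, Finset.offDiag_card]
  set t := (Q.filter fun a => x ∈ B a).card
  rcases Nat.lt_or_ge t 2 with h | h
  · interval_cases t <;> simp
  · have : 2 * t ≤ t * t := Nat.mul_le_mul_right t h
    omega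

section

variable {G : Type} [AddCommGroup G] [Fintype G]

lemma card_kerChar [DecidableEq G] (χ : AddChar G ℂ) :
    Nat.card (kerChar χ) = (fib χ 1).card := by
  rw [← Set.ncard_coe_finset (fib χ 1), ← Nat.card_coe_set_eq]
  refine Nat.card_congr (Equiv.subtypeEquivRight fun x => ?_)
  rw [mem_kerChar, Finset.mem_coe, mem_fib]

lemma index_kerChar (χ : AddChar G ℂ) : (kerChar χ).index = cord χ := by
  classical
  obtain ⟨x0, hx0⟩ := cord_gen χ
  have h1 := fib_total (cord_pos χ) hx0 (cord_pow χ)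
  have h2 := (kerChar χ).card_mul_index
  rw [card_kerChar, Nat.card_eq_fintype_card, ← h1, mul_comm] at h2
  have h3 : 0 < (fib χ 1).card := Finset.card_pos.mpr ⟨0, mem_fib.mpr (AddChar.map_zero_eq_one χ)⟩
  exact Nat.eq_of_mul_eq_mul_right h3 h2

/-- every element is, modulo the kernel, a multiple of a fixed element -/
lemma exists_mult {χ : AddChar G ℂ} {x0 : G} (hx0 : IsPrimitiveRoot (χ x0) (cord χ)) (x : G) :
    ∃ i : ℕ, i • x0 - x ∈ kerChar χ := by
  classical
  have : NeZero (cord χ) := ⟨(cord_pos χ).ne'⟩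
  obtain ⟨i, _, h⟩ := hx0.eq_pow_of_pow_eq_one (cord_pow χ x)
  refine ⟨i, ?_⟩
  rw [mem_kerChar, AddChar.map_sub_eq_div, AddChar.map_nsmul_eq_pow, h, div_self (char_ne_zero χ x)]

lemma cyclic_kerChar (χ : AddChar G ℂ) : IsAddCyclic (G ⧸ kerChar χ) := by
  obtain ⟨x0, hx0⟩ := cord_gen χ
  refine ⟨⟨(x0 : G ⧸ kerChar χ), fun y => ?_⟩⟩
  induction y using QuotientAddGroup.induction_on with
  | H x =>
    obtain ⟨i, hi⟩ := exists_mult hx0 x
    refine ⟨(i : ℤ), ?_⟩
    simp only
    rw [natCast_zsmul, ← QuotientAddGroup.mk_nsmul, QuotientAddGroup.eq]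
    have : -(i • x0) + x = -(i • x0 - x) := by abel
    rw [this]
    exact neg_mem hi

/-- the number of characters with a given kernel -/
lemma card_same_kernel (H : AddSubgroup G) (N : ℕ) (Z : Finset (AddChar G ℂ))
    (hZ : ∀ χ ∈ Z, kerChar χ = H ∧ cord χ ≤ N) : Z.card ≤ N := by
  classical
  rcases Z.eq_empty_or_nonempty with rfl | ⟨χ1, h1⟩
  · simp
  · obtain ⟨x0, hx0⟩ := cord_gen χ1
    set k := cord χ1 with hk
    have hk0 : 0 < k := cord_pos χ1
    have hcard : (Polynomial.nthRootsFinset k (1 : ℂ)).card = k := by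
      have : NeZero k := ⟨hk0.ne'⟩
      exact (Complex.isPrimitiveRoot_exp k hk0.ne').card_nthRootsFinset
    have hkN : k ≤ N := (hZ χ1 h1).2
    refine le_trans ?_ hkN
    rw [← hcard]
    refine Finset.card_le_card_of_injOn (fun χ => χ x0) ?_ ?_
    · intro χ hχ
      have h2 := (hZ χ hχ).1
      rw [Finset.mem_coe, Polynomial.mem_nthRootsFinset hk0]
      have h3 : k • x0 ∈ kerChar χ := by
        rw [h2, ← (hZ χ1 h1).1, mem_kerChar, AddChar.map_nsmul_eq_pow]
        exact cord_pow χ1 x0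
      rw [mem_kerChar, AddChar.map_nsmul_eq_pow] at h3
      exact h3
    · intro χ hχ χ' hχ' h
      simp only at h
      have h2 := (hZ χ hχ).1
      have h2' := (hZ χ' hχ').1
      ext x
      obtain ⟨i, hi⟩ := exists_mult hx0 x
      rw [(hZ χ1 h1).1] at hi
      have h3 : ∀ ψ : AddChar G ℂ, kerChar ψ = H → ψ x = ψ x0 ^ i := by
        intro ψ hψ
        rw [← hψ, mem_kerChar, AddChar.map_sub_eq_div, AddChar.map_nsmul_eq_pow,
          div_eq_one_iff_eq (char_ne_zero ψ x)] at hi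
        exact hi.symm
      rw [h3 χ h2, h3 χ' h2', h]

lemma kerChar_injOn_quad {ι : G} : Set.InjOn (kerChar : AddChar G ℂ → AddSubgroup G) (oddQuad ι) := by
  classical
  intro χ hχ χ' hχ' h
  rw [Finset.mem_coe, oddQuad, Finset.mem_filter] at hχ hχ'
  have h1 := (cord_eq_two_iff hχ.2.1).mp hχ.2.2
  have h2 := (cord_eq_two_iff hχ'.2.1).mp hχ'.2.2
  ext x
  have h3 : χ x = 1 ↔ χ' x = 1 := by rw [← mem_kerChar, ← mem_kerChar, h]
  rcases h1 x with a | a <;> rcases h2 x with b | b
  · rw [a, b]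
  · rw [a, b] at h3
    have := h3.mp rfl
    norm_num at this
  · rw [a, b] at h3
    have := h3.mpr rfl
    norm_num at this
  · rw [a, b]

theorem card_quadSub (ι : G) : (quadSub ι).ncard = (oddQuad ι).card := by
  classical
  rw [← Set.ncard_coe_finset (oddQuad ι), ← Set.InjOn.ncard_image kerChar_injOn_quad]
  congr 1
  ext H
  rw [Set.mem_image]
  constructor
  · rintro ⟨hH, hι⟩
    refine ⟨⟨fun σ => if σ ∈ H then 1 else -1, by simp, ?_⟩, ?_, ?_⟩
    · intro a b
      simp only [AddSubgroup.add_mem_iff_of_index_two hH]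
      by_cases ha : a ∈ H <;> by_cases hb : b ∈ H <;> simp [ha, hb]
    · rw [Finset.mem_coe, oddQuad, Finset.mem_filter]
      have h1 : (if ι ∈ H then (1 : ℂ) else -1) = -1 := if_neg hι
      refine ⟨Finset.mem_univ _, h1, ?_⟩
      rw [cord_eq_two_iff (ι := ι) h1]
      intro σ
      change (if σ ∈ H then (1 : ℂ) else -1) = 1 ∨ (if σ ∈ H then (1 : ℂ) else -1) = -1
      by_cases h : σ ∈ H
      · exact Or.inl (if_pos h)
      · exact Or.inr (if_neg h)
    · ext σ
      rw [mem_kerChar]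
      change (if σ ∈ H then (1 : ℂ) else -1) = 1 ↔ σ ∈ H
      by_cases h : σ ∈ H
      · simp [h]
      · simp only [h, if_false, iff_false]
        norm_num
  · rintro ⟨χ, hχ, rfl⟩
    rw [Finset.mem_coe, oddQuad, Finset.mem_filter] at hχ
    refine ⟨(index_kerChar χ).trans hχ.2.2, ?_⟩
    rw [mem_kerChar, hχ.2.1]
    norm_num

open Classical in
/-- odd characters of order four or six -/
noncomputable def oddCyc (ι : G) : Finset (AddChar G ℂ) :=
  Finset.univ.filter fun χ => χ ι = -1 ∧ (cord χ = 4 ∨ cord χ = 6)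

theorem card_oddCyc (ι : G) : (oddCyc ι).card ≤ 6 * (cycSub ι).ncard := by
  classical
  have h1 : (oddCyc ι).card ≤ 6 * ((oddCyc ι).image kerChar).card := by
    refine Finset.card_le_mul_card_image _ _ fun H _ => ?_
    refine card_same_kernel H 6 _ fun χ hχ => ?_
    rw [Finset.mem_filter, oddCyc, Finset.mem_filter] at hχ
    exact ⟨hχ.2, by rcases hχ.1.2.2 with h | h <;> omega⟩
  refine h1.trans (Nat.mul_le_mul_left _ ?_)
  rw [← Set.ncard_coe_finset]
  refine Set.ncard_le_ncard ?_ (Set.toFinite _)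
  intro H hH
  rw [Finset.mem_coe, Finset.mem_image] at hH
  obtain ⟨χ, hχ, rfl⟩ := hH
  rw [oddCyc, Finset.mem_filter] at hχ
  refine ⟨?_, cyclic_kerChar χ, ?_⟩
  · rw [index_kerChar]
    exact hχ.2.2
  · rw [mem_kerChar, hχ.2.1]
    norm_num

end

end Pool.Agent.Lib.MP_938ce2_ag_h85
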