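import Mathlib
import Pool.Agent.Lib.MP_938ce2_ag_h85.Uniform

/-!
Assembly of the uniform asymptotic formula.
-/

set_option autoImplicit false
set_option linter.unusedSectionVars false

namespace Pool.Agent.Lib.MP_938ce2_ag_h85

section

variable {G : Type} [AddCommGroup G] [Fintype G]

open Classical in
/-- odd characters of order at least eight -/
noncomputable def oddHigh (ι : G) : Finset (AddChar G ℂ) :=
  Finset.univ.filter fun χ => χ ι = -1 ∧ 8 ≤ cord χ

lemma oddNon_subset (ι : G) [DecidableEq (AddChar G ℂ)] : oddNon ι ⊆ oddCyc ι ∪ oddHigh ι := by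
  intro χ hχ
  rw [oddNon, Finset.mem_filter] at hχ
  obtain ⟨x0, hx0⟩ := cord_gen χ
  obtain ⟨q, hq, hq0, -⟩ := odd_char_even hχ.2.1 (cord_pos χ) (cord_pow χ) hx0
  have h2 := hχ.2.2
  rw [Finset.mem_union, oddCyc, oddHigh, Finset.mem_filter, Finset.mem_filter]
  rcases Nat.lt_or_ge (cord χ) 8 with h | h
  · left
    refine ⟨Finset.mem_univ _, hχ.2.1, ?_⟩
    omega
  · exact Or.inr ⟨Finset.mem_univ _, hχ.2.1, h⟩

lemma sum_oddHigh {ι : G} {g : ℕ} (hg : Fintype.card G = 2 * g) {D : ℝ}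
    (hD : ∑ χ : AddChar G ℂ, (4 * (cord χ : ℝ) ^ 2) / 2 ^ (Nat.totient (cord χ)) ≤ D * Fintype.card G) :
    ∑ χ ∈ oddHigh ι, ((van ι χ).card : ℝ) ≤ 2 * D * (2 ^ g / g) := by
  classical
  have hGpos : 0 < Fintype.card G := Fintype.card_pos
  have hgpos : (0 : ℝ) < g := by
    have : 0 < g := by omega
    exact_mod_cast this
  calc ∑ χ ∈ oddHigh ι, ((van ι χ).card : ℝ)
      ≤ ∑ χ ∈ oddHigh ι, 2 ^ g / g ^ 2 * ((4 * (cord χ : ℝ) ^ 2) / 2 ^ (Nat.totient (cord χ))) := by
        refine Finset.sum_le_sum fun χ hχ => ?_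
        rw [oddHigh, Finset.mem_filter] at hχ
        have h := card_van_high hχ.2.1 hχ.2.2 hg
        have h' : ((van ι χ).card : ℝ) * g ^ 2 * 2 ^ (Nat.totient (cord χ))
            ≤ 2 ^ g * (4 * (cord χ : ℝ) ^ 2) := by
          exact_mod_cast h
        rw [div_mul_div_comm, le_div_iff₀ (by positivity)]
        linarith
    _ ≤ ∑ χ : AddChar G ℂ, 2 ^ g / g ^ 2 * ((4 * (cord χ : ℝ) ^ 2) / 2 ^ (Nat.totient (cord χ))) :=
        Finset.sum_le_sum_of_subset_of_nonneg (Finset.subset_univ _) fun χ _ _ => by positivity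
    _ = 2 ^ g / g ^ 2 * ∑ χ : AddChar G ℂ, (4 * (cord χ : ℝ) ^ 2) / 2 ^ (Nat.totient (cord χ)) := by
        rw [Finset.mul_sum]
    _ ≤ 2 ^ g / g ^ 2 * (D * Fintype.card G) := mul_le_mul_of_nonneg_left hD (by positivity)
    _ = 2 * D * (2 ^ g / g) := by
        rw [hg]; push_cast; field_simp

lemma sum_oddCyc {ι : G} {g : ℕ} (hg : Fintype.card G = 2 * g) :
    ∑ χ ∈ oddCyc ι, ((van ι χ).card : ℝ) ≤ 18 * (cycSub ι).ncard * (2 ^ g / g) := by
  classical
  have hGpos : 0 < Fintype.card G := Fintype.card_pos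
  have hgpos : (0 : ℝ) < g := by
    have : 0 < g := by omega
    exact_mod_cast this
  have ht4 : Nat.totient 4 = 2 := by decide
  have ht6 : Nat.totient 6 = 2 := by decide
  calc ∑ χ ∈ oddCyc ι, ((van ι χ).card : ℝ) ≤ ∑ χ ∈ oddCyc ι, 3 * (2 ^ g / (g : ℝ)) := by
        refine Finset.sum_le_sum fun χ hχ => ?_
        rw [oddCyc, Finset.mem_filter] at hχ
        have h := card_van_nonquad hχ.2.1 (by omega) hg
        have h' : ((van ι χ).card : ℝ) * g ≤ 3 * 2 ^ g := by
          rcases hχ.2.2 with h4 | h6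
          · rw [h4, ht4] at h
            have : (van ι χ).card * g ≤ 3 * 2 ^ g := by omega
            exact_mod_cast this
          · rw [h6, ht6] at h
            have : (van ι χ).card * g ≤ 3 * 2 ^ g := by omega
            exact_mod_cast this
        rw [← mul_div_assoc, le_div_iff₀ hgpos]
        exact h'
    _ = (oddCyc ι).card * (3 * (2 ^ g / (g : ℝ))) := by rw [Finset.sum_const, nsmul_eq_mul]
    _ ≤ (6 * (cycSub ι).ncard) * (3 * (2 ^ g / (g : ℝ))) := by
        refine mul_le_mul_of_nonneg_right ?_ (by positivity)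
        exact_mod_cast card_oddCyc ι
    _ = _ := by ring

lemma sum_oddNon_le {ι : G} {g : ℕ} (hg : Fintype.card G = 2 * g) {D : ℝ}
    (hD : ∑ χ : AddChar G ℂ, (4 * (cord χ : ℝ) ^ 2) / 2 ^ (Nat.totient (cord χ)) ≤ D * Fintype.card G) :
    ∑ χ ∈ oddNon ι, ((van ι χ).card : ℝ) ≤ (18 * (cycSub ι).ncard + 2 * D) * (2 ^ g / g) := by
  classical
  have h1 : ∑ χ ∈ oddNon ι, ((van ι χ).card : ℝ) ≤ ∑ χ ∈ oddCyc ι ∪ oddHigh ι, ((van ι χ).card : ℝ) :=
    Finset.sum_le_sum_of_subset_of_nonneg (oddNon_subset ι) fun χ _ _ => by positivity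
  have h2 : ∑ χ ∈ oddCyc ι ∪ oddHigh ι, ((van ι χ).card : ℝ)
      ≤ ∑ χ ∈ oddCyc ι, ((van ι χ).card : ℝ) + ∑ χ ∈ oddHigh ι, ((van ι χ).card : ℝ) := by
    rw [← Finset.sum_union_inter]
    have : (0 : ℝ) ≤ ∑ χ ∈ oddCyc ι ∩ oddHigh ι, ((van ι χ).card : ℝ) :=
      Finset.sum_nonneg fun χ _ => by positivity
    linarith
  have h3 := sum_oddCyc (ι := ι) hg
  have h4 := sum_oddHigh (ι := ι) hg hD
  calc _ ≤ _ := h1.trans h2
    _ ≤ _ := add_le_add h3 h4
    _ = _ := by ring

lemma sum_pairs_le {ι : G} {g : ℕ} (hg : Fintype.card G = 2 * g) [DecidableEq (Finset G)] :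
    ∑ p ∈ (oddQuad ι).offDiag, (((van ι p.1) ∩ (van ι p.2)).card : ℝ)
      ≤ 2 * ((quadSub ι).ncard : ℝ) ^ 2 * (2 ^ g / (g : ℝ)) := by
  classical
  have hGpos : 0 < Fintype.card G := Fintype.card_pos
  have hgpos : (0 : ℝ) < g := by
    have : 0 < g := by omega
    exact_mod_cast this
  calc ∑ p ∈ (oddQuad ι).offDiag, (((van ι p.1) ∩ (van ι p.2)).card : ℝ)
      ≤ ∑ p ∈ (oddQuad ι).offDiag, (2 * (2 ^ g / (g : ℝ)) : ℝ) := by
        refine Finset.sum_le_sum fun p hp => ?_
        rw [Finset.mem_offDiag, oddQuad, Finset.mem_filter, Finset.mem_filter] at hp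
        have h := card_van_pair hp.1.2.1 hp.2.1.2.1 ((cord_eq_two_iff hp.1.2.1).mp hp.1.2.2)
          ((cord_eq_two_iff hp.2.1.2.1).mp hp.2.1.2.2) hp.2.2 hg
        have h' : (((van ι p.1) ∩ (van ι p.2)).card : ℝ) * g ≤ 2 * 2 ^ g := by exact_mod_cast h
        rw [← mul_div_assoc, le_div_iff₀ hgpos]
        exact h'
    _ = ((oddQuad ι).offDiag.card : ℝ) * (2 * (2 ^ g / (g : ℝ))) := by rw [Finset.sum_const, nsmul_eq_mul]
    _ ≤ ((quadSub ι).ncard : ℝ) ^ 2 * (2 * (2 ^ g / (g : ℝ))) := by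
        refine mul_le_mul_of_nonneg_right ?_ (by positivity)
        rw [card_quadSub]
        have h1 : (oddQuad ι).offDiag.card ≤ (oddQuad ι).card ^ 2 := by
          rw [Finset.offDiag_card, sq]
          exact Nat.sub_le _ _
        exact_mod_cast h1
    _ = _ := by ring

/-- the lower bound for even `g` -/
lemma bad_lower {ι : G} (hι2 : ι + ι = 0) {n : ℕ} (hg : Fintype.card G = 2 * (2 * n))
    [DecidableEq (Finset G)] :
    ((quadSub ι).ncard : ℝ) * mid (2 * n) ≤
      ({Φ : Finset G | IsCMType ι Φ ∧ ¬ DivisorGenerated Φ}.ncard : ℝ)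
      + (quadSub ι).ncard * (2 * n * 2 ^ n)
      + ∑ p ∈ (oddQuad ι).offDiag, (((van ι p.1) ∩ (van ι p.2)).card : ℝ) := by
  classical
  set B : AddChar G ℂ → Finset (Finset G) := fun χ => van ι χ \ (fib χ (-1)).biUnion (stab ι) with hB
  have h1 : ∀ χ ∈ oddQuad ι, mid (2 * n) ≤ (B χ).card + 2 * n * 2 ^ n := by
    intro χ hχ
    rw [oddQuad, Finset.mem_filter] at hχ
    have hq := (cord_eq_two_iff hχ.2.1).mp hχ.2.2
    have h2 := mid_le_card_van hι2 hχ.2.1 hq hg
    have h3 : ((fib χ (-1)).biUnion (stab ι)).card ≤ 2 * n * 2 ^ n := by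
      refine Finset.card_biUnion_le.trans ?_
      have h4 : (fib χ (-1)).card = 2 * n := by
        have h5 : fib χ (-1) = fib χ (χ ι) := by rw [hχ.2.1]
        rw [h5, fib_card]
        have hKcm : IsCMType ι (fib χ 1) := by
          intro σ
          rw [mem_fib, mem_fib, AddChar.map_add_eq_mul, hχ.2.1]
          rcases hq σ with h2 | h2 <;> rw [h2] <;> norm_num
        have h6 := card_type hKcm
        omega
      calc ∑ s ∈ fib χ (-1), (stab ι s).card ≤ ∑ s ∈ fib χ (-1), 2 ^ n :=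
            Finset.sum_le_sum fun s hs => card_stab_le hχ.2.1 hq hg (mem_fib.mp hs)
        _ = 2 * n * 2 ^ n := by rw [Finset.sum_const, h4, smul_eq_mul]
    have h4 := Finset.card_le_card_sdiff_add_card (t := (fib χ (-1)).biUnion (stab ι)) (s := van ι χ)
    change mid (2 * n) ≤ (van ι χ \ (fib χ (-1)).biUnion (stab ι)).card + 2 * n * 2 ^ n
    omega
  have h2 : (oddQuad ι).card * mid (2 * n) ≤ ∑ χ ∈ oddQuad ι, (B χ).card
      + (oddQuad ι).card * (2 * n * 2 ^ n) := by
    have h3 := Finset.sum_le_sum h1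
    rw [Finset.sum_add_distrib, Finset.sum_const, Finset.sum_const, smul_eq_mul, smul_eq_mul] at h3
    exact h3
  have h3 := bonferroni (oddQuad ι) B
  have h4 : ((oddQuad ι).biUnion B).card ≤ {Φ : Finset G | IsCMType ι Φ ∧ ¬ DivisorGenerated Φ}.ncard := by
    rw [← Set.ncard_coe_finset]
    refine Set.ncard_le_ncard ?_ (Set.toFinite _)
    intro Φ hΦ
    rw [Finset.mem_coe, Finset.mem_biUnion] at hΦ
    obtain ⟨χ, hχ, hΦ⟩ := hΦ
    rw [oddQuad, Finset.mem_filter] at hχ
    have hq := (cord_eq_two_iff hχ.2.1).mp hχ.2.2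
    rw [hB, Finset.mem_sdiff, mem_van, Finset.mem_biUnion] at hΦ
    refine ⟨hΦ.1.1, not_divisorGenerated hΦ.1.1 hχ.2.1 hq hΦ.1.2 fun s hs => ?_⟩
    rcases hq s with h5 | h5
    · exact h5
    · exact absurd ⟨s, mem_fib.mpr h5, mem_stab.mpr ⟨hΦ.1.1, hs⟩⟩ hΦ.2
  have h5 : ∑ p ∈ (oddQuad ι).offDiag, ((B p.1) ∩ (B p.2)).card
      ≤ ∑ p ∈ (oddQuad ι).offDiag, ((van ι p.1) ∩ (van ι p.2)).card := by
    refine Finset.sum_le_sum fun p _ => Finset.card_le_card ?_
    exact Finset.inter_subset_inter Finset.sdiff_subset Finset.sdiff_subset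
  rw [card_quadSub]
  have h6 : (oddQuad ι).card * mid (2 * n) ≤
      {Φ : Finset G | IsCMType ι Φ ∧ ¬ DivisorGenerated Φ}.ncard + (oddQuad ι).card * (2 * n * 2 ^ n)
      + ∑ p ∈ (oddQuad ι).offDiag, ((van ι p.1) ∩ (van ι p.2)).card := by
    omega
  exact_mod_cast h6

/-- the number of CM types -/
lemma card_cmTypes {ι : G} (hι : ι ≠ 0) (hι2 : ι + ι = 0) {g : ℕ} (hg : Fintype.card G = 2 * g) :
    {Φ : Finset G | IsCMType ι Φ}.ncard = 2 ^ g := by
  classical
  -- a half system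
  set e := Fintype.equivFin G with he
  set R : Finset G := Finset.univ.filter fun x => e x < e (x + ι) with hR
  have hRcm : IsCMType ι R := by
    intro x
    simp only [hR, Finset.mem_filter, Finset.mem_univ, true_and]
    rw [add_assoc, hι2, add_zero, not_lt]
    refine ⟨le_of_lt, fun h => lt_of_le_of_ne h fun h' => ?_⟩
    have := e.injective h'
    exact hι (by simpa using this.symm)
  have hRc := card_type hRcm
  have hRg : R.card = g := by omega
  have h1 : {Φ : Finset G | IsCMType ι Φ} = (cmTypes ι : Set (Finset G)) := by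
    ext Φ
    rw [Finset.mem_coe, mem_cmTypes]
    rfl
  rw [h1, Set.ncard_coe_finset, ← hRg, ← Finset.card_powerset]
  have hshift : ∀ x, x ∉ R → x + ι ∈ R := by
    intro x hx
    by_contra h3
    exact hx ((hRcm x).mpr h3)
  refine Finset.card_bij' (fun Φ _ => Φ ∩ R)
    (fun S _ => Finset.univ.filter fun x => if x ∈ R then x ∈ S else x + ι ∉ S) ?_ ?_ ?_ ?_
  · intro Φ _
    exact Finset.mem_powerset.mpr Finset.inter_subset_right
  · intro S _
    rw [mem_cmTypes]
    intro x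
    simp only [Finset.mem_filter, Finset.mem_univ, true_and]
    by_cases hx : x ∈ R
    · rw [if_pos hx, if_neg ((hRcm x).mp hx), add_assoc, hι2, add_zero, not_not]
    · rw [if_neg hx, if_pos (hshift x hx)]
  · intro Φ hΦ
    rw [mem_cmTypes] at hΦ
    ext x
    simp only [Finset.mem_filter, Finset.mem_univ, true_and, Finset.mem_inter]
    by_cases hx : x ∈ R
    · rw [if_pos hx]; tauto
    · rw [if_neg hx, hΦ x]
      have := hshift x hx
      tauto
  · intro S hS
    rw [Finset.mem_powerset] at hS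
    ext x
    simp only [Finset.mem_filter, Finset.mem_univ, true_and, Finset.mem_inter]
    by_cases hx : x ∈ R
    · rw [if_pos hx]; tauto
    · have : x ∉ S := fun h => hx (hS h)
      tauto

end

lemma sq_le_two_pow (n : ℕ) : n ^ 2 ≤ 2 * 2 ^ n := by
  induction n with
  | zero => simp
  | succ n ih =>
    rcases Nat.lt_or_ge n 3 with h | h
    · interval_cases n <;> norm_num
    · calc (n + 1) ^ 2 ≤ 2 * n ^ 2 := by nlinarith
        _ ≤ 2 * (2 * 2 ^ n) := Nat.mul_le_mul_left _ ih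
        _ = _ := by ring

/-- the uniform asymptotic formula -/
theorem uniform_bounds : ∃ C : ℝ, 0 < C ∧ ∀ (G : Type) [AddCommGroup G] [Fintype G] (ι : G) (g : ℕ),
    ι ≠ 0 → ι + ι = 0 → Fintype.card G = 2 * g →
    |({Φ : Finset G | IsCMType ι Φ ∧ ¬ DivisorGenerated Φ}.ncard : ℝ)
        - (if Even g then ((quadSub ι).ncard * g.choose (g / 2) : ℝ) else 0)|
      ≤ C * (1 + (cycSub ι).ncard + (quadSub ι).ncard ^ 2) * (2 ^ g / g) ∧
    ({Φ : Finset G | IsCMType ι Φ ∧ ¬ WeilGenerated ι Φ}.ncard : ℝ)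
      ≤ C * (1 + (cycSub ι).ncard + (quadSub ι).ncard ^ 2) * (2 ^ g / g) := by
  classical
  obtain ⟨D, hD, hDG⟩ := sum_weight_uniform
  refine ⟨2 * D + 18, by positivity, ?_⟩
  intro G _ _ ι g hι hι2 hg
  have hGpos : 0 < Fintype.card G := Fintype.card_pos
  have hg1 : 1 ≤ g := by omega
  have hgpos : (0 : ℝ) < g := by exact_mod_cast hg1
  have hnon := sum_oddNon_le (ι := ι) hg (hDG G)
  have hpair := sum_pairs_le (ι := ι) hg
  set s : ℝ := ((cycSub ι).ncard : ℝ) with hs
  set q : ℝ := ((quadSub ι).ncard : ℝ) with hq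
  set X : ℝ := 2 ^ g / (g : ℝ) with hX
  have hs0 : 0 ≤ s := by positivity
  have hq0 : 0 ≤ q := by positivity
  have hX0 : 0 ≤ X := by positivity
  have hqq : q ≤ q ^ 2 := by
    rw [hq]
    have : (quadSub ι).ncard ≤ (quadSub ι).ncard ^ 2 := Nat.le_self_pow two_ne_zero _
    exact_mod_cast this
  have hDX : 0 ≤ D * X := by positivity
  have hDsX : 0 ≤ D * s * X := by positivity
  have hDqX : 0 ≤ D * q ^ 2 * X := by positivity
  have hqX : 0 ≤ q ^ 2 * X := by positivity
  have hsX : 0 ≤ s * X := by positivity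
  refine ⟨?_, ?_⟩
  · rcases Nat.even_or_odd g with he | ho
    · rw [if_pos he]
      obtain ⟨n, hn⟩ := he
      have hn2 : g = 2 * n := by omega
      have hmid : (g.choose (g / 2) : ℝ) = mid (2 * n) := by rw [← hn2]; rfl
      rw [hmid, abs_le]
      constructor
      · have h1 := bad_lower (ι := ι) hι2 (n := n) (by omega)
        rw [← hq] at h1
        have h2 : (2 * n * 2 ^ n : ℝ) ≤ 8 * X := by
          rw [hX, hn2, ← mul_div_assoc, le_div_iff₀ (by rw [← hn2]; exact hgpos)]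
          have h3 : n ^ 2 ≤ 2 * 2 ^ n := sq_le_two_pow n
          have h4 : 2 * n * 2 ^ n * (2 * n) ≤ 8 * 2 ^ (2 * n) := by
            calc 2 * n * 2 ^ n * (2 * n) = 4 * 2 ^ n * n ^ 2 := by ring
              _ ≤ 4 * 2 ^ n * (2 * 2 ^ n) := Nat.mul_le_mul_left _ h3
              _ = 8 * 2 ^ (2 * n) := by rw [two_mul n, pow_add]; ring
          exact_mod_cast h4
        have h3 : q * (2 * n * 2 ^ n) ≤ q * (8 * X) := mul_le_mul_of_nonneg_left h2 hq0
        have h4 : q * (8 * X) ≤ 8 * (q ^ 2 * X) := by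
          have := mul_le_mul_of_nonneg_right hqq hX0
          linarith
        linarith
      · have h1 := bad_divisor hι hι2
        have h2 : ∑ χ ∈ oddQuad ι, ((van ι χ).card : ℝ) ≤ q * mid (2 * n) := by
          calc ∑ χ ∈ oddQuad ι, ((van ι χ).card : ℝ) ≤ ∑ χ ∈ oddQuad ι, (mid (2 * n) : ℝ) := by
                refine Finset.sum_le_sum fun χ hχ => ?_
                rw [oddQuad, Finset.mem_filter] at hχ
                have h := card_van_quad hχ.2.1 hχ.2.2 hg
                rw [hn2] at h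
                exact_mod_cast h
            _ = q * mid (2 * n) := by rw [Finset.sum_const, nsmul_eq_mul, hq, card_quadSub]
        linarith
    · have hne : ¬ Even g := Nat.not_even_iff_odd.mpr ho
      rw [if_neg hne, sub_zero, abs_of_nonneg (by positivity)]
      have h1 := bad_divisor' hι hι2 (fun χ hχ => van_empty_of_odd hg ho hχ)
      linarith
  · have h1 := bad_weil hι hι2
    linarith

/-- cyclic groups -/
theorem cyclic_bound : ∃ C : ℝ, 0 < C ∧ ∀ (G : Type) [AddCommGroup G] [Fintype G] (ι : G) (g : ℕ),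
    ι ≠ 0 → ι + ι = 0 → Fintype.card G = 2 * g → IsAddCyclic G →
    ({Φ : Finset G | IsCMType ι Φ ∧ ¬ DivisorGenerated Φ}.ncard : ℝ) ≤ C * (2 ^ g / g) := by
  classical
  obtain ⟨C, hC, h⟩ := upper_bounds 1
  refine ⟨C, hC, ?_⟩
  intro G _ _ ι g hι hι2 hg hcyc
  obtain ⟨x, hx⟩ := IsAddCyclic.exists_generator (α := G)
  have hgen : AddSubgroup.closure (({x} : Finset G) : Set G) = ⊤ := by
    rw [Finset.coe_singleton, ← AddSubgroup.zmultiples_eq_closure, eq_top_iff]
    intro y _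
    exact hx y
  refine (h G {x} ι g (by simp) hgen hι hι2 hg).2.2 ?_
  rcases Nat.even_or_odd g with he | ho
  · right
    rintro ⟨H, hH, hιH⟩
    obtain ⟨n, hn⟩ := he
    -- `ι` is the multiple `g x`
    obtain ⟨k, hk⟩ := AddSubgroup.mem_zmultiples_iff.mp (hx ι)
    have hord : addOrderOf x = 2 * g := by
      rw [← hg, ← Nat.card_eq_fintype_card]
      exact addOrderOf_eq_card_of_forall_mem_zmultiples hx
    have h1 : (2 * k) • x = 0 := by
      have : (2 * k) • x = k • x + k • x := by rw [two_mul, add_zsmul]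
      rw [this, hk, hι2]
    rw [← addOrderOf_dvd_iff_zsmul_eq_zero, hord] at h1
    have h2 : (2 : ℤ) ∣ k := by
      obtain ⟨c, hc⟩ := h1
      refine ⟨n * c, ?_⟩
      push_cast at hc
      rw [hn] at hc
      push_cast at hc
      linarith
    obtain ⟨c, hc⟩ := h2
    apply hιH
    rw [← hk, hc, two_mul, add_zsmul]
    exact AddSubgroup.add_self_mem_of_index_two hH _
  · exact Or.inl ho

end Pool.Agent.Lib.MP_938ce2_ag_h85
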