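import Mathlib
import Pool.Agent.Lib.MP_938ce2_ag_h85.Main

/-!
Tate classes on the powers of an abelian variety with complex multiplication by a CM field which is
abelian over `ℚ`: the number of CM types for which they are not generated by divisor classes.
-/

set_option autoImplicit false

namespace Pool.Agent.Results.MP_938ce2_ag.TateForMostCMTypes

open Pool.Agent.Lib.MP_938ce2_ag_h85

/-- `G` is the Galois group of a CM field `E` of degree `2g` which is abelian over `ℚ` and `ι` is
complex conjugation; `(quadSub ι).ncard` is the number of imaginary quadratic subfields of `E` and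
`(cycSub ι).ncard` the number of cyclic CM subfields of degree four or six. -/
theorem result :
    ∃ C : ℝ, 0 < C ∧ ∀ (G : Type) [AddCommGroup G] [Fintype G] (ι : G) (g : ℕ),
      ι ≠ 0 → ι + ι = 0 → Fintype.card G = 2 * g →
      |({Φ : Finset G | IsCMType ι Φ ∧ ¬ DivisorGenerated Φ}.ncard : ℝ)
          - (if Even g then ((quadSub ι).ncard * g.choose (g / 2) : ℝ) else 0)|
        ≤ C * (1 + (cycSub ι).ncard + (quadSub ι).ncard ^ 2) * (2 ^ g / g) ∧
      ({Φ : Finset G | IsCMType ι Φ ∧ ¬ WeilGenerated ι Φ}.ncard : ℝ)
        ≤ C * (1 + (cycSub ι).ncard + (quadSub ι).ncard ^ 2) * (2 ^ g / g) :=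
  uniform_bounds

end Pool.Agent.Results.MP_938ce2_ag.TateForMostCMTypes
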